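import Pool.Agent.Helper54_Ballistic.Main

/-!
# Vanishing of the ballistic weight: conclusion
-/

set_option autoImplicit false
set_option linter.unusedSectionVars false

open scoped InnerProductSpace ComplexConjugate Topology ENNReal
open MeasureTheory Filter

noncomputable section

namespace Pool.Agent.Helper54.Bal

open Pool.Agent.Anderson

variable {d : ℕ} {P : Measure (Cfg d)} [IsProbabilityMeasure P]
  {μ : Measure ℝ} [IsProbabilityMeasure μ]

theorem continuous_apply0 (x : Site d) : Continuous fun f : L2 d => f x := by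
  have : (fun f : L2 d => f x) = fun f => ⟪del x, f⟫_ℂ := by
    funext f; rw [inner_del_left]
  rw [this]
  exact continuous_const.inner continuous_id

/-- a square of pairwise orthogonal vectors vanishes -/
theorem orth_zero {ν : Measure ℝ} [IsFiniteMeasure ν] {Φ : ℝ → L2 d} (hΦ : Integrable Φ ν)
    (h : ∀ᵐ s ∂ν, ∀ᵐ s' ∂ν, ⟪Φ s, Φ s'⟫_ℂ = 0) : Φ =ᵐ[ν] 0 := by
  refine hΦ.ae_eq_zero_of_forall_setIntegral_eq_zero fun B hB _ => ?_
  rw [← inner_self_eq_zero (𝕜 := ℂ)]
  set I := ∫ s in B, Φ s ∂ν with hI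
  have h1 : ∀ᵐ s ∂(ν.restrict B), ⟪Φ s, I⟫_ℂ = 0 := by
    filter_upwards [ae_restrict_of_ae h] with s hs
    rw [hI, ← integral_inner hΦ.integrableOn]
    rw [integral_congr_ae (g := fun _ => (0:ℂ)) (ae_restrict_of_ae hs), integral_zero]
  rw [show ⟪I, I⟫_ℂ = ∫ s in B, ⟪I, Φ s⟫_ℂ ∂ν from by
    rw [integral_inner hΦ.integrableOn]]
  rw [integral_congr_ae (g := fun _ => (0:ℂ)) ?_, integral_zero]
  filter_upwards [h1] with s hs
  rw [← inner_conj_symm, hs, map_zero]

theorem eF_eq (i : Fin d) (φ : Cfg d → L2 d) {η : ℝ} (hη : 0 < η) (p : Cfg d × ℝ) :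
    eF i φ η p = ENNReal.ofReal (η ^ 3 * ∫ E : ℝ, errF i φ η p.1 p.2 E) := by
  unfold eF
  rw [← ofReal_integral_eq_lintegral_ofReal (integrable_errF i φ hη p.1 p.2)
    (Eventually.of_forall fun E => errF_nonneg i φ η p.1 p.2 E),
    ← ENNReal.ofReal_mul (by positivity)]

/-- a sequence of scales along which the error tends to zero almost surely -/
theorem exists_scales (hP : ShiftInv P) (hR : Resamp P μ) (i : Fin d) {u A : K P}
    (he : (ww i : K P) = u + A) (hu : u ∈ ZZ hP)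
    (hA : ∀ z : ℂ, z.im ≠ 0 → LL z A = RR hP z A) :
    ∃ η : ℕ → ℝ, (∀ n, 0 < η n) ∧ Tendsto η atTop (𝓝 0) ∧
      ∀ᵐ p ∂(P.prod μ), Tendsto (fun n => (η n) ^ 3 *
        ∫ E : ℝ, errF i (fibK A) (η n) p.1 p.2 E) atTop (𝓝 0) := by
  have hnn : Tendsto (fun η => nn hP η u) (𝓝[>] 0) (𝓝 0) := by
    refine squeeze_zero (fun η => nn_nonneg hP η u) (fun η => ?_) hu
    have := nn_nonneg hP (-η) u
    unfold NN
    linarith
  have hex : ∀ n : ℕ, ∃ η : ℝ, 0 < η ∧ η < 1 / ((n : ℝ) + 1) ∧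
      ∫⁻ p, eF i (fibK A) η p ∂(P.prod μ) ≤ ENNReal.ofReal ((1 / 2) ^ n) := by
    intro n
    set ε : ℝ := (1 / 2) ^ n with hε
    have hε0 : 0 < ε := by positivity
    set δ : ℝ := ε / (8 * Real.pi) with hδ
    have hδ0 : 0 < δ := by positivity
    have h1 : Tendsto (fun η => (δ⁻¹ + 1) * nn hP η u) (𝓝[>] 0) (𝓝 0) := by
      simpa using hnn.const_mul (δ⁻¹ + 1)
    have h2 : ∀ᶠ η in 𝓝[>] (0:ℝ), (δ⁻¹ + 1) * nn hP η u < ε / 2 :=
      h1.eventually_lt_const (by positivity)
    have h3 : ∀ᶠ η in 𝓝[>] (0:ℝ), η < 1 / ((n : ℝ) + 1) := by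
      have : ∀ᶠ η in 𝓝 (0:ℝ), η < 1 / ((n : ℝ) + 1) := eventually_lt_nhds (by positivity)
      exact this.filter_mono nhdsWithin_le_nhds
    have h4 : ∀ᶠ η in 𝓝[>] (0:ℝ), 0 < η := self_mem_nhdsWithin
    obtain ⟨η, e1, e2, e3⟩ := (h2.and (h3.and h4)).exists
    refine ⟨η, e3, e2, ?_⟩
    have h5 := lintegral_eF_le hR i (stronglyMeasurable_fibK A) e3 hδ0
    rw [lintegral_rv hP i he hA e3, ← ENNReal.ofReal_mul (by positivity),
      ← ENNReal.ofReal_add (by positivity) (mul_nonneg (by positivity) (nn_nonneg _ _ _))] at h5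
    refine h5.trans (ENNReal.ofReal_le_ofReal ?_)
    have h6 : 4 * Real.pi * δ = ε / 2 := by rw [hδ]; field_simp; norm_num
    linarith
  choose η hη0 hη1 hη2 using hex
  refine ⟨η, hη0, ?_, ?_⟩
  · exact squeeze_zero (fun n => (hη0 n).le) (fun n => (hη1 n).le)
      tendsto_one_div_add_atTop_nhds_zero_nat
  · have hm : ∀ n, Measurable (eF i (fibK A) (η n)) := fun n =>
      measurable_eF i (stronglyMeasurable_fibK A) hR.measurable (hη0 n).ne'
    have h1 : ∫⁻ p, ∑' n, eF i (fibK A) (η n) p ∂(P.prod μ) ≠ ∞ := by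
      rw [lintegral_tsum fun n => (hm n).aemeasurable]
      refine ne_top_of_le_ne_top ?_ (ENNReal.tsum_le_tsum hη2)
      have h2 : Summable fun n : ℕ => ((1:ℝ) / 2) ^ n := summable_geometric_two
      rw [← ENNReal.ofReal_tsum_of_nonneg (fun n => by positivity) h2]
      exact ENNReal.ofReal_ne_top
    have h2 : ∀ᵐ p ∂(P.prod μ), ∑' n, eF i (fibK A) (η n) p < ∞ :=
      ae_lt_top (Measurable.tsum hm) h1
    filter_upwards [h2] with p hp
    have h3 := ENNReal.tendsto_atTop_zero_of_tsum_ne_top hp.ne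
    simp only [eF_eq i (fibK A) (hη0 _)] at h3
    have h4 := (ENNReal.tendsto_toReal ENNReal.zero_ne_top).comp h3
    simp only [ENNReal.toReal_zero] at h4
    refine h4.congr fun n => ?_
    simp only [Function.comp_apply]
    rw [ENNReal.toReal_ofReal]
    exact mul_nonneg (by have := hη0 n; positivity)
      (integral_nonneg fun E => errF_nonneg i _ _ _ _ _)

/-- vanishing at the origin -/
theorem ae_zero (hP : ShiftInv P) {A : K P} (hA : ∀ z : ℂ, z.im ≠ 0 → LL z A = RR hP z A)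
    (hT : TT hP A = -A) {η : ℝ} (hη : η ≠ 0) :
    ∀ᵐ V ∂P, ∀ᵐ E : ℝ, G V (zz η E) (fibK A V) 0 = 0 ∧
      G V (zz η E) (G V (zz η E) (fibK A V)) 0 = 0 := by
  have hz : ∀ E : ℝ, (zz η E).im ≠ 0 := fun E => by simpa using hη
  have sφ := stronglyMeasurable_fibK A
  have hms : MeasurableSet {q : Cfg d × ℝ | G q.1 (zz η q.2) (fibK A q.1) 0 = 0 ∧
      G q.1 (zz η q.2) (G q.1 (zz η q.2) (fibK A q.1)) 0 = 0} := by
    have s1 := sm_G hη (measurable_fst (α := Cfg d) (β := ℝ)) measurable_snd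
      (sφ.comp_measurable measurable_fst)
    have s2 := sm_G hη (measurable_fst (α := Cfg d) (β := ℝ)) measurable_snd s1
    have m1 : Measurable fun q : Cfg d × ℝ => G q.1 (zz η q.2) (fibK A q.1) 0 :=
      ((continuous_apply0 0).comp_stronglyMeasurable s1).measurable
    have m2 : Measurable fun q : Cfg d × ℝ =>
        G q.1 (zz η q.2) (G q.1 (zz η q.2) (fibK A q.1)) 0 :=
      ((continuous_apply0 0).comp_stronglyMeasurable s2).measurable
    exact (measurableSet_eq_fun m1 measurable_const).inter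
      (measurableSet_eq_fun m2 measurable_const)
  rw [Measure.ae_ae_comm hms]
  refine Eventually.of_forall fun E => ?_
  have h1 : TT hP (LL (zz η E) A) = -LL (zz η E) A := by
    rw [TT_LL hP (hz E), hT, map_neg, hA _ (hz E)]
  have h2 : TT hP (LL (zz η E) (LL (zz η E) A)) = -LL (zz η E) (LL (zz η E) A) := by
    rw [TT_LL hP (hz E), h1, map_neg, ← comm_LL_RR hP (hz E) (hz E), ← hA _ (hz E)]
  filter_upwards [fibK_zero_of_TT hP h1, fibK_zero_of_TT hP h2, fibK_LL (hz E) A,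
    fibK_LL (hz E) (LL (zz η E) A)] with V e1 e2 e3 e4
  rw [e3] at e1
  rw [e4, e3] at e2
  exact ⟨e1, e2⟩

theorem ae_ne [NullSingletonClass μ] : ∀ᵐ p ∂(P.prod μ), p.2 ≠ p.1 0 := by
  have hm : MeasurableSet {p : Cfg d × ℝ | p.2 = p.1 0} :=
    measurableSet_eq_fun measurable_snd ((measurable_pi_apply 0).comp measurable_fst)
  have h : (P.prod μ) {p : Cfg d × ℝ | p.2 = p.1 0} = 0 := by
    rw [Measure.measure_prod_null hm]
    refine Eventually.of_forall fun V => ?_
    have : Prod.mk V ⁻¹' {p : Cfg d × ℝ | p.2 = p.1 0} = {V 0} := by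
      ext s; simp
    simp only [this]
    simp
  rw [ae_iff]
  simpa using h

/-- orthogonality of the resampled limiting velocities -/
theorem phi_orth (hP : ShiftInv P) (hR : Resamp P μ) [NullSingletonClass μ] (i : Fin d) {u A : K P}
    (he : (ww i : K P) = u + A) (hu : u ∈ ZZ hP)
    (hA : ∀ z : ℂ, z.im ≠ 0 → LL z A = RR hP z A) (hT : TT hP A = -A)
    (hS : (star A : K P) = A) :
    ∀ᵐ p ∂(P.prod μ), ⟪fibK A p.1, fibK A (Function.update p.1 0 p.2)⟫_ℂ = 0 := by
  obtain ⟨η, hη0, hηlim, hconv⟩ := exists_scales (μ := μ) hP hR i he hu hA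
  have h1 : ∀ᵐ V ∂P, ∀ n, ∀ᵐ E : ℝ, G V (zz (η n) E) (fibK A V) 0 = 0 ∧
      G V (zz (η n) E) (G V (zz (η n) E) (fibK A V)) 0 = 0 :=
    ae_all_iff.2 fun n => ae_zero hP hA hT (hη0 n).ne'
  have h2 := hR.quasiMeasurePreserving.ae h1
  have h3 := fibK_star hS
  have h4 := hR.quasiMeasurePreserving.ae h3
  have h5 : ∀ᵐ p ∂(P.prod μ), star (fibK A p.1) = fibK A p.1 :=
    (Measure.quasiMeasurePreserving_fst (μ := P) (ν := μ)).ae h3
  filter_upwards [hconv, h2, h4, h5, ae_ne (P := P) (μ := μ)] with p e1 e2 e4 e5 e6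
  set V := p.1 with hV
  set s := p.2 with hs
  set V' := Function.update V 0 s with hV'
  set f := fibK A V with hf
  set f' := fibK A V' with hf'
  have hG : ∀ n, ∀ᵐ E : ℝ, G V (zz (η n) E) (G V (zz (η n) E) f') =
      G V' (zz (η n) E) (G V' (zz (η n) E) f') := by
    intro n
    have hz : ∀ E : ℝ, (zz (η n) E).im ≠ 0 := fun E => by simpa using (hη0 n).ne'
    filter_upwards [e2 n] with E hE
    rw [G_update_of_zero (hz E) hE.1, G_update_of_zero (hz E) hE.2]
  set H : ℝ := ‖Hd V‖ ^ 2 + ‖Hd V'‖ ^ 2 with hH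
  have hH0 : 0 ≤ H := by positivity
  have hb : ∀ R : ℝ, 1 ≤ R → Real.pi / 2 * ‖⟪f, f'⟫_ℂ‖ ≤ 4 / R + 4 * Real.pi * H / R ^ 2 := by
    intro R hR1
    have hR0 : 0 < R := by linarith
    have hn : ∀ n, Real.pi / 2 * ‖⟪f, f'⟫_ℂ‖ ≤
        (η n ^ 3 * ∫ E : ℝ, errF i (fibK A) (η n) V s E) +
        R ^ 2 / (2 * |s - V 0|) * (η n ^ 3 * ∫ E : ℝ, errF i (fibK A) (η n) V s E) +
        4 * R / R ^ 2 + 2 * (8 * Real.pi * η n + 2 * Real.pi / R ^ 2 * H) := by
      intro n
      exact pair_bound i V s e6 f f' e5 e4 (hη0 n) (by positivity) hR1 (hG n) le_rfl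
    have hlim : Tendsto (fun n => (η n ^ 3 * ∫ E : ℝ, errF i (fibK A) (η n) V s E) +
        R ^ 2 / (2 * |s - V 0|) * (η n ^ 3 * ∫ E : ℝ, errF i (fibK A) (η n) V s E) +
        4 * R / R ^ 2 + 2 * (8 * Real.pi * η n + 2 * Real.pi / R ^ 2 * H)) atTop
        (𝓝 (0 + R ^ 2 / (2 * |s - V 0|) * 0 + 4 * R / R ^ 2 +
          2 * (8 * Real.pi * 0 + 2 * Real.pi / R ^ 2 * H))) := by
      refine ((e1.add (e1.const_mul _)).add_const _).add ?_
      exact ((hηlim.const_mul _).add_const _).const_mul _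
    have h7 := ge_of_tendsto' hlim hn
    refine h7.trans (le_of_eq ?_)
    field_simp
    ring
  have hlim2 : Tendsto (fun R : ℝ => 4 / R + 4 * Real.pi * H / R ^ 2) atTop (𝓝 (0 + 0)) := by
    refine Tendsto.add ?_ ?_
    · exact tendsto_const_nhds.div_atTop tendsto_id
    · exact tendsto_const_nhds.div_atTop (tendsto_pow_atTop two_ne_zero)
  have h8 : Real.pi / 2 * ‖⟪f, f'⟫_ℂ‖ ≤ 0 + 0 := by
    refine ge_of_tendsto hlim2 ?_
    filter_upwards [eventually_ge_atTop 1] with R hR1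
    exact hb R hR1
  have h9 : ‖⟪f, f'⟫_ℂ‖ = 0 := by
    have h10 := norm_nonneg ⟪f, f'⟫_ℂ
    have h11 := Real.pi_pos
    nlinarith
  exact norm_eq_zero.1 h9

theorem phi_zero (hP : ShiftInv P) (hR : Resamp P μ) [NullSingletonClass μ] (i : Fin d) {u A : K P}
    (he : (ww i : K P) = u + A) (hu : u ∈ ZZ hP)
    (hA : ∀ z : ℂ, z.im ≠ 0 → LL z A = RR hP z A) (hT : TT hP A = -A)
    (hS : (star A : K P) = A) : ∀ᵐ V ∂P, fibK A V = 0 := by
  have sφ := stronglyMeasurable_fibK A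
  have h1 := phi_orth (μ := μ) hP hR i he hu hA hT hS
  have hR2 : MeasurePreserving (Prod.map (fun p : Cfg d × ℝ => Function.update p.1 0 p.2)
      (id : ℝ → ℝ)) ((P.prod μ).prod μ) (P.prod μ) := MeasurePreserving.prod hR
        (MeasurePreserving.id μ)
  have h2 := hR2.quasiMeasurePreserving.ae h1
  have h3 := Measure.ae_ae_of_ae_prod h2
  have h4 := Measure.ae_ae_of_ae_prod h3
  -- integrability
  have hI : ∫⁻ p : Cfg d × ℝ, ENNReal.ofReal (‖fibK A (Function.update p.1 0 p.2)‖ ^ 2)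
      ∂(P.prod μ) ≠ ∞ := by
    rw [MeasurePreserving.lintegral_comp hR (f := fun V => ENNReal.ofReal (‖fibK A V‖ ^ 2))
      (meas_sq sφ), lintegral_fibK]
    exact ENNReal.ofReal_ne_top
  have mI : Measurable fun p : Cfg d × ℝ =>
      ENNReal.ofReal (‖fibK A (Function.update p.1 0 p.2)‖ ^ 2) :=
    (meas_sq sφ).comp hR.measurable
  rw [lintegral_prod _ mI.aemeasurable] at hI
  have h5 := ae_lt_top mI.lintegral_prod_right' hI
  have h6 : ∀ᵐ V ∂P, ∀ᵐ s ∂μ, fibK A (Function.update V 0 s) = 0 := by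
    filter_upwards [h4, h5] with V e1 e2
    have sΦ : StronglyMeasurable fun s => fibK A (Function.update V 0 s) :=
      sφ.comp_measurable (hR.measurable.comp measurable_prodMk_left)
    have hint : Integrable (fun s => fibK A (Function.update V 0 s)) μ := by
      have hsq : Integrable (fun s => ‖fibK A (Function.update V 0 s)‖ ^ 2) μ := by
        refine ⟨(sΦ.norm.pow 2).aestronglyMeasurable, ?_⟩
        rw [hasFiniteIntegral_iff_ofReal (Eventually.of_forall fun s => by positivity)]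
        exact e2
      have h7 : Integrable (fun s => 1 + ‖fibK A (Function.update V 0 s)‖ ^ 2) μ :=
        (integrable_const 1).add hsq
      refine h7.mono' sΦ.aestronglyMeasurable (Eventually.of_forall fun s => ?_)
      nlinarith [sq_nonneg (‖fibK A (Function.update V 0 s)‖ - 1),
        sq_nonneg (‖fibK A (Function.update V 0 s)‖)]
    refine orth_zero hint ?_
    filter_upwards [e1] with s e3
    filter_upwards [e3] with s' e4
    simpa [Function.update_idem] using e4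
  -- back to `P`
  have hms : MeasurableSet {V : Cfg d | fibK A V = 0} := by
    have : {V : Cfg d | fibK A V = 0} = {V | ENNReal.ofReal (‖fibK A V‖ ^ 2) = 0} := by
      ext V
      simp only [Set.mem_ofPred_eq, ENNReal.ofReal_eq_zero]
      constructor
      · intro h; rw [h]; simp
      · intro h
        have : ‖fibK A V‖ ^ 2 = 0 := le_antisymm h (by positivity)
        simpa using this
    rw [this]
    exact measurableSet_eq_fun (meas_sq sφ) measurable_const
  have h7 : ∀ᵐ p ∂(P.prod μ), fibK A (Function.update p.1 0 p.2) = 0 := by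
    have hms' : MeasurableSet {p : Cfg d × ℝ | fibK A (Function.update p.1 0 p.2) = 0} :=
      hR.measurable hms
    exact (Measure.ae_prod_iff_ae_ae hms').2 h6
  have h8 : P {V : Cfg d | fibK A V = 0}ᶜ = 0 := by
    rw [← hR.measure_preimage hms.compl.nullMeasurableSet]
    rw [ae_iff] at h7
    exact h7
  rw [ae_iff]
  exact h8

/-- **Vanishing of the ballistic weight** (energy form). -/
theorem weight_zero (hP : ShiftInv P) (hR : Resamp P μ) [NullSingletonClass μ] (i : Fin d) :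
    Tendsto (fun η : ℝ => ENNReal.ofReal (η ^ 3) *
      ∫⁻ V, (∫⁻ E : ℝ, ENNReal.ofReal (‖yv i V (zz η E)‖ ^ 2)) ∂P) (𝓝[>] 0) (𝓝 0) := by
  obtain ⟨u, A, he, hu, hA, hT, hS⟩ := decomposition hP i
  have h0 := phi_zero (μ := μ) hP hR i he hu hA hT hS
  have hnn : Tendsto (fun η => nn hP η u) (𝓝[>] 0) (𝓝 0) := by
    refine squeeze_zero (fun η => nn_nonneg hP η u) (fun η => ?_) hu
    have := nn_nonneg hP (-η) u
    unfold NN
    linarith
  have h1 : Tendsto (fun η => ENNReal.ofReal (nn hP η u)) (𝓝[>] 0) (𝓝 0) := by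
    have := (ENNReal.continuous_ofReal.tendsto 0).comp hnn
    rw [ENNReal.ofReal_zero] at this
    exact this
  refine h1.congr' ?_
  filter_upwards [self_mem_nhdsWithin] with η hη
  rw [← lintegral_rv hP i he hA hη]
  congr 1
  refine lintegral_congr_ae ?_
  filter_upwards [h0] with V hV
  simp only [hV, rv, map_zero, sub_zero]

end Pool.Agent.Helper54.Bal
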