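import Pool.Agent.Helper54_Ballistic.Moment

/-!
# Existence, uniqueness and continuity in the potential of the Schrödinger evolution
-/

set_option autoImplicit false
set_option linter.unusedSectionVars false

open scoped InnerProductSpace ComplexConjugate Topology ENNReal
open MeasureTheory Filter

noncomputable section

namespace Pool.Agent.Helper54.Bal

open Pool.Agent.Anderson

variable {d : ℕ}

theorem continuous_U0_gen {Y : Type*} [TopologicalSpace Y] {W : Y → Site d → ℝ}
    (hW : Continuous W) {g : Y → ℝ} (hg : Continuous g) {f : Y → L2 d} (hf : Continuous f) :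
    Continuous fun y => U0 (W y) (g y) (f y) := by
  rw [continuous_iff_continuousAt]
  intro t0
  rw [ContinuousAt, tendsto_iff_norm_sub_tendsto_zero]
  have key : ∀ t, ‖U0 (W t) (g t) (f t) - U0 (W t0) (g t0) (f t0)‖ ≤
      ‖f t - f t0‖ + ‖U0 (W t) (g t) (f t0) - U0 (W t0) (g t0) (f t0)‖ := by
    intro t
    have e : U0 (W t) (g t) (f t) - U0 (W t0) (g t0) (f t0) =
        U0 (W t) (g t) (f t - f t0) + (U0 (W t) (g t) (f t0) - U0 (W t0) (g t0) (f t0)) := by
      rw [map_sub]; abel
    rw [e]
    refine (norm_add_le _ _).trans ?_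
    rw [U0_norm]
  refine squeeze_zero (fun _ => norm_nonneg _) key ?_
  have t1 := tendsto_iff_norm_sub_tendsto_zero.1 (hf.tendsto t0)
  have t2 : Tendsto (fun t => U0 (W t) (g t) (f t0)) (𝓝 t0) (𝓝 (U0 (W t0) (g t0) (f t0))) := by
    unfold U0
    apply tendsto_mulOp
    intro x
    have hx : Continuous fun t => W t x := (continuous_apply x).comp hW
    have : Continuous fun t => Complex.exp (-Complex.I * (g t : ℂ) * W t x) := by fun_prop
    exact this.tendsto t0
  have t3 := tendsto_iff_norm_sub_tendsto_zero.1 t2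
  have t4 := t1.add t3
  rw [add_zero] at t4
  exact t4

/-- the generator in the interaction picture -/
def BB (V : Site d → ℝ) (s : ℝ) (f : L2 d) : L2 d := (-Complex.I) • U0 V (-s) (Lap d (U0 V s f))

theorem norm_BB (V : Site d → ℝ) (s : ℝ) (f : L2 d) : ‖BB V s f‖ ≤ ‖Lap d‖ * ‖f‖ := by
  unfold BB
  rw [norm_smul, norm_neg, Complex.norm_I, one_mul, U0_norm]
  refine (ContinuousLinearMap.le_opNorm _ _).trans ?_
  rw [U0_norm]

theorem BB_sub (V : Site d → ℝ) (s : ℝ) (f g : L2 d) : BB V s (f - g) = BB V s f - BB V s g := by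
  unfold BB
  rw [map_sub, map_sub, map_sub, smul_sub]

theorem continuous_BB {Y : Type*} [TopologicalSpace Y] {W : Y → Site d → ℝ}
    (hW : Continuous W) {g : Y → ℝ} (hg : Continuous g) {f : Y → L2 d} (hf : Continuous f) :
    Continuous fun y => BB (W y) (g y) (f y) := by
  have h1 : Continuous fun y => Lap d (U0 (W y) (g y) (f y)) :=
    (Lap d).continuous.comp (continuous_U0_gen hW hg hf)
  have h2 : Continuous fun y => U0 (W y) (-(g y)) (Lap d (U0 (W y) (g y) (f y))) :=
    continuous_U0_gen hW hg.neg h1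
  have h3 : Continuous fun y =>
    (-Complex.I) • U0 (W y) (-(g y)) (Lap d (U0 (W y) (g y) (f y))) := h2.const_smul (-Complex.I)
  exact h3

/-- the terms of the Dyson series -/
def dy (V : Site d → ℝ) : ℕ → ℝ → L2 d
  | 0, _ => del 0
  | n + 1, t => ∫ s in (0:ℝ)..t, BB V s (dy V n s)

theorem continuous_dy (V : Site d → ℝ) (n : ℕ) : Continuous (dy V n) := by
  induction n with
  | zero => exact continuous_const
  | succ n ih =>
    have h1 : Continuous fun s => BB V s (dy V n s) :=
      continuous_BB continuous_const continuous_id ih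
    exact intervalIntegral.continuous_primitive (fun a b => h1.intervalIntegrable a b) 0

theorem continuous_BBdy (V : Site d → ℝ) (n : ℕ) : Continuous fun s => BB V s (dy V n s) :=
  continuous_BB continuous_const continuous_id (continuous_dy V n)

theorem hasDerivAt_dy (V : Site d → ℝ) (n : ℕ) (t : ℝ) :
    HasDerivAt (dy V (n + 1)) (BB V t (dy V n t)) t := by
  have h1 := continuous_BBdy V n
  exact intervalIntegral.integral_hasDerivAt_right (h1.intervalIntegrable 0 t)
    (h1.stronglyMeasurableAtFilter _ _) h1.continuousAt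

theorem norm_dy (V : Site d → ℝ) (n : ℕ) (t : ℝ) :
    ‖dy V n t‖ ≤ (‖Lap d‖ * |t|) ^ n / n.factorial := by
  induction n generalizing t with
  | zero => simp [dy, norm_del]
  | succ n ih =>
    have h1 := continuous_BBdy V n
    have hb : ∀ s, ‖BB V s (dy V n s)‖ ≤ ‖Lap d‖ ^ (n + 1) / n.factorial * |s - 0| ^ n := by
      intro s
      refine (norm_BB V s _).trans ?_
      have := mul_le_mul_of_nonneg_left (ih s) (norm_nonneg (Lap d))
      refine this.trans (le_of_eq ?_)
      rw [sub_zero, mul_pow]
      ring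
    have h2 : ‖dy V (n + 1) t‖ ≤ ∫ s in Set.uIoc 0 t, ‖BB V s (dy V n s)‖ :=
      intervalIntegral.norm_integral_le_integral_norm_uIoc
    have hi : IntegrableOn (fun s : ℝ => ‖Lap d‖ ^ (n + 1) / n.factorial * |s - 0| ^ n)
        (Set.uIoc 0 t) := by
      have hc : Continuous fun s : ℝ => ‖Lap d‖ ^ (n + 1) / n.factorial * |s - 0| ^ n := by
        fun_prop
      exact intervalIntegrable_iff.1 (hc.intervalIntegrable 0 t)
    have h3 : ∫ s in Set.uIoc 0 t, ‖BB V s (dy V n s)‖ ≤
        ∫ s in Set.uIoc 0 t, ‖Lap d‖ ^ (n + 1) / n.factorial * |s - 0| ^ n := by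
      refine setIntegral_mono ?_ hi fun s => hb s
      exact intervalIntegrable_iff.1 (h1.norm.intervalIntegrable 0 t)
    refine (h2.trans h3).trans (le_of_eq ?_)
    rw [integral_const_mul, integral_pow_abs_sub_uIoc, sub_zero, Nat.factorial_succ, mul_pow,
      div_mul_div_comm, Nat.cast_mul, Nat.cast_succ, mul_comm (n.factorial : ℝ)]

theorem summable_bd (d : ℕ) (t : ℝ) :
    Summable fun n : ℕ => (‖Lap d‖ * |t|) ^ n / n.factorial :=
  Real.summable_pow_div_factorial _

/-- the sum of the Dyson series -/
def dys (V : Site d → ℝ) (t : ℝ) : L2 d := ∑' n, dy V n t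

theorem summable_dy (V : Site d → ℝ) (t : ℝ) : Summable fun n => dy V n t :=
  Summable.of_norm_bounded (summable_bd d t) (norm_dy V · t)

theorem BB_tsum (V : Site d → ℝ) (t : ℝ) {g : ℕ → L2 d} (hg : Summable g) :
    BB V t (∑' n, g n) = ∑' n, BB V t (g n) := by
  have h1 : HasSum (fun n => U0 V t (g n)) (U0 V t (∑' n, g n)) := (U0 V t).hasSum hg.hasSum
  have h2 : HasSum (fun n => Lap d (U0 V t (g n))) (Lap d (U0 V t (∑' n, g n))) := (Lap d).hasSum h1
  have h3 : HasSum (fun n => U0 V (-t) (Lap d (U0 V t (g n))))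
    (U0 V (-t) (Lap d (U0 V t (∑' n, g n)))) := (U0 V (-t)).hasSum h2
  have h4 : HasSum (fun n => BB V t (g n)) (BB V t (∑' n, g n)) := h3.const_smul (-Complex.I)
  exact h4.tsum_eq.symm

theorem hasDerivAt_dys_tail (V : Site d → ℝ) (t : ℝ) :
    HasDerivAt (fun s => ∑' n, dy V (n + 1) s) (∑' n, BB V t (dy V n t)) t := by
  set R := |t| + 1 with hR
  have hmem : t ∈ Metric.ball (0 : ℝ) R := by
    rw [Metric.mem_ball, Real.dist_eq, sub_zero]
    linarith
  have hs1 : Summable fun n => dy V (n + 1) t :=
    (summable_nat_add_iff (f := fun n => dy V n t) 1).2 (summable_dy V t)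
  have hb : ∀ (n : ℕ) (y : ℝ), y ∈ Metric.ball (0 : ℝ) R →
      ‖BB V y (dy V n y)‖ ≤ ‖Lap d‖ * ((‖Lap d‖ * |R|) ^ n / n.factorial) := by
    intro n y hy
    refine (norm_BB V y _).trans (mul_le_mul_of_nonneg_left ?_ (norm_nonneg _))
    rw [Metric.mem_ball, Real.dist_eq, sub_zero] at hy
    exact (norm_dy V n y).trans (div_le_div_of_nonneg_right (pow_le_pow_left₀ (by positivity)
      (mul_le_mul_of_nonneg_left (hy.le.trans (le_abs_self R)) (norm_nonneg _)) n)
      (by positivity))
  exact hasDerivAt_tsum_of_isPreconnected ((summable_bd d R).mul_left _) Metric.isOpen_ball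
    (convex_ball _ _).isPreconnected (fun n y _ => hasDerivAt_dy V n y) hb hmem hs1 hmem

theorem hasDerivAt_dys (V : Site d → ℝ) (t : ℝ) : HasDerivAt (dys V) (BB V t (dys V t)) t := by
  have hs := summable_dy V
  have e1 : dys V = fun s => dy V 0 s + ∑' n, dy V (n + 1) s := by
    funext s
    unfold dys
    exact (hs s).tsum_eq_zero_add
  have e2 : BB V t (dys V t) = 0 + ∑' n, BB V t (dy V n t) := by
    rw [zero_add]
    exact BB_tsum V t (hs t)
  rw [e2, e1]
  exact (hasDerivAt_const t (del 0)).add (hasDerivAt_dys_tail V t)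

/-- the evolution -/
def evol (V : Site d → ℝ) (t : ℝ) : L2 d := U0 V t (dys V t)

theorem isEvolution_evol (V : Site d → ℝ) : IsEvolution V (evol V) := by
  have hc : Continuous (dys V) :=
    continuous_iff_continuousAt.2 fun t => (hasDerivAt_dys V t).continuousAt
  refine ⟨continuous_U0 V hc continuous_id, ?_, ?_⟩
  · unfold evol
    rw [U0_zero]
    unfold dys
    rw [(summable_dy V 0).tsum_eq_zero_add]
    simp [dy]
  · intro t x
    have h1 : HasDerivAt (fun s => dys V s x) (BB V t (dys V t) x) t := by
      have h0 := ((coord x).restrictScalars ℝ).hasFDerivAt.comp_hasDerivAt t (hasDerivAt_dys V t)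
      have e : (fun s => dys V s x) = fun s => coord x (dys V s) := by
        funext s; rw [coord_apply]
      rw [e, ← coord_apply x]
      exact h0
    have h2 : HasDerivAt (fun s : ℝ => Complex.exp (-Complex.I * (s : ℂ) * V x))
        (Complex.exp (-Complex.I * (t : ℂ) * V x) * (-Complex.I * V x)) t := by
      have h3 : HasDerivAt (fun s : ℝ => -Complex.I * (s : ℂ) * V x) (-Complex.I * V x) t := by
        have h4 := (((hasDerivAt_id t).ofReal_comp).const_mul (-Complex.I)).mul_const (V x : ℂ)
        simpa using h4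
      exact h3.cexp
    have h6 := h2.mul h1
    have e : -Complex.I * (lap (evol V t) x + (V x : ℂ) * evol V t x) =
        Complex.exp (-Complex.I * (t : ℂ) * V x) * (-Complex.I * V x) * dys V t x +
        Complex.exp (-Complex.I * (t : ℂ) * V x) * BB V t (dys V t) x := by
      unfold BB evol
      rw [lp.coeFn_smul, Pi.smul_apply, U0_apply V (-t), Lap_apply, smul_eq_mul, U0_apply V t]
      have hh : Complex.exp (-Complex.I * (t : ℂ) * V x) *
          Complex.exp (-Complex.I * ((-t : ℝ) : ℂ) * V x) = 1 := by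
        rw [← Complex.exp_add]
        have : -Complex.I * t * V x + -Complex.I * ((-t : ℝ) : ℂ) * V x = 0 := by push_cast; ring
        rw [this, Complex.exp_zero]
      linear_combination (Complex.I * lap (U0 V t (dys V t)) x) * hh
    rw [e]
    exact h6

theorem evol_unique {V : Site d → ℝ} {ψ φ : ℝ → L2 d} (hψ : IsEvolution V ψ)
    (hφ : IsEvolution V φ) : φ = ψ := by
  have hd : ∀ {χ : ℝ → L2 d}, IsEvolution V χ → ∀ t,
      HasDerivAt (cc V χ) (BB V t (cc V χ t)) t := by
    intro χ hχ t
    have h1 := hasDerivAt_cc hχ t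
    have e : BB V t (cc V χ t) = bb V χ t := by
      unfold BB cc bb
      rw [U0_U0]
    rw [e]
    exact h1
  have h1 : cc V φ = cc V ψ := by
    refine ODE_solution_unique_univ (v := fun t f => BB V t f) (K := ‖Lap d‖₊)
      (s := fun _ => Set.univ) (t₀ := 0) (fun t => ?_) (fun t => ⟨hd hφ t, Set.mem_univ _⟩)
      (fun t => ⟨hd hψ t, Set.mem_univ _⟩) ?_
    · apply LipschitzWith.lipschitzOnWith
      apply LipschitzWith.of_dist_le_mul
      intro f g
      rw [dist_eq_norm, dist_eq_norm, ← BB_sub]
      exact norm_BB V t _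
    · unfold cc
      rw [hφ.2.1, hψ.2.1]
  funext t
  have h2 := congrFun h1 t
  unfold cc at h2
  have h3 := congrArg (U0 V t) h2
  rwa [U0_U0, U0_U0] at h3

theorem continuous_dy_pot (n : ℕ) (t : ℝ) : Continuous fun V : Site d → ℝ => dy V n t := by
  induction n generalizing t with
  | zero => exact continuous_const
  | succ n ih =>
    have hb : ∀ (V : Site d → ℝ) (s : ℝ), s ∈ Set.uIoc 0 t → ‖BB V s (dy V n s)‖ ≤
        ‖Lap d‖ * ((‖Lap d‖ * |t|) ^ n / n.factorial) := by
      intro V s hs
      refine (norm_BB V s _).trans ?_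
      gcongr
      have hst : |s| ≤ |t| := by
        have := Set.abs_sub_left_of_mem_uIcc (Set.uIoc_subset_uIcc hs)
        simpa using this
      exact (norm_dy V n s).trans (div_le_div_of_nonneg_right (pow_le_pow_left₀ (by positivity)
        (mul_le_mul_of_nonneg_left hst (norm_nonneg _)) n) (by positivity))
    refine intervalIntegral.continuous_of_dominated_interval (μ := volume)
      (F := fun (V : Site d → ℝ) s => BB V s (dy V n s))
      (bound := fun _ => ‖Lap d‖ * ((‖Lap d‖ * |t|) ^ n / n.factorial))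
      (fun V => (continuous_BBdy V n).aestronglyMeasurable)
      (fun V => Eventually.of_forall fun s hs => hb V s hs)
      (intervalIntegrable_const) (Eventually.of_forall fun s _ => ?_)
    exact continuous_BB continuous_id continuous_const (ih s)

theorem continuous_evol_pot (t : ℝ) : Continuous fun V : Site d → ℝ => evol V t := by
  apply continuous_U0_gen continuous_id continuous_const
  unfold dys
  exact continuous_tsum (fun n => continuous_dy_pot n t) (summable_bd d t) fun n V => norm_dy V n t

end Pool.Agent.Helper54.Bal
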