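import Pool.Agent.Helper54_Ballistic.Ell

/-!
# The deterministic estimate for a pair of potentials differing at the origin
-/

set_option autoImplicit false
set_option linter.unusedSectionVars false

open scoped InnerProductSpace ComplexConjugate Topology ENNReal
open MeasureTheory Filter

noncomputable section

namespace Pool.Agent.Helper54.Bal

open Pool.Agent.Anderson

variable {d : ℕ}

/-- `G W_i G δ₀` -/
def yv (i : Fin d) (V : Site d → ℝ) (z : ℂ) : L2 d := G V z (Wop i (G V z (del 0)))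

theorem yv_apply (i : Fin d) {V : Site d → ℝ} {z : ℂ} (hz : z.im ≠ 0) (x : Site d) :
    yv i V z x = (x i : ℂ) * G V z (del 0) x := X_G hz i x

theorem yv_update (i : Fin d) {V : Site d → ℝ} {z : ℂ} (hz : z.im ≠ 0) (s : ℝ) :
    yv i (Function.update V 0 s) z = mf V s z • yv i V z := by
  ext x
  rw [yv_apply i hz, lp.coeFn_smul, Pi.smul_apply, yv_apply i hz, G_update_del hz, lp.coeFn_smul,
    Pi.smul_apply, smul_eq_mul, smul_eq_mul]
  ring

theorem norm_yv_le (i : Fin d) {V : Site d → ℝ} {z : ℂ} (hz : z.im ≠ 0) :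
    ‖yv i V z‖ ^ 2 ≤ 4 / z.im ^ 2 * ‖G V z (del 0)‖ ^ 2 := by
  have h1 := (isRes_G V).norm_le' hz (Wop i (G V z (del 0)))
  have h2 := norm_Wop_le i (G V z (del 0))
  have h3 : ‖yv i V z‖ ≤ |z.im|⁻¹ * (2 * ‖G V z (del 0)‖) :=
    h1.trans (by gcongr)
  calc _ ≤ (|z.im|⁻¹ * (2 * ‖G V z (del 0)‖)) ^ 2 := by gcongr
    _ = _ := by rw [mul_pow, mul_pow, inv_pow, sq_abs]; ring

theorem cont_yv (i : Fin d) (V : Site d → ℝ) {η : ℝ} (hη : η ≠ 0) :
    Continuous fun E : ℝ => yv i V (zz η E) := by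
  rw [continuous_iff_continuousAt]
  intro E
  have h1 : ContinuousAt (G V) (zz η E) := (isRes_G V).continuousAt (by simpa using hη)
  have h2 : ContinuousAt (fun z => yv i V z) (zz η E) :=
    h1.clm_apply ((Wop i).continuous.continuousAt.comp (h1.clm_apply continuousAt_const))
  exact ContinuousAt.comp (f := zz η) (g := fun z => yv i V z) h2 (continuous_zz η).continuousAt

theorem integrable_yv (i : Fin d) (V : Site d → ℝ) {η : ℝ} (hη : 0 < η) :
    Integrable fun E : ℝ => ‖yv i V (zz η E)‖ ^ 2 := by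
  refine (((isRes_G V).integrable_sq hη (del 0)).const_mul (4 / η ^ 2)).mono'
    ((cont_yv i V hη.ne').norm.pow 2).aestronglyMeasurable (Eventually.of_forall fun E => ?_)
  rw [Real.norm_of_nonneg (by positivity)]
  have := norm_yv_le i (V := V) (z := zz η E) (by simpa using hη.ne')
  rwa [zz_im] at this

theorem integrable_mul_of_sq {a b : ℝ → ℝ} (ha : AEStronglyMeasurable a volume)
    (hb : AEStronglyMeasurable b volume) (ia : Integrable fun E => a E ^ 2)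
    (ib : Integrable fun E => b E ^ 2) : Integrable fun E => a E * b E := by
  refine (ia.add ib).mono' (ha.mul hb) (Eventually.of_forall fun E => ?_)
  simp only [Pi.add_apply]
  rw [Real.norm_eq_abs, abs_mul]
  nlinarith [sq_nonneg (|a E| - |b E|), sq_abs (a E), sq_abs (b E), sq_nonneg (a E),
    sq_nonneg (b E)]

theorem integrable_inner_of_sq {a b : ℝ → L2 d} (ha : Continuous a) (hb : Continuous b)
    (ia : Integrable fun E => ‖a E‖ ^ 2) (ib : Integrable fun E => ‖b E‖ ^ 2) :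
    Integrable fun E => ⟪a E, b E⟫_ℂ := by
  refine (integrable_mul_of_sq ha.norm.aestronglyMeasurable hb.norm.aestronglyMeasurable ia
    ib).mono' (ha.inner hb).aestronglyMeasurable (Eventually.of_forall fun E => ?_)
  exact norm_inner_le_norm _ _

/-- the remainder `G W G δ₀ - G² f` -/
def rv (i : Fin d) (V : Site d → ℝ) (f : L2 d) (z : ℂ) : L2 d := yv i V z - G V z (G V z f)

theorem cont_rv (i : Fin d) (V : Site d → ℝ) (f : L2 d) {η : ℝ} (hη : η ≠ 0) :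
    Continuous fun E : ℝ => rv i V f (zz η E) :=
  (cont_yv i V hη).sub ((isRes_G V).cont_line2 hη f)

theorem integrable_GG (V : Site d → ℝ) (f : L2 d) {η : ℝ} (hη : 0 < η) :
    Integrable fun E : ℝ => ‖G V (zz η E) (G V (zz η E) f)‖ ^ 2 := by
  refine (((isRes_G V).integrable_sq hη f).const_mul (η ^ 2)⁻¹).mono'
    (((isRes_G V).cont_line2 hη.ne' f).norm.pow 2).aestronglyMeasurable
    (Eventually.of_forall fun E => ?_)
  rw [Real.norm_of_nonneg (by positivity)]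
  have := (isRes_G V).norm_sq_sq_le (z := zz η E) (by simpa using hη.ne') f
  rwa [zz_im] at this

theorem integrable_rv (i : Fin d) (V : Site d → ℝ) (f : L2 d) {η : ℝ} (hη : 0 < η) :
    Integrable fun E : ℝ => ‖rv i V f (zz η E)‖ ^ 2 := by
  refine (((integrable_yv i V hη).const_mul 2).add ((integrable_GG V f hη).const_mul 2)).mono'
    ((cont_rv i V f hη.ne').norm.pow 2).aestronglyMeasurable (Eventually.of_forall fun E => ?_)
  rw [Real.norm_of_nonneg (by positivity)]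
  simp only [Pi.add_apply]
  unfold rv
  set a := yv i V (zz η E)
  set b := G V (zz η E) (G V (zz η E) f)
  have := norm_sub_le a b
  have h2 : ‖a - b‖ ^ 2 ≤ (‖a‖ + ‖b‖) ^ 2 := by gcongr
  nlinarith [sq_nonneg (‖a‖ - ‖b‖)]

/-- `(Δ + V) δ₀` -/
def Hd (V : Site d → ℝ) : L2 d := Lap d (del 0) + (V 0 : ℂ) • del 0

theorem z_G_del {V : Site d → ℝ} {z : ℂ} (hz : z.im ≠ 0) :
    z • G V z (del 0) = G V z (Hd V) - del 0 := by
  have h : (del 0 : L2 d) = G V z (Hd V - z • del 0) := by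
    apply G_unique hz
    intro x
    unfold Hd
    rw [lp.coeFn_sub, Pi.sub_apply, lp.coeFn_add, Pi.add_apply, Lap_apply, lp.coeFn_smul,
      Pi.smul_apply, lp.coeFn_smul, Pi.smul_apply, smul_eq_mul, smul_eq_mul, del_apply]
    by_cases hx : x = 0
    · subst hx; rw [if_pos rfl]; ring
    · rw [if_neg hx]; ring
  rw [map_sub, map_smul] at h
  nth_rewrite 2 [h]
  abel

theorem sq_G_del_le {V : Site d → ℝ} {z : ℂ} (hz : z.im ≠ 0) :
    ‖z‖ ^ 2 * ‖G V z (del 0)‖ ^ 2 ≤ 2 * ‖G V z (Hd V)‖ ^ 2 + 2 := by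
  have h1 : ‖z‖ ^ 2 * ‖G V z (del 0)‖ ^ 2 = ‖G V z (Hd V) - del 0‖ ^ 2 := by
    rw [← z_G_del hz, norm_smul, mul_pow]
  rw [h1]
  have h2 := norm_sub_le (G V z (Hd V)) (del 0)
  rw [norm_del] at h2
  have h3 : ‖G V z (Hd V) - del 0‖ ^ 2 ≤ (‖G V z (Hd V)‖ + 1) ^ 2 := by gcongr
  nlinarith [sq_nonneg (‖G V z (Hd V)‖ - 1)]

/-- pointwise tail bound -/
theorem tail_pt {V : Site d → ℝ} {η R E : ℝ} (hη : 0 < η) (hR : 1 ≤ R) (hE : R ≤ |E|) :
    ‖G V (zz η E) (del 0)‖ ^ 2 ≤ 2 / R ^ 2 * ‖G V (zz η E) (Hd V)‖ ^ 2 + 4 * (1 + E ^ 2)⁻¹ := by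
  have h := sq_G_del_le (V := V) (z := zz η E) (by simpa using hη.ne')
  rw [normSq_zz] at h
  have hE2 : R ^ 2 ≤ E ^ 2 := by rw [← sq_abs E]; gcongr
  have hR2 : 1 ≤ R ^ 2 := one_le_pow₀ hR
  set a := ‖G V (zz η E) (del 0)‖ ^ 2 with ha
  set b := ‖G V (zz η E) (Hd V)‖ ^ 2 with hb
  have ha0 : 0 ≤ a := sq_nonneg _
  have hb0 : 0 ≤ b := sq_nonneg _
  have h1 : E ^ 2 * a ≤ 2 * b + 2 := by
    linarith only [h, mul_nonneg (sq_nonneg η) ha0]
  have hE0 : 0 < E ^ 2 := by linarith only [hR2, hE2]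
  have h2 : a ≤ (2 * b + 2) / E ^ 2 := by rw [le_div_iff₀ hE0]; linarith only [h1]
  have h3 : (2 * b + 2) / E ^ 2 = 2 * b / E ^ 2 + 2 / E ^ 2 := by ring
  have h4 : 2 * b / E ^ 2 ≤ 2 / R ^ 2 * b := by
    rw [div_mul_eq_mul_div]
    gcongr
  have h5 : 2 / E ^ 2 ≤ 4 * (1 + E ^ 2)⁻¹ := by
    rw [← div_eq_mul_inv, div_le_div_iff₀ hE0 (by positivity)]
    linarith only [hR2, hE2]
  linarith only [h2, h3, h4, h5]

/-- The deterministic pair estimate. -/
theorem pair_bound (i : Fin d) (V : Site d → ℝ) (s : ℝ) (hs : s ≠ V 0) (f f' : L2 d)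
    (hf : star f = f) (hf' : star f' = f') {η κ R : ℝ} (hη : 0 < η) (hκ : 0 < κ)
    (hR : 1 ≤ R)
    (hG : ∀ᵐ E : ℝ, G V (zz η E) (G V (zz η E) f') =
      G (Function.update V 0 s) (zz η E) (G (Function.update V 0 s) (zz η E) f'))
    {ε : ℝ} (hε : η ^ 3 * (∫ E : ℝ, (‖yv i V (zz η E)‖ * ‖rv i (Function.update V 0 s) f' (zz η E)‖
      + ‖rv i V f (zz η E)‖ * ‖yv i (Function.update V 0 s) (zz η E)‖
      + ‖rv i V f (zz η E)‖ * ‖rv i (Function.update V 0 s) f' (zz η E)‖)) ≤ ε) :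
    Real.pi / 2 * ‖⟪f, f'⟫_ℂ‖ ≤ ε + κ / (2 * |s - V 0|) * ε + 4 * R / κ +
      2 * (8 * Real.pi * η + 2 * Real.pi / R ^ 2 *
        (‖Hd V‖ ^ 2 + ‖Hd (Function.update V 0 s)‖ ^ 2)) := by
  set V' := Function.update V 0 s with hV'
  have hz : ∀ E : ℝ, (zz η E).im ≠ 0 := fun E => by simpa using hη.ne'
  set y : ℝ → L2 d := fun E => yv i V (zz η E) with hy
  set y' : ℝ → L2 d := fun E => yv i V' (zz η E) with hy'
  set r : ℝ → L2 d := fun E => rv i V f (zz η E) with hr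
  set r' : ℝ → L2 d := fun E => rv i V' f' (zz η E) with hr'
  set g : ℝ → ℝ := fun E => ‖G V (zz η E) (del 0)‖ with hg
  set g' : ℝ → ℝ := fun E => ‖G V' (zz η E) (del 0)‖ with hg'
  have cy : Continuous y := cont_yv i V hη.ne'
  have cy' : Continuous y' := cont_yv i V' hη.ne'
  have cr : Continuous r := cont_rv i V f hη.ne'
  have cr' : Continuous r' := cont_rv i V' f' hη.ne'
  have iy : Integrable fun E => ‖y E‖ ^ 2 := integrable_yv i V hη
  have iy' : Integrable fun E => ‖y' E‖ ^ 2 := integrable_yv i V' hη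
  have ir : Integrable fun E => ‖r E‖ ^ 2 := integrable_rv i V f hη
  have ir' : Integrable fun E => ‖r' E‖ ^ 2 := integrable_rv i V' f' hη
  have cg : Continuous g := ((isRes_G V).cont_line hη.ne' (del 0)).norm
  have cg' : Continuous g' := ((isRes_G V').cont_line hη.ne' (del 0)).norm
  have ig : Integrable fun E => g E ^ 2 := (isRes_G V).integrable_sq hη (del 0)
  have ig' : Integrable fun E => g' E ^ 2 := (isRes_G V').integrable_sq hη (del 0)
  have hym : ∀ E, y' E = mf V s (zz η E) • y E := fun E => yv_update i (hz E) s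
  set err : ℝ → ℝ := fun E => ‖y E‖ * ‖r' E‖ + ‖r E‖ * ‖y' E‖ + ‖r E‖ * ‖r' E‖ with herr
  have nm : ∀ {a b : ℝ → L2 d}, Continuous a → Continuous b → (Integrable fun E => ‖a E‖ ^ 2) →
      (Integrable fun E => ‖b E‖ ^ 2) → Integrable fun E => ‖a E‖ * ‖b E‖ := by
    intro a b ca cb ia ib
    exact integrable_mul_of_sq ca.norm.aestronglyMeasurable cb.norm.aestronglyMeasurable ia ib
  have ierr : Integrable err := ((nm cy cr' iy ir').add (nm cr cy' ir iy')).add (nm cr cr' ir ir')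
  -- the main identity
  have hmain : ∫ E : ℝ, ⟪y E, y' E⟫_ℂ = (Real.pi / (2 * η ^ 3) : ℝ) * ⟪f, f'⟫_ℂ +
      ∫ E : ℝ, (⟪y E, r' E⟫_ℂ + ⟪r E, y' E⟫_ℂ - ⟪r E, r' E⟫_ℂ) := by
    rw [← (isRes_G V).integral_sq_sq hη f f']
    have i1 : Integrable fun E => ⟪y E, r' E⟫_ℂ + ⟪r E, y' E⟫_ℂ :=
      (integrable_inner_of_sq cy cr' iy ir').add (integrable_inner_of_sq cr cy' ir iy')
    have i2 : Integrable fun E => ⟪y E, r' E⟫_ℂ + ⟪r E, y' E⟫_ℂ - ⟪r E, r' E⟫_ℂ :=
      i1.sub (integrable_inner_of_sq cr cr' ir ir')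
    rw [← integral_add ((isRes_G V).integrable_sq_sq hη f f') i2]
    refine integral_congr_ae ?_
    filter_upwards [hG] with E hE
    have e1 : G V (zz η E) (G V (zz η E) f) = y E - r E := by
      simp only [hy, hr, rv]; abel
    have e2 : G V (zz η E) (G V (zz η E) f') = y' E - r' E := by
      rw [hE]; simp only [hy', hr', rv]; abel
    rw [e1, e2]
    simp only [inner_sub_left, inner_sub_right]
    ring
  have herrb : ‖∫ E : ℝ, (⟪y E, r' E⟫_ℂ + ⟪r E, y' E⟫_ℂ - ⟪r E, r' E⟫_ℂ)‖ ≤ ∫ E, err E := by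
    refine (norm_integral_le_integral_norm _).trans ?_
    refine integral_mono_of_nonneg (Eventually.of_forall fun E => norm_nonneg _) ierr
      (Eventually.of_forall fun E => ?_)
    refine (norm_sub_le _ _).trans ?_
    refine add_le_add ((norm_add_le _ _).trans (add_le_add ?_ ?_)) ?_ <;>
      exact norm_inner_le_norm _ _
  -- the inner product of real vectors is real
  have hreal : (⟪f, f'⟫_ℂ).im = 0 := by
    have h1 : ⟪star f, star f'⟫_ℂ = conj ⟪f, f'⟫_ℂ := by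
      rw [lp.inner_eq_tsum, lp.inner_eq_tsum, Complex.conj_tsum]
      apply tsum_congr
      intro x
      rw [star_apply, star_apply, RCLike.inner_apply, RCLike.inner_apply, map_mul]
    rw [hf, hf'] at h1
    exact Complex.conj_eq_iff_im.1 h1.symm
  -- imaginary part
  set Q : ℝ := ∫ E : ℝ, η * g E ^ 2 * ‖y' E‖ ^ 2 with hQ
  have iQ : Integrable fun E : ℝ => η * g E ^ 2 * ‖y' E‖ ^ 2 := by
    refine (iy'.const_mul (η⁻¹)).mono' ?_ (Eventually.of_forall fun E => ?_)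
    · exact ((cg.pow 2).const_smul η |>.mul (cy'.norm.pow 2)).aestronglyMeasurable
    · rw [Real.norm_of_nonneg (by positivity)]
      have h1 := (isRes_G V).norm_le' (hz E) (del (0 : Site d))
      rw [zz_im, abs_of_pos hη, norm_del, mul_one] at h1
      have h2 : g E ^ 2 ≤ (η⁻¹) ^ 2 := by
        have : g E ≤ η⁻¹ := h1
        have h0 : 0 ≤ g E := norm_nonneg _
        gcongr
      have h3 : η * g E ^ 2 ≤ η⁻¹ := by
        calc η * g E ^ 2 ≤ η * (η⁻¹) ^ 2 := by gcongr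
          _ = η⁻¹ := by field_simp
      gcongr
  have hIm : (∫ E : ℝ, ⟪y E, y' E⟫_ℂ).im = -(s - V 0) * Q := by
    have h1 : (∫ E : ℝ, ⟪y E, y' E⟫_ℂ).im = ∫ E : ℝ, (⟪y E, y' E⟫_ℂ).im :=
      (integral_im (integrable_inner_of_sq cy cy' iy iy')).symm
    rw [h1, hQ, ← integral_const_mul]
    refine integral_congr_ae (Eventually.of_forall fun E => ?_)
    simp only
    rw [hym E, inner_smul_right, inner_self_eq_norm_sq_to_K, norm_smul]
    have h2 : ((‖y E‖ : ℂ) ^ 2) = ((‖y E‖ ^ 2 : ℝ) : ℂ) := by push_cast; rfl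
    have h3 : ((algebraMap ℝ ℂ) ‖y E‖ : ℂ) ^ 2 = ((‖y E‖ ^ 2 : ℝ) : ℂ) := h2
    rw [h3, Complex.im_mul_ofReal, im_mf (hz E), zz_im]
    simp only [hg]
    ring
  have hQ0 : 0 ≤ Q := integral_nonneg fun E => by positivity
  have ht : 0 < |s - V 0| := abs_pos.2 (sub_ne_zero.2 hs)
  have hQb : |s - V 0| * Q ≤ ∫ E, err E := by
    have h1 : (∫ E : ℝ, ⟪y E, y' E⟫_ℂ).im =
        (∫ E : ℝ, (⟪y E, r' E⟫_ℂ + ⟪r E, y' E⟫_ℂ - ⟪r E, r' E⟫_ℂ)).im := by
      rw [hmain, Complex.add_im, Complex.mul_im, Complex.ofReal_re, Complex.ofReal_im, hreal]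
      simp
    have h2 : |(∫ E : ℝ, ⟪y E, y' E⟫_ℂ).im| ≤ ∫ E, err E := by
      rw [h1]
      exact (Complex.abs_im_le_norm _).trans herrb
    rw [hIm, neg_mul, abs_neg, abs_mul, abs_of_nonneg hQ0] at h2
    exact h2
  -- bound for the product
  have hprod : ∫ E : ℝ, ‖y E‖ * ‖y' E‖ ≤ κ / 2 * Q + 4 * R / κ / η ^ 3 +
      2 / η ^ 3 * (8 * Real.pi * η + 2 * Real.pi / R ^ 2 * (‖Hd V‖ ^ 2 + ‖Hd V'‖ ^ 2)) := by
    set T : ℝ → ℝ := fun E => 2 / η ^ 2 * (2 / R ^ 2 * (‖G V (zz η E) (Hd V)‖ ^ 2 +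
      ‖G V' (zz η E) (Hd V')‖ ^ 2) + 8 * (1 + E ^ 2)⁻¹) with hT
    have iT : Integrable T := by
      refine Integrable.const_mul ?_ _
      refine Integrable.add ?_ (integrable_inv_one_add_sq.const_mul 8)
      exact (((isRes_G V).integrable_sq hη (Hd V)).add
        ((isRes_G V').integrable_sq hη (Hd V'))).const_mul _
    have intT : ∫ E, T E = 2 / η ^ 3 * (8 * Real.pi * η + 2 * Real.pi / R ^ 2 *
        (‖Hd V‖ ^ 2 + ‖Hd V'‖ ^ 2)) := by
      have i1 : Integrable fun E : ℝ => ‖G V (zz η E) (Hd V)‖ ^ 2 +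
          ‖G V' (zz η E) (Hd V')‖ ^ 2 :=
        ((isRes_G V).integrable_sq hη (Hd V)).add ((isRes_G V').integrable_sq hη (Hd V'))
      rw [hT, integral_const_mul, integral_add (i1.const_mul _)
        (integrable_inv_one_add_sq.const_mul 8), integral_const_mul, integral_const_mul,
        integral_add ((isRes_G V).integrable_sq hη (Hd V))
          ((isRes_G V').integrable_sq hη (Hd V')), (isRes_G V).integral_sq hη,
        (isRes_G V').integral_sq hη, integral_univ_inv_one_add_sq]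
      field_simp
      ring
    set I : ℝ → ℝ := (Set.Icc (-R) R).indicator (fun _ => 2 / κ / η ^ 3) with hI
    have iI : Integrable I := by
      refine (integrable_indicator_iff measurableSet_Icc).2 ?_
      exact integrableOn_const (by simp)
    have intI : ∫ E, I E = 4 * R / κ / η ^ 3 := by
      rw [hI, integral_indicator measurableSet_Icc, setIntegral_const, smul_eq_mul,
        Measure.real, Real.volume_Icc, ENNReal.toReal_ofReal (by linarith only [hR])]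
      ring
    have hpt : ∀ E : ℝ, ‖y E‖ * ‖y' E‖ ≤ κ / 2 * (η * g E ^ 2 * ‖y' E‖ ^ 2) + I E + T E := by
      intro E
      have hy2 : ‖y E‖ ^ 2 ≤ 4 / η ^ 2 * g E ^ 2 := by
        have := norm_yv_le i (V := V) (hz E)
        rwa [zz_im] at this
      have hy2' : ‖y' E‖ ^ 2 ≤ 4 / η ^ 2 * g' E ^ 2 := by
        have := norm_yv_le i (V := V') (hz E)
        rwa [zz_im] at this
      have hT0 : 0 ≤ T E := by simp only [hT]; positivity
      by_cases hE : E ∈ Set.Icc (-R) R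
      · have hIE : I E = 2 / κ / η ^ 3 := by rw [hI, Set.indicator_of_mem hE]
        rw [hIE]
        have hgn : 0 ≤ g E := norm_nonneg _
        -- AM-GM
        have h1 : ‖y E‖ ≤ 2 / η * g E := by
          have : ‖y E‖ ^ 2 ≤ (2 / η * g E) ^ 2 := by
            calc _ ≤ _ := hy2
              _ = _ := by ring
          exact (pow_le_pow_iff_left₀ (norm_nonneg _) (by positivity) two_ne_zero).1 this
        have h2 : ‖y E‖ * ‖y' E‖ ≤ 2 / η * g E * ‖y' E‖ := by gcongr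
        have h3 : 2 / η * g E * ‖y' E‖ ≤ κ / 2 * (η * g E ^ 2 * ‖y' E‖ ^ 2) +
            2 / κ / η ^ 3 := by
          have h4 : 0 ≤ (κ * η / 2) * (g E * ‖y' E‖ - 2 / (κ * η ^ 2)) ^ 2 := by positivity
          have h5 : (κ * η / 2) * (g E * ‖y' E‖ - 2 / (κ * η ^ 2)) ^ 2 =
              κ / 2 * (η * g E ^ 2 * ‖y' E‖ ^ 2) - 2 / η * g E * ‖y' E‖ + 2 / κ / η ^ 3 := by
            field_simp
            ring
          linarith only [h4, h5]
        linarith only [h2, h3, hT0]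
      · have hIE : I E = 0 := by rw [hI, Set.indicator_of_notMem hE]
        have hE' : R ≤ |E| := by
          by_contra h
          push Not at h
          rw [abs_lt] at h
          exact hE ⟨h.1.le, h.2.le⟩
        have t1 := tail_pt (V := V) hη hR hE'
        have t2 := tail_pt (V := V') hη hR hE'
        have h1 : ‖y E‖ * ‖y' E‖ ≤ (‖y E‖ ^ 2 + ‖y' E‖ ^ 2) / 2 := by
          nlinarith only [sq_nonneg (‖y E‖ - ‖y' E‖)]
        have h2 : (‖y E‖ ^ 2 + ‖y' E‖ ^ 2) / 2 ≤ 2 / η ^ 2 * (g E ^ 2 + g' E ^ 2) := by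
          have e : 4 / η ^ 2 * g E ^ 2 + 4 / η ^ 2 * g' E ^ 2 =
            2 * (2 / η ^ 2 * (g E ^ 2 + g' E ^ 2)) := by ring
          linarith only [hy2, hy2', e]
        have h3 : 2 / η ^ 2 * (g E ^ 2 + g' E ^ 2) ≤ T E := by
          simp only [hT, hg, hg']
          refine mul_le_mul_of_nonneg_left ?_ (by positivity)
          have e : 2 / R ^ 2 * (‖G V (zz η E) (Hd V)‖ ^ 2 + ‖G V' (zz η E) (Hd V')‖ ^ 2) =
            2 / R ^ 2 * ‖G V (zz η E) (Hd V)‖ ^ 2 + 2 / R ^ 2 * ‖G V' (zz η E) (Hd V')‖ ^ 2 := by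
            ring
          rw [e]
          linarith only [t1, t2]
        rw [hIE]
        have h4 : 0 ≤ κ / 2 * (η * g E ^ 2 * ‖y' E‖ ^ 2) := by positivity
        linarith only [h1, h2, h3, h4]
    have i2 : Integrable fun E : ℝ => κ / 2 * (η * g E ^ 2 * ‖y' E‖ ^ 2) + I E :=
      (iQ.const_mul _).add iI
    calc ∫ E : ℝ, ‖y E‖ * ‖y' E‖
        ≤ ∫ E : ℝ, (κ / 2 * (η * g E ^ 2 * ‖y' E‖ ^ 2) + I E + T E) :=
          integral_mono (nm cy cy' iy iy') (i2.add iT) hpt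
      _ = _ := by
          rw [integral_add i2 iT, integral_add (iQ.const_mul _) iI, integral_const_mul, intI,
            intT]
  -- conclusion
  have hfin : Real.pi / (2 * η ^ 3) * ‖⟪f, f'⟫_ℂ‖ ≤ (∫ E, err E) + ∫ E : ℝ, ‖y E‖ * ‖y' E‖ := by
    have h1 : ((Real.pi / (2 * η ^ 3) : ℝ) : ℂ) * ⟪f, f'⟫_ℂ = (∫ E : ℝ, ⟪y E, y' E⟫_ℂ) -
        ∫ E : ℝ, (⟪y E, r' E⟫_ℂ + ⟪r E, y' E⟫_ℂ - ⟪r E, r' E⟫_ℂ) := by
      rw [hmain]; ring
    have h2 : Real.pi / (2 * η ^ 3) * ‖⟪f, f'⟫_ℂ‖ =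
        ‖((Real.pi / (2 * η ^ 3) : ℝ) : ℂ) * ⟪f, f'⟫_ℂ‖ := by
      rw [norm_mul, Complex.norm_real, Real.norm_of_nonneg (by positivity)]
    rw [h2, h1]
    refine (norm_sub_le _ _).trans ?_
    have h3 : ‖∫ E : ℝ, ⟪y E, y' E⟫_ℂ‖ ≤ ∫ E : ℝ, ‖y E‖ * ‖y' E‖ := by
      refine (norm_integral_le_integral_norm _).trans ?_
      exact integral_mono_of_nonneg (Eventually.of_forall fun E => norm_nonneg _)
        (nm cy cy' iy iy') (Eventually.of_forall fun E => norm_inner_le_norm _ _)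
    linarith only [h3, herrb]
  have hη3 : 0 < η ^ 3 := by positivity
  have hQe : Q ≤ (∫ E, err E) / |s - V 0| := by
    rw [le_div_iff₀ ht]; linarith only [hQb]
  have herr0 : 0 ≤ ∫ E, err E := integral_nonneg fun E => by simp only [herr]; positivity
  have h1 : Real.pi / (2 * η ^ 3) * ‖⟪f, f'⟫_ℂ‖ ≤ (∫ E, err E) +
      (κ / 2 * ((∫ E, err E) / |s - V 0|) + 4 * R / κ / η ^ 3 +
      2 / η ^ 3 * (8 * Real.pi * η + 2 * Real.pi / R ^ 2 * (‖Hd V‖ ^ 2 + ‖Hd V'‖ ^ 2))) := by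
    refine hfin.trans (add_le_add le_rfl (hprod.trans ?_))
    gcongr
  have h2 := mul_le_mul_of_nonneg_left h1 hη3.le
  have e1 : η ^ 3 * (Real.pi / (2 * η ^ 3) * ‖⟪f, f'⟫_ℂ‖) = Real.pi / 2 * ‖⟪f, f'⟫_ℂ‖ := by
    field_simp
  have e2 : η ^ 3 * ((∫ E, err E) + (κ / 2 * ((∫ E, err E) / |s - V 0|) + 4 * R / κ / η ^ 3 +
      2 / η ^ 3 * (8 * Real.pi * η + 2 * Real.pi / R ^ 2 * (‖Hd V‖ ^ 2 + ‖Hd V'‖ ^ 2)))) =
      η ^ 3 * (∫ E, err E) + κ / (2 * |s - V 0|) * (η ^ 3 * ∫ E, err E) + 4 * R / κ +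
      2 * (8 * Real.pi * η + 2 * Real.pi / R ^ 2 * (‖Hd V‖ ^ 2 + ‖Hd V'‖ ^ 2)) := by
    field_simp
    ring
  rw [e1, e2] at h2
  have h3 : η ^ 3 * (∫ E, err E) ≤ ε := hε
  have h4 : κ / (2 * |s - V 0|) * (η ^ 3 * ∫ E, err E) ≤ κ / (2 * |s - V 0|) * ε := by gcongr
  linarith only [h2, h3, h4]

end Pool.Agent.Helper54.Bal
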