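import Pool.Agent.Helper54_Ballistic.PlanchT
import Pool.Agent.Helper54_Ballistic.Pair

/-!
# The second moment is controlled by the energy integral of `‖X_i G δ₀‖²`
-/

set_option autoImplicit false
set_option linter.unusedSectionVars false

open scoped InnerProductSpace ComplexConjugate Topology ENNReal FourierTransform
open MeasureTheory Filter

noncomputable section

namespace Pool.Agent.Helper54.Bal

open Pool.Agent.Anderson

variable {d : ℕ} {V : Site d → ℝ} {ψ : ℝ → L2 d}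

theorem ofReal_norm_sq (f : L2 d) : ENNReal.ofReal (‖f‖ ^ 2) = ∑' x, ENNReal.ofReal (‖f x‖ ^ 2) := by
  rw [L2.norm_sq, ENNReal.ofReal_tsum_of_nonneg (fun n => by positivity) (L2.summable_sq f)]

/-- second moment of the `i`-th coordinate in the state `f` -/
def mom (i : Fin d) (f : L2 d) : ℝ≥0∞ := ∑' x : Site d, ENNReal.ofReal ((x i : ℝ) ^ 2 * ‖f x‖ ^ 2)

theorem XX_le_mom (n : ℕ) (i : Fin d) (f : L2 d) : ENNReal.ofReal (‖XX n i f‖ ^ 2) ≤ mom i f := by
  rw [ofReal_norm_sq]
  unfold mom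
  refine ENNReal.tsum_le_tsum fun x => ?_
  apply ENNReal.ofReal_le_ofReal
  rw [XX_apply, norm_mul, mul_pow, Complex.norm_real, Real.norm_eq_abs, sq_abs]
  have h1 := chi_sub_le n (x i) 0
  rw [chi_zero, sub_zero] at h1
  have h2 : chi n (x i) ^ 2 ≤ (x i : ℝ) ^ 2 := by
    rw [sq_le_sq]
    simpa using h1
  have h3 : 0 ≤ ‖f x‖ ^ 2 := by positivity
  exact mul_le_mul_of_nonneg_right h2 h3

theorem mom_le_of_forall {i : Fin d} {f : L2 d} {B : ℝ≥0∞}
    (h : ∀ n, ENNReal.ofReal (‖XX n i f‖ ^ 2) ≤ B) : mom i f ≤ B := by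
  unfold mom
  rw [ENNReal.tsum_eq_iSup_sum]
  refine iSup_le fun s => ?_
  have h1 : ∀ᶠ n : ℕ in atTop, ∀ x ∈ s, chi n (x i) = x i :=
    (Finset.eventually_all s).2 fun x _ => chi_eventually (x i)
  obtain ⟨n, hn⟩ := h1.exists
  refine le_trans ?_ (h n)
  rw [ofReal_norm_sq]
  refine le_trans (le_of_eq ?_) (ENNReal.sum_le_tsum s)
  apply Finset.sum_congr rfl
  intro x hx
  rw [XX_apply, norm_mul, mul_pow, Complex.norm_real, Real.norm_eq_abs, sq_abs, hn x hx]

theorem meas_ofReal_coord (h : Continuous ψ) (x : Site d) :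
    Measurable fun t => ENNReal.ofReal (‖ψ t x‖ ^ 2) := by
  have h1 := continuous_coord h x
  exact ENNReal.measurable_ofReal.comp (h1.norm.pow 2).measurable

/-- the energy identity -/
theorem energy_eq (h : IsEvolution V ψ) {η : ℝ} (hη : 0 < η) (i : Fin d) :
    ∫⁻ E : ℝ, ENNReal.ofReal (‖yv i V (zz η E)‖ ^ 2) =
      ENNReal.ofReal (2 * Real.pi) *
        ∫⁻ t in Set.Ioi (0:ℝ), ENNReal.ofReal (Real.exp (-(2 * η) * t)) * mom i (ψ t) := by
  have hz : ∀ E, (zz η E).im ≠ 0 := fun E => by simpa using hη.ne'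
  have e1 : ∀ E : ℝ, ENNReal.ofReal (‖yv i V (zz η E)‖ ^ 2) =
      ∑' x : Site d, ENNReal.ofReal ((x i : ℝ) ^ 2) *
        ENNReal.ofReal (‖G V (zz η E) (del 0) x‖ ^ 2) := by
    intro E
    rw [ofReal_norm_sq]
    apply tsum_congr
    intro x
    rw [yv_apply i (hz E), norm_mul, mul_pow, ← ENNReal.ofReal_mul (by positivity)]
    congr 2
    rw [Complex.norm_intCast, sq_abs]
  simp_rw [e1]
  have hm : ∀ x : Site d, Measurable fun E : ℝ =>
      ENNReal.ofReal (‖G V (zz η E) (del 0) x‖ ^ 2) := by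
    intro x
    have h1 : Continuous fun E : ℝ => G V (zz η E) (del 0) := by
      have h0 : Continuous fun E : ℝ => ((V, E, del 0) : (Site d → ℝ) × ℝ × L2 d) := by fun_prop
      have := (continuous_G (d := d) hη.ne').comp h0
      exact this
    exact meas_ofReal_coord h1 x
  rw [lintegral_tsum (fun x => ((hm x).const_mul _).aemeasurable)]
  have e2 : ∀ x : Site d, ∫⁻ E : ℝ, ENNReal.ofReal ((x i : ℝ) ^ 2) *
        ENNReal.ofReal (‖G V (zz η E) (del 0) x‖ ^ 2) =
      ENNReal.ofReal (2 * Real.pi) * ∫⁻ t in Set.Ioi (0:ℝ),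
        ENNReal.ofReal (Real.exp (-(2 * η) * t)) *
          ENNReal.ofReal ((x i : ℝ) ^ 2 * ‖ψ t x‖ ^ 2) := by
    intro x
    rw [lintegral_const_mul _ (hm x), planch_coord h hη x, ← mul_assoc,
      mul_comm (ENNReal.ofReal ((x i : ℝ) ^ 2)), mul_assoc]
    congr 1
    rw [← lintegral_const_mul' _ _ ENNReal.ofReal_ne_top]
    apply lintegral_congr
    intro t
    rw [← ENNReal.ofReal_mul (by positivity), ← ENNReal.ofReal_mul (Real.exp_pos _).le]
    congr 1
    ring
  simp_rw [e2]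
  rw [ENNReal.tsum_mul_left]
  congr 1
  rw [← lintegral_tsum]
  · apply lintegral_congr
    intro t
    rw [ENNReal.tsum_mul_left]
    rfl
  · intro x
    have m1 : Measurable fun t : ℝ => ENNReal.ofReal (Real.exp (-(2 * η) * t)) :=
      ENNReal.measurable_ofReal.comp (by fun_prop)
    have m2 : Measurable fun t : ℝ => ENNReal.ofReal ((x i : ℝ) ^ 2 * ‖ψ t x‖ ^ 2) := by
      have h1 := continuous_coord h.1 x
      have h2 : Continuous fun t : ℝ => (x i : ℝ) ^ 2 * ‖ψ t x‖ ^ 2 :=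
        continuous_const.mul (h1.norm.pow 2)
      exact ENNReal.measurable_ofReal.comp h2.measurable
    exact (m1.mul m2).aemeasurable

/-- cubic lower bound on the energy integral -/
theorem cubic_le (h : IsEvolution V ψ) {T : ℝ} (hT : 0 < T) (i : Fin d) (n : ℕ) :
    ENNReal.ofReal ((‖XX n i (ψ T)‖ / T) ^ 3) ≤
      ENNReal.ofReal (8 * Real.exp 2 / Real.pi) * (ENNReal.ofReal ((1 / T) ^ 3) *
        ∫⁻ E : ℝ, ENNReal.ofReal (‖yv i V (zz (1 / T) E)‖ ^ 2)) := by
  set m : ℝ → ℝ := fun t => ‖XX n i (ψ t)‖ with hm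
  set a := m T / T with ha
  have hη : 0 < 1 / T := by positivity
  have hpi := Real.pi_pos
  have hm0 : m 0 = 0 := by
    have : XX n i (ψ 0) = 0 := by
      ext x
      rw [XX_apply, h.2.1, del_apply]
      by_cases hx : x = 0
      · subst hx
        simp [chi_zero]
      · simp [hx]
    rw [hm]
    simp only
    rw [this, norm_zero]
  have ha0 : 0 ≤ a := by positivity
  have haT : m T = a * T := by rw [ha]; field_simp
  have ha2 : a ≤ 2 := by
    have h1 := XX_lipschitz h n i 0 T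
    change |m T - m 0| ≤ _ at h1
    rw [hm0, sub_zero, sub_zero, abs_of_pos hT] at h1
    have h2 := le_abs_self (m T)
    rw [ha, div_le_iff₀ hT]
    linarith
  have hlow : ∀ t ∈ Set.Ioc (T - a * T / 4) T, Real.exp (-2) * (a * T / 2) ^ 2 ≤
      Real.exp (-(2 * (1 / T)) * t) * m t ^ 2 := by
    intro t ht
    have h1 := XX_lipschitz h n i t T
    change |m T - m t| ≤ _ at h1
    rw [abs_of_nonneg (by linarith [ht.2] : 0 ≤ T - t)] at h1
    have h2 := (abs_le.1 h1).2
    have h3 : a * T / 2 ≤ m t := by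
      have := ht.1
      linarith
    have h4 : 0 ≤ a * T / 2 := by positivity
    have h5 : (a * T / 2) ^ 2 ≤ m t ^ 2 := pow_le_pow_left₀ h4 h3 2
    have h6 : Real.exp (-2) ≤ Real.exp (-(2 * (1 / T)) * t) := by
      apply Real.exp_le_exp.2
      have h7 : t / T ≤ 1 := by rw [div_le_one hT]; exact ht.2
      have h8 : -(2 * (1 / T)) * t = -2 * (t / T) := by ring
      rw [h8]
      linarith
    have h7 := Real.exp_pos (-2 : ℝ)
    exact mul_le_mul h6 h5 (by positivity) (Real.exp_pos _).le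
  have hsub : Set.Ioc (T - a * T / 4) T ⊆ Set.Ioi (0:ℝ) := by
    intro t ht
    have h1 := ht.1
    have h2 : a * T ≤ 2 * T := by nlinarith
    simp only [Set.mem_Ioi]
    nlinarith
  have key : ENNReal.ofReal (Real.exp (-2) * (a * T / 2) ^ 2 * (a * T / 4)) ≤
      ∫⁻ t in Set.Ioi (0:ℝ), ENNReal.ofReal (Real.exp (-(2 * (1 / T)) * t)) * mom i (ψ t) := by
    calc ENNReal.ofReal (Real.exp (-2) * (a * T / 2) ^ 2 * (a * T / 4))
        = ∫⁻ _ in Set.Ioc (T - a * T / 4) T, ENNReal.ofReal (Real.exp (-2) * (a * T / 2) ^ 2) := by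
          rw [setLIntegral_const, Real.volume_Ioc, ENNReal.ofReal_mul (by positivity)]
          congr 2
          ring
      _ ≤ ∫⁻ t in Set.Ioc (T - a * T / 4) T,
          ENNReal.ofReal (Real.exp (-(2 * (1 / T)) * t)) * mom i (ψ t) := by
          apply setLIntegral_mono' measurableSet_Ioc
          intro t ht
          refine (ENNReal.ofReal_le_ofReal (hlow t ht)).trans ?_
          rw [ENNReal.ofReal_mul (Real.exp_pos _).le]
          gcongr
          exact XX_le_mom n i (ψ t)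
      _ ≤ _ := lintegral_mono_set hsub
  rw [energy_eq h hη i, ← mul_assoc, ← mul_assoc, ← ENNReal.ofReal_mul (by positivity),
    ← ENNReal.ofReal_mul (by positivity)]
  calc ENNReal.ofReal ((‖XX n i (ψ T)‖ / T) ^ 3)
      = ENNReal.ofReal (8 * Real.exp 2 / Real.pi * (1 / T) ^ 3 * (2 * Real.pi)) *
        ENNReal.ofReal (Real.exp (-2) * (a * T / 2) ^ 2 * (a * T / 4)) := by
        rw [← ENNReal.ofReal_mul (by positivity)]
        congr 1
        have he : Real.exp 2 * Real.exp (-2) = 1 := by rw [← Real.exp_add]; simp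
        have : 8 * Real.exp 2 / Real.pi * (1 / T) ^ 3 * (2 * Real.pi) *
            (Real.exp (-2) * (a * T / 2) ^ 2 * (a * T / 4)) =
            (Real.exp 2 * Real.exp (-2)) * a ^ 3 := by
          field_simp
          ring
        rw [this, he, one_mul]
    _ ≤ _ := by gcongr

/-- **the second moment at time `T`** -/
theorem mom_le (h : IsEvolution V ψ) {T : ℝ} (hT : 0 < T) {δ : ℝ} (hδ : 0 < δ) (i : Fin d) :
    mom i (ψ T) ≤ ENNReal.ofReal (T ^ 2) * (ENNReal.ofReal (δ ^ 2) +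
      ENNReal.ofReal (8 * Real.exp 2 / Real.pi / δ) * (ENNReal.ofReal ((1 / T) ^ 3) *
        ∫⁻ E : ℝ, ENNReal.ofReal (‖yv i V (zz (1 / T) E)‖ ^ 2))) := by
  apply mom_le_of_forall
  intro n
  have hpi := Real.pi_pos
  set a := ‖XX n i (ψ T)‖ / T with ha
  have ha0 : 0 ≤ a := by positivity
  have h1 : ‖XX n i (ψ T)‖ ^ 2 = T ^ 2 * a ^ 2 := by rw [ha]; field_simp
  have h2 : a ^ 2 ≤ δ ^ 2 + 1 / δ * a ^ 3 := by
    by_cases hc : a ≤ δ
    · have : a ^ 2 ≤ δ ^ 2 := pow_le_pow_left₀ ha0 hc 2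
      have h3 : 0 ≤ 1 / δ * a ^ 3 := by positivity
      linarith
    · push Not at hc
      have h3 : a ^ 2 ≤ 1 / δ * a ^ 3 := by
        have h4 : 1 ≤ a / δ := by rw [one_le_div hδ]; exact hc.le
        have h5 : 1 / δ * a ^ 3 = a ^ 2 * (a / δ) := by ring
        rw [h5]
        nlinarith [sq_nonneg a]
      have h4 : 0 ≤ δ ^ 2 := by positivity
      linarith
  rw [h1, ENNReal.ofReal_mul (by positivity)]
  gcongr
  refine (ENNReal.ofReal_le_ofReal h2).trans ?_
  rw [ENNReal.ofReal_add (by positivity) (by positivity)]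
  gcongr
  rw [ENNReal.ofReal_mul (by positivity)]
  have h3 := cubic_le h hT i n
  have h4 : 8 * Real.exp 2 / Real.pi / δ = 1 / δ * (8 * Real.exp 2 / Real.pi) := by ring
  rw [h4, ENNReal.ofReal_mul (by positivity), mul_assoc]
  gcongr

end Pool.Agent.Helper54.Bal
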