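import Pool.Agent.Helper54_Ballistic.Laplace

/-!
# Plancherel in time
-/

set_option autoImplicit false
set_option linter.unusedSectionVars false

open scoped InnerProductSpace ComplexConjugate Topology ENNReal FourierTransform
open MeasureTheory Filter

noncomputable section

namespace Pool.Agent.Helper54.Bal

open Pool.Agent.Anderson

variable {d : ℕ} {V : Site d → ℝ} {ψ : ℝ → L2 d}

theorem lintegral_rescale (f : ℝ → ℝ≥0∞) {a : ℝ} (ha : a ≠ 0) :
    ∫⁻ E, f E = ENNReal.ofReal |a| * ∫⁻ ξ, f (a * ξ) := by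
  conv_lhs => rw [← Real.smul_map_volume_mul_left ha]
  rw [lintegral_smul_measure, smul_eq_mul]
  congr 1
  exact (measurableEmbedding_mulLeft₀ ha).lintegral_map f

theorem norm_coord_le (f : L2 d) (x : Site d) : ‖f x‖ ≤ ‖f‖ := by
  rw [← coord_apply x]
  unfold coord
  refine (ContinuousLinearMap.le_opNorm _ _).trans ?_
  rw [innerSL_apply_norm, norm_del, one_mul]

/-- the damped coordinate of the evolution -/
def ff (η : ℝ) (ψ : ℝ → L2 d) (x : Site d) : ℝ → ℂ :=
  (Set.Ioi (0:ℝ)).indicator fun t => (Real.exp (-η * t) : ℂ) * ψ t x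

theorem continuous_coord (h : Continuous ψ) (x : Site d) : Continuous fun t => ψ t x := by
  have h2 : (fun t => ψ t x) = fun t => coord x (ψ t) := by
    funext t; rw [coord_apply]
  rw [h2]
  exact (coord x).continuous.comp h

theorem norm_ff_le (h : IsEvolution V ψ) {η : ℝ} (x : Site d) (t : ℝ) :
    ‖ff η ψ x t‖ ≤ (Set.Ioi (0:ℝ)).indicator (fun t => Real.exp (-η * t)) t := by
  unfold ff
  rw [norm_indicator_eq_indicator_norm]
  apply Set.indicator_le_indicator
  rw [norm_mul, Complex.norm_real, Real.norm_of_nonneg (Real.exp_pos _).le]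
  have := norm_coord_le (ψ t) x
  rw [norm_evol h] at this
  have h2 := Real.exp_pos (-η * t)
  nlinarith

theorem meas_ff (h : IsEvolution V ψ) {η : ℝ} (x : Site d) : AEStronglyMeasurable (ff η ψ x) := by
  unfold ff
  apply AEStronglyMeasurable.indicator _ measurableSet_Ioi
  apply Continuous.aestronglyMeasurable
  have := continuous_coord h.1 x
  fun_prop

theorem integrable_ff (h : IsEvolution V ψ) {η : ℝ} (hη : 0 < η) (x : Site d) :
    Integrable (ff η ψ x) := by
  refine Integrable.mono' ?_ (meas_ff h x) (Eventually.of_forall (norm_ff_le h x))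
  exact (integrable_indicator_iff measurableSet_Ioi).2 (integrable_exp hη)

theorem memLp_ff (h : IsEvolution V ψ) {η : ℝ} (hη : 0 < η) (x : Site d) :
    MemLp (ff η ψ x) 2 := by
  rw [memLp_two_iff_integrable_sq_norm (meas_ff h x)]
  have h1 : Integrable ((Set.Ioi (0:ℝ)).indicator (fun t => Real.exp (-(2 * η) * t))) :=
    (integrable_indicator_iff measurableSet_Ioi).2 (integrable_exp (by linarith))
  refine Integrable.mono' h1 ((meas_ff h x).norm.pow 2) (Eventually.of_forall fun t => ?_)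
  have h2 := norm_ff_le (η := η) h x t
  rw [Real.norm_of_nonneg (by positivity)]
  by_cases ht : t ∈ Set.Ioi (0:ℝ)
  · rw [Set.indicator_of_mem ht] at h2 ⊢
    have e : Real.exp (-(2 * η) * t) = Real.exp (-η * t) ^ 2 := by
      rw [← Real.exp_nat_mul]; congr 1; push_cast; ring
    rw [e]
    exact pow_le_pow_left₀ (norm_nonneg _) h2 2
  · rw [Set.indicator_of_notMem ht] at h2 ⊢
    have : ‖ff η ψ x t‖ = 0 := le_antisymm h2 (norm_nonneg _)
    rw [this]; simp

theorem fourier_ff (h : IsEvolution V ψ) {η : ℝ} (hη : 0 < η) (x : Site d) (ξ : ℝ) :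
    𝓕 (ff η ψ x) ξ = -Complex.I * G V (zz η (-(2 * Real.pi) * ξ)) (del 0) x := by
  rw [Real.fourier_real_eq_integral_exp_smul, laplace_eq h hη, lp.coeFn_smul, Pi.smul_apply,
    smul_eq_mul, integral_FF_apply h hη]
  have e : (fun v : ℝ => Complex.exp (((-2 * Real.pi * v * ξ : ℝ) : ℂ) * Complex.I) •
      ff η ψ x v) = (Set.Ioi (0:ℝ)).indicator (fun v => FF η (-(2 * Real.pi) * ξ) ψ v x) := by
    funext v
    unfold ff
    by_cases hv : v ∈ Set.Ioi (0:ℝ)
    · rw [Set.indicator_of_mem hv, Set.indicator_of_mem hv, FF_apply, smul_eq_mul, ← mul_assoc,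
        Complex.ofReal_exp, ← Complex.exp_add]
      congr 2
      unfold zz
      push_cast
      have := Complex.I_sq
      linear_combination ((-η : ℂ) * v) * this
    · rw [Set.indicator_of_notMem hv, Set.indicator_of_notMem hv, smul_zero]
  rw [e, integral_indicator measurableSet_Ioi, ← mul_assoc]
  simp

theorem planch_coord (h : IsEvolution V ψ) {η : ℝ} (hη : 0 < η) (x : Site d) :
    ∫⁻ E : ℝ, ENNReal.ofReal (‖G V (zz η E) (del 0) x‖ ^ 2) =
      ENNReal.ofReal (2 * Real.pi) *
        ∫⁻ t in Set.Ioi (0:ℝ), ENNReal.ofReal (Real.exp (-(2 * η) * t) * ‖ψ t x‖ ^ 2) := by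
  have h1 := Pool.Agent.Helper95_Fourier.eLpNorm_fourier_eq (integrable_ff h hη x) (memLp_ff h hη x)
  have e2 : ∀ g : ℝ → ℂ, eLpNorm g 2 volume ^ 2 = ∫⁻ t, ENNReal.ofReal (‖g t‖ ^ 2) := by
    intro g
    rw [eLpNorm_eq_lintegral_rpow_enorm_toReal (by norm_num) (by norm_num), ENNReal.toReal_ofNat,
      ← ENNReal.rpow_natCast, ← ENNReal.rpow_mul]
    norm_num
  have h3 := congrArg (fun a => a ^ 2) h1
  simp only [e2] at h3
  rw [lintegral_rescale _ (a := -(2 * Real.pi)) (by have := Real.pi_pos; linarith)]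
  have e4 : |-(2 * Real.pi)| = 2 * Real.pi := by
    rw [abs_neg, abs_of_pos (by have := Real.pi_pos; linarith)]
  rw [e4]
  congr 1
  have e5 : ∀ ξ, ENNReal.ofReal (‖𝓕 (ff η ψ x) ξ‖ ^ 2) =
      ENNReal.ofReal (‖G V (zz η (-(2 * Real.pi) * ξ)) (del 0) x‖ ^ 2) := by
    intro ξ
    rw [fourier_ff h hη, norm_mul, norm_neg, Complex.norm_I, one_mul]
  simp only [e5] at h3
  rw [h3, ← lintegral_indicator measurableSet_Ioi]
  apply lintegral_congr
  intro t
  unfold ff
  by_cases ht : t ∈ Set.Ioi (0:ℝ)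
  · rw [Set.indicator_of_mem ht, Set.indicator_of_mem ht, norm_mul, mul_pow, Complex.norm_real,
      Real.norm_of_nonneg (Real.exp_pos _).le]
    congr 2
    rw [← Real.exp_nat_mul]; congr 1; push_cast; ring
  · rw [Set.indicator_of_notMem ht, Set.indicator_of_notMem ht]
    simp

end Pool.Agent.Helper54.Bal
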