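import Pool.Agent.Helper54_Ballistic.Erg

/-!
# Fibres of covariant operators
-/

set_option autoImplicit false
set_option linter.unusedSectionVars false

open scoped InnerProductSpace ComplexConjugate Topology ENNReal
open MeasureTheory Filter

noncomputable section

namespace Pool.Agent.Helper54.Bal

open Pool.Agent.Anderson

variable {d : ℕ}

theorem enorm_sq_eq (a : ℂ) : ‖a‖ₑ ^ 2 = ENNReal.ofReal (‖a‖ ^ 2) := by
  rw [← ofReal_norm, ENNReal.ofReal_pow (norm_nonneg a)]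

theorem memℓp_iff_enorm (f : Site d → ℂ) : Memℓp f 2 ↔ ∑' x, ‖f x‖ₑ ^ 2 ≠ ∞ := by
  rw [memℓp_iff]
  have e : ∀ x, ‖f x‖ₑ ^ 2 = ((‖f x‖₊ ^ 2 : NNReal) : ℝ≥0∞) := by
    intro x
    rw [ENNReal.coe_pow]
    rfl
  simp only [e]
  rw [ENNReal.tsum_coe_ne_top_iff_summable, ← NNReal.summable_coe]
  simp

theorem norm_sq_enorm (f : L2 d) : ENNReal.ofReal (‖f‖ ^ 2) = ∑' x, ‖f x‖ₑ ^ 2 := by
  rw [L2.norm_sq, ENNReal.ofReal_tsum_of_nonneg (fun x => by positivity) (L2.summable_sq f)]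
  exact tsum_congr fun x => (enorm_sq_eq (f x)).symm

open Classical in
/-- the fibre of a function -/
def fib (F : Site d × Cfg d → ℂ) (V : Cfg d) : L2 d :=
  if h : Memℓp (fun x => F (x, V)) 2 then ⟨fun x => F (x, V), h⟩ else 0

theorem fib_apply {F : Site d × Cfg d → ℂ} {V : Cfg d} (h : Memℓp (fun x => F (x, V)) 2)
    (x : Site d) : fib F V x = F (x, V) := by
  unfold fib
  rw [dif_pos h]

theorem measurableSet_mem {F : Site d × Cfg d → ℂ} (hF : Measurable F) :
    MeasurableSet {V : Cfg d | Memℓp (fun x => F (x, V)) 2} := by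
  have e : {V : Cfg d | Memℓp (fun x => F (x, V)) 2} =
      {V : Cfg d | ∑' x, ‖F (x, V)‖ₑ ^ 2 = ∞}ᶜ := by
    ext V
    simp [memℓp_iff_enorm]
  rw [e]
  refine MeasurableSet.compl ?_
  refine measurableSet_eq_fun (Measurable.tsum fun x => ?_) measurable_const
  exact ((hF.comp measurable_prodMk_left).enorm).pow_const 2

theorem stronglyMeasurable_fib {F : Site d × Cfg d → ℂ} (hF : Measurable F) :
    StronglyMeasurable fun V => fib F V := by
  classical
  set M : Set (Cfg d) := {V : Cfg d | Memℓp (fun x => F (x, V)) 2} with hM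
  have hMm : MeasurableSet M := measurableSet_mem hF
  set g : Finset (Site d) → Cfg d → L2 d := fun S V =>
    ∑ x ∈ S, (M.indicator (fun V => F (x, V)) V) • del x with hg
  refine stronglyMeasurable_of_tendsto (f := g) atTop (fun S => ?_) ?_
  · refine Finset.stronglyMeasurable_fun_sum S fun x _ => ?_
    refine StronglyMeasurable.smul_const ?_ _
    exact ((hF.comp measurable_prodMk_left).indicator hMm).stronglyMeasurable
  · rw [tendsto_pi_nhds]
    intro V
    by_cases hV : V ∈ M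
    · have h1 : HasSum (fun x => lp.single 2 x ((fib F V) x)) (fib F V) :=
        lp.hasSum_single (by norm_num) (fib F V)
      have h2 : (fun S => g S V) = fun S => ∑ x ∈ S, lp.single 2 x ((fib F V) x) := by
        funext S
        rw [hg]
        refine Finset.sum_congr rfl fun x _ => ?_
        rw [Set.indicator_of_mem hV, fib_apply hV]
        unfold del
        rw [← lp.single_smul, smul_eq_mul, mul_one]
      rw [h2]
      exact h1
    · have hV' : ¬ Memℓp (fun x => F (x, V)) 2 := hV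
      have h1 : fib F V = 0 := dif_neg hV'
      rw [h1]
      have h2 : ∀ S, g S V = 0 := by
        intro S
        rw [hg]
        refine Finset.sum_eq_zero fun x _ => ?_
        rw [Set.indicator_of_notMem hV, zero_smul]
      simp only [h2]
      exact tendsto_const_nhds

variable {P : Measure (Cfg d)} [IsProbabilityMeasure P]

theorem ae_fiber {q : Site d × Cfg d → Prop} (h : ∀ᵐ p ∂(QQ P), q p) :
    ∀ᵐ V ∂P, ∀ x, q (x, V) := by
  have h1 := Measure.ae_ae_of_ae_prod h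
  rw [Measure.ae_count_iff] at h1
  exact ae_all_iff.2 h1

theorem lintegral_QQ {F : Site d × Cfg d → ℝ≥0∞} (hF : Measurable F) :
    ∫⁻ p, F p ∂(QQ P) = ∫⁻ V, ∑' x, F (x, V) ∂P := by
  rw [lintegral_prod_symm _ hF.aemeasurable]
  refine lintegral_congr fun V => ?_
  rw [lintegral_count]

theorem measurable_K (f : K P) : Measurable (f : Site d × Cfg d → ℂ) :=
  (Lp.stronglyMeasurable f).measurable

theorem lintegral_K (f : K P) : ∫⁻ V, ∑' x, ‖f (x, V)‖ₑ ^ 2 ∂P = ENNReal.ofReal (‖f‖ ^ 2) := by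
  rw [← lintegral_QQ ((measurable_K f).enorm.pow_const 2)]
  have h1 : ENNReal.ofReal ‖f‖ = eLpNorm f 2 (QQ P) := by
    rw [Lp.norm_def, ENNReal.ofReal_toReal (Lp.eLpNorm_ne_top f)]
  rw [ENNReal.ofReal_pow (norm_nonneg f), h1,
    eLpNorm_eq_lintegral_rpow_enorm_toReal (by norm_num) (by norm_num)]
  simp only [ENNReal.toReal_ofNat, ENNReal.rpow_ofNat]
  rw [← ENNReal.rpow_natCast, ← ENNReal.rpow_mul]
  norm_num

/-- the fibres of an element of `K` -/
def fibK (f : K P) (V : Cfg d) : L2 d := fib (f : Site d × Cfg d → ℂ) V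

theorem stronglyMeasurable_fibK (f : K P) : StronglyMeasurable fun V => fibK f V :=
  stronglyMeasurable_fib (measurable_K f)

theorem ae_mem (f : K P) : ∀ᵐ V ∂P, Memℓp (fun x => f (x, V)) 2 := by
  have h := lintegral_K f
  have h1 : ∀ᵐ V ∂P, ∑' x, ‖f (x, V)‖ₑ ^ 2 < ∞ := by
    refine ae_lt_top (Measurable.tsum fun x => ?_) (by rw [h]; exact ENNReal.ofReal_ne_top)
    exact (((measurable_K f).comp measurable_prodMk_left).enorm).pow_const 2
  filter_upwards [h1] with V hV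
  exact (memℓp_iff_enorm _).2 hV.ne

theorem ae_fibK (f : K P) : ∀ᵐ V ∂P, ∀ x, fibK f V x = f (x, V) := by
  filter_upwards [ae_mem f] with V hV x
  exact fib_apply hV x

theorem lintegral_fibK (f : K P) :
    ∫⁻ V, ENNReal.ofReal (‖fibK f V‖ ^ 2) ∂P = ENNReal.ofReal (‖f‖ ^ 2) := by
  rw [← lintegral_K f]
  refine lintegral_congr_ae ?_
  filter_upwards [ae_fibK f] with V hV
  rw [norm_sq_enorm]
  exact tsum_congr fun x => by rw [hV x]

theorem fibK_eq_zero {f : K P} (h : ∀ᵐ V ∂P, fibK f V = 0) : f = 0 := by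
  have h1 := lintegral_fibK f
  have h2 : ∫⁻ V, ENNReal.ofReal (‖fibK f V‖ ^ 2) ∂P = 0 := by
    rw [lintegral_congr_ae (g := fun _ => 0) ?_, lintegral_zero]
    filter_upwards [h] with V hV
    rw [hV]; simp
  rw [h2] at h1
  have h3 := ENNReal.ofReal_eq_zero.1 h1.symm
  have h4 : ‖f‖ = 0 := by
    have := norm_nonneg f
    nlinarith
  exact norm_eq_zero.1 h4

theorem fibK_add (f g : K P) : ∀ᵐ V ∂P, fibK (f + g) V = fibK f V + fibK g V := by
  filter_upwards [ae_fibK f, ae_fibK g, ae_fibK (f + g), ae_fiber (Lp.coeFn_add f g)]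
    with V e1 e2 e3 e4
  ext x
  rw [lp.coeFn_add, Pi.add_apply, e1, e2, e3, e4]
  rfl

theorem fibK_sub (f g : K P) : ∀ᵐ V ∂P, fibK (f - g) V = fibK f V - fibK g V := by
  filter_upwards [ae_fibK f, ae_fibK g, ae_fibK (f - g), ae_fiber (Lp.coeFn_sub f g)]
    with V e1 e2 e3 e4
  ext x
  rw [lp.coeFn_sub, Pi.sub_apply, e1, e2, e3, e4]
  rfl

theorem fibK_cmp_sL (a : Site d) (f : K P) :
    ∀ᵐ V ∂P, ∀ x, fibK (cmp (sL a) (mp_sL a) f) V x = fibK f V (x + a) := by
  filter_upwards [ae_fibK f, ae_fibK (cmp (sL a) (mp_sL a) f),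
    ae_fiber (cmp_coe (sL a) (mp_sL a) f)] with V e1 e2 e3 x
  rw [e1, e2, e3]
  rfl

theorem fibK_e0 : ∀ᵐ V ∂P, fibK (e0 : K P) V = del 0 := by
  filter_upwards [ae_fibK (e0 : K P), ae_fiber (e0_coe (P := P))] with V e1 e2
  ext x
  rw [e1, e2, del_apply]

theorem fibK_WK (i : Fin d) (f : K P) : ∀ᵐ V ∂P, fibK (WK i f) V = Wop i (fibK f V) := by
  rw [WK_apply]
  filter_upwards [fibK_sub (cmp (sL (Pi.single i 1)) (mp_sL _) f)
    (cmp (sL (-Pi.single i 1)) (mp_sL _) f), fibK_cmp_sL (Pi.single i 1) f,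
    fibK_cmp_sL (-Pi.single i 1) f] with V e1 e2 e3
  ext x
  rw [e1, lp.coeFn_sub, Pi.sub_apply, e2, e3, Wop_apply, ← sub_eq_add_neg]

theorem fibK_finsum {ι : Type*} (s : Finset ι) (F : ι → K P) :
    ∀ᵐ V ∂P, fibK (∑ i ∈ s, F i) V = ∑ i ∈ s, fibK (F i) V := by
  classical
  induction s using Finset.induction_on with
  | empty =>
    simp only [Finset.sum_empty]
    filter_upwards [ae_fibK (0 : K P), ae_fiber (Lp.coeFn_zero ℂ 2 (QQ P))] with V e1 e2
    ext x
    rw [e1, e2]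
    rfl
  | insert a s ha ih =>
    rw [Finset.sum_insert ha]
    filter_upwards [fibK_add (F a) (∑ i ∈ s, F i), ih] with V e1 e2
    rw [e1, e2, Finset.sum_insert ha]

theorem fibK_LapK (f : K P) : ∀ᵐ V ∂P, ∀ x, fibK (LapK f) V x = lap (fibK f V) x := by
  rw [LapK_apply]
  have h1 := fibK_finsum Finset.univ (fun i : Fin d => cmp (sL (Pi.single i 1)) (mp_sL _) f +
    cmp (sL (-Pi.single i 1)) (mp_sL _) f)
  have h2 : ∀ᵐ V ∂P, ∀ i : Fin d, fibK (cmp (sL (Pi.single i 1)) (mp_sL _) f +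
    cmp (sL (-Pi.single i 1)) (mp_sL _) f) V = fibK (cmp (sL (Pi.single i 1)) (mp_sL _) f) V +
      fibK (cmp (sL (-Pi.single i 1)) (mp_sL _) f) V := ae_all_iff.2 fun i => fibK_add _ _
  have h3 : ∀ᵐ V ∂P, ∀ i : Fin d, ∀ x, fibK (cmp (sL (Pi.single i 1)) (mp_sL _) f) V x =
      fibK f V (x + Pi.single i 1) := ae_all_iff.2 fun i => fibK_cmp_sL _ f
  have h4 : ∀ᵐ V ∂P, ∀ i : Fin d, ∀ x, fibK (cmp (sL (-Pi.single i 1)) (mp_sL _) f) V x =
      fibK f V (x + -Pi.single i 1) := ae_all_iff.2 fun i => fibK_cmp_sL _ f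
  filter_upwards [h1, h2, h3, h4] with V e1 e2 e3 e4 x
  rw [e1, lp.coeFn_sum, Finset.sum_apply]
  unfold lap
  refine Finset.sum_congr rfl fun i _ => ?_
  rw [e2, lp.coeFn_add, Pi.add_apply, e3, e4, ← sub_eq_add_neg]

theorem fibK_DK {z : ℂ} (hz : z.im ≠ 0) (f : K P) :
    ∀ᵐ V ∂P, ∀ x, fibK (DK gL meas_gL z f) V x = ((V x : ℂ) - z)⁻¹ * fibK f V x := by
  filter_upwards [ae_fibK f, ae_fibK (DK gL meas_gL z f), ae_fiber (DK_coe meas_gL hz f)]
    with V e1 e2 e3 x
  rw [e1, e2, e3]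
  rfl

/-- the fibres of `LL z f` -/
theorem fibK_LL {z : ℂ} (hz : z.im ≠ 0) (f : K P) :
    ∀ᵐ V ∂P, fibK (LL z f) V = G V z (fibK f V) := by
  have h := pert_apply (isRes_DK (P := P) gL meas_gL) LapK_symm hz f
  change LL z f + DK gL meas_gL z (LapK (LL z f)) = DK gL meas_gL z f at h
  filter_upwards [fibK_add (LL z f) (DK gL meas_gL z (LapK (LL z f))),
    fibK_DK hz (LapK (LL z f)), fibK_LapK (LL z f), fibK_DK hz f] with V e1 e2 e3 e4
  apply G_unique hz
  intro x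
  rw [h] at e1
  have e5 := congrArg (fun g : L2 d => g x) e1
  simp only at e5
  rw [e4, lp.coeFn_add, Pi.add_apply, e2, e3] at e5
  have h1 := real_sub_ne hz (V x)
  have h2 := congrArg (fun c => ((V x : ℂ) - z) * c) e5
  simp only [mul_add] at h2
  rw [← mul_assoc, ← mul_assoc, mul_inv_cancel₀ h1, one_mul, one_mul] at h2
  rw [h2]
  ring

theorem fibK_star {f : K P} (h : (star f : K P) = f) : ∀ᵐ V ∂P, star (fibK f V) = fibK f V := by
  have h1 : ∀ᵐ p ∂(QQ P), conj (f p) = f p := by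
    filter_upwards [star_coe f] with p e
    rw [← e, h]
  filter_upwards [ae_fibK f, ae_fiber h1] with V e1 e2
  ext x
  rw [star_apply, e1, e2]

theorem fibK_zero_of_TT (hP : ShiftInv P) {f : K P} (h : TT hP f = -f) :
    ∀ᵐ V ∂P, fibK f V 0 = 0 := by
  have h1 := cmp_coe th (mp_th hP) f
  have h2 := Lp.coeFn_neg f
  filter_upwards [ae_fibK f, ae_fiber h1, ae_fiber h2] with V e1 e2 e3
  have e4 := e2 0
  change (TT hP f : Site d × Cfg d → ℂ) (0, V) = _ at e4
  rw [h, e3 0] at e4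
  have e5 : (⇑f ∘ th) (0, V) = f (0, V) := by
    simp [th, tau_zero]
  rw [e5] at e4
  rw [e1]
  have : (-⇑f : Site d × Cfg d → ℂ) (0, V) = - f (0, V) := rfl
  rw [this] at e4
  linear_combination (-(1:ℂ)/2) * e4

end Pool.Agent.Helper54.Bal
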