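import Pool.Agent.Helper54_Ballistic.Ell

/-!
# Covariant operators: left and right multiplication by the resolvent

A covariant family of operators `A_ω` is represented by the function `f(x, ω) = A_ω(x, 0)`, an
element of `K = L²(count × P)`.
-/

set_option autoImplicit false
set_option linter.unusedSectionVars false

open scoped InnerProductSpace ComplexConjugate Topology ENNReal
open MeasureTheory Filter

noncomputable section

namespace Pool.Agent.Helper54.Bal

open Pool.Agent.Anderson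

variable {d : ℕ}

/-- configurations of the potential -/
abbrev Cfg (d : ℕ) : Type := Site d → ℝ

/-- translation of configurations -/
def tau (a : Site d) (V : Cfg d) : Cfg d := fun y => V (y + a)

theorem tau_tau (a b : Site d) (V : Cfg d) : tau a (tau b V) = tau (a + b) V := by
  funext y; simp [tau, add_assoc]

theorem tau_zero (V : Cfg d) : tau 0 V = V := by
  funext y; simp [tau]

theorem measurable_tau (a : Site d) : Measurable (tau a) :=
  measurable_pi_iff.2 fun y => measurable_pi_apply (y + a)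

theorem measurable_eval : Measurable fun p : Site d × Cfg d => p.2 p.1 :=
  measurable_from_prod_countable_right fun x => measurable_pi_apply x

theorem measurable_tau' : Measurable (Function.uncurry (tau (d := d))) :=
  measurable_from_prod_countable_right fun x => measurable_tau x

theorem mp_count (e : Site d ≃ Site d) :
    MeasurePreserving e (Measure.count : Measure (Site d)) Measure.count := by
  refine ⟨measurable_of_countable _, ?_⟩
  ext s hs
  rw [Measure.map_apply (measurable_of_countable _) hs,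
    Measure.count_apply (measurable_of_countable (e : Site d → Site d) hs),
    Measure.count_apply hs]
  congr 1
  have : e ⁻¹' s = e.symm '' s := by
    rw [Equiv.image_symm_eq_preimage]
  rw [this, e.symm.injective.encard_image]

/-- shift invariance -/
def ShiftInv (P : Measure (Cfg d)) : Prop := ∀ a, MeasurePreserving (tau a) P P

/-- the reference measure -/
abbrev QQ (P : Measure (Cfg d)) : Measure (Site d × Cfg d) := (Measure.count).prod P

/-- the Hilbert space of covariant operators -/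
abbrev K (P : Measure (Cfg d)) : Type := Lp ℂ 2 (QQ P)

variable {P : Measure (Cfg d)} [IsProbabilityMeasure P]

/-- composition with a measure preserving map -/
def cmp (φ : Site d × Cfg d → Site d × Cfg d) (h : MeasurePreserving φ (QQ P) (QQ P)) :
    K P →ₗᵢ[ℂ] K P := Lp.compMeasurePreservingₗᵢ ℂ φ h

theorem cmp_coe (φ : Site d × Cfg d → Site d × Cfg d) (h : MeasurePreserving φ (QQ P) (QQ P))
    (f : K P) : cmp φ h f =ᵐ[QQ P] f ∘ φ := Lp.coeFn_compMeasurePreserving f h

theorem cmp_cmp (φ ψ χ : Site d × Cfg d → Site d × Cfg d) (h : MeasurePreserving φ (QQ P) (QQ P))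
    (h' : MeasurePreserving ψ (QQ P) (QQ P)) (h'' : MeasurePreserving χ (QQ P) (QQ P))
    (e : ψ ∘ φ = χ) (f : K P) : cmp φ h (cmp ψ h' f) = cmp χ h'' f := by
  subst e
  exact (Lp.compMeasurePreserving_comp_apply f h' h).symm

theorem cmp_id (φ : Site d × Cfg d → Site d × Cfg d) (h : MeasurePreserving φ (QQ P) (QQ P))
    (e : φ = id) (f : K P) : cmp φ h f = f := by
  subst e
  exact Lp.compMeasurePreserving_id_apply f

theorem memLp_mul {m : Site d × Cfg d → ℂ} (hm : Measurable m) {M : ℝ} (hM : ∀ p, ‖m p‖ ≤ M)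
    (f : K P) : MemLp (fun p => m p * f p) 2 (QQ P) := by
  refine MemLp.of_le_mul (Lp.memLp f) (hm.aestronglyMeasurable.mul (Lp.aestronglyMeasurable f))
    (Eventually.of_forall fun p => ?_) (c := M)
  rw [norm_mul]
  have := hM p
  gcongr

/-- multiplication by a bounded function -/
def mulK (m : Site d × Cfg d → ℂ) (hm : Measurable m) (M : ℝ) (hM : ∀ p, ‖m p‖ ≤ M) :
    K P →L[ℂ] K P :=
  LinearMap.mkContinuous
    { toFun := fun f => (memLp_mul hm hM f).toLp _
      map_add' := fun f g => by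
        rw [← MemLp.toLp_add]
        apply MemLp.toLp_congr
        filter_upwards [Lp.coeFn_add f g] with p hp
        rw [hp]
        exact mul_add _ _ _
      map_smul' := fun c f => by
        rw [RingHom.id_apply, ← MemLp.toLp_const_smul]
        apply MemLp.toLp_congr
        filter_upwards [Lp.coeFn_smul c f] with p hp
        rw [hp]
        simp only [Pi.smul_apply, smul_eq_mul]
        ring } M (by
    intro f
    refine Lp.norm_le_mul_norm_of_ae_le_mul ?_
    filter_upwards [MemLp.coeFn_toLp (memLp_mul hm hM f)] with p hp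
    change ‖(MemLp.toLp _ (memLp_mul hm hM f)) p‖ ≤ _
    rw [hp, norm_mul]
    have := hM p
    gcongr)

theorem mulK_coe {m : Site d × Cfg d → ℂ} (hm : Measurable m) {M : ℝ} (hM : ∀ p, ‖m p‖ ≤ M)
    (f : K P) : mulK m hm M hM f =ᵐ[QQ P] fun p => m p * f p :=
  MemLp.coeFn_toLp (memLp_mul hm hM f)

theorem cmp_mulK {m m' : Site d × Cfg d → ℂ} (hm : Measurable m) (hm' : Measurable m')
    {M M' : ℝ} (hM : ∀ p, ‖m p‖ ≤ M) (hM' : ∀ p, ‖m' p‖ ≤ M')
    (φ : Site d × Cfg d → Site d × Cfg d) (h : MeasurePreserving φ (QQ P) (QQ P))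
    (e : m ∘ φ = m') (f : K P) :
    cmp φ h (mulK m hm M hM f) = mulK m' hm' M' hM' (cmp φ h f) := by
  apply Lp.ext
  have h1 := cmp_coe φ h (mulK m hm M hM f)
  have h2 := h.quasiMeasurePreserving.ae_eq_comp (mulK_coe hm hM f)
  have h3 := mulK_coe hm' hM' (cmp φ h f)
  have h4 := cmp_coe φ h f
  filter_upwards [h1, h2, h3, h4] with p e1 e2 e3 e4
  rw [e1, e2, e3, e4, ← e]
  rfl

theorem mulK_mulK_comm {m m' : Site d × Cfg d → ℂ} (hm : Measurable m) (hm' : Measurable m')
    {M M' : ℝ} (hM : ∀ p, ‖m p‖ ≤ M) (hM' : ∀ p, ‖m' p‖ ≤ M') (f : K P) :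
    mulK m hm M hM (mulK m' hm' M' hM' f) = mulK m' hm' M' hM' (mulK m hm M hM f) := by
  apply Lp.ext
  filter_upwards [mulK_coe hm hM (mulK m' hm' M' hM' f), mulK_coe hm' hM' f,
    mulK_coe hm' hM' (mulK m hm M hM f), mulK_coe hm hM f] with p e1 e2 e3 e4
  rw [e1, e2, e3, e4]
  ring

/-! ### the elementary operators -/

/-- `(x, ω) ↦ (x + e, ω)` -/
def sL (e : Site d) (p : Site d × Cfg d) : Site d × Cfg d := (p.1 + e, p.2)

/-- `(x, ω) ↦ (x - e, τ_e ω)` -/
def sR (e : Site d) (p : Site d × Cfg d) : Site d × Cfg d := (p.1 - e, tau e p.2)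

/-- `(x, ω) ↦ (-x, τ_x ω)` -/
def th (p : Site d × Cfg d) : Site d × Cfg d := (-p.1, tau p.1 p.2)

theorem mp_sL (e : Site d) : MeasurePreserving (sL e) (QQ P) (QQ P) :=
  (mp_count (Equiv.addRight e)).prod (MeasurePreserving.id P)

theorem mp_sR (hP : ShiftInv P) (e : Site d) : MeasurePreserving (sR e) (QQ P) (QQ P) :=
  (mp_count (Equiv.subRight e)).prod (hP e)

theorem mp_th (hP : ShiftInv P) : MeasurePreserving (th (d := d)) (QQ P) (QQ P) :=
  (mp_count (Equiv.neg (Site d))).skew_product measurable_tau'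
    (Eventually.of_forall fun a => (hP a).map_eq)

/-- the Laplacian acting from the left -/
def LapK : K P →L[ℂ] K P :=
  ∑ i : Fin d, ((cmp (sL (Pi.single i 1)) (mp_sL _)).toContinuousLinearMap +
    (cmp (sL (-Pi.single i 1)) (mp_sL _)).toContinuousLinearMap)

/-- the Laplacian acting from the right -/
def LapR (hP : ShiftInv P) : K P →L[ℂ] K P :=
  ∑ i : Fin d, ((cmp (sR (Pi.single i 1)) (mp_sR hP _)).toContinuousLinearMap +
    (cmp (sR (-Pi.single i 1)) (mp_sR hP _)).toContinuousLinearMap)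

theorem LapK_apply (f : K P) : LapK f = ∑ i : Fin d, (cmp (sL (Pi.single i 1)) (mp_sL _) f +
    cmp (sL (-Pi.single i 1)) (mp_sL _) f) := by
  unfold LapK
  rw [_root_.sum_apply]
  rfl

theorem LapR_apply (hP : ShiftInv P) (f : K P) :
    LapR hP f = ∑ i : Fin d, (cmp (sR (Pi.single i 1)) (mp_sR hP _) f +
    cmp (sR (-Pi.single i 1)) (mp_sR hP _) f) := by
  unfold LapR
  rw [_root_.sum_apply]
  rfl

theorem norm_inv_le' {z : ℂ} (hz : z.im ≠ 0) (g : Site d × Cfg d → ℝ) (p : Site d × Cfg d) :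
    ‖((g p : ℂ) - z)⁻¹‖ ≤ |z.im|⁻¹ := norm_inv_le hz (g p)

theorem meas_inv (z : ℂ) {g : Site d × Cfg d → ℝ} (hg : Measurable g) :
    Measurable fun p => ((g p : ℂ) - z)⁻¹ :=
  ((Complex.measurable_ofReal.comp hg).sub_const z).inv

/-- multiplication by `1/(g - z)`, for `g` real -/
def DK (g : Site d × Cfg d → ℝ) (hg : Measurable g) (z : ℂ) : K P →L[ℂ] K P :=
  if hz : z.im ≠ 0 then mulK _ (meas_inv z hg) |z.im|⁻¹ (norm_inv_le' hz g) else 0

theorem DK_eq {g : Site d × Cfg d → ℝ} (hg : Measurable g) {z : ℂ} (hz : z.im ≠ 0) (f : K P) :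
    DK g hg z f = mulK _ (meas_inv z hg) |z.im|⁻¹ (norm_inv_le' hz g) f := by
  unfold DK; rw [dif_pos hz]

theorem DK_coe {g : Site d × Cfg d → ℝ} (hg : Measurable g) {z : ℂ} (hz : z.im ≠ 0) (f : K P) :
    DK g hg z f =ᵐ[QQ P] fun p => ((g p : ℂ) - z)⁻¹ * f p := by
  rw [DK_eq hg hz]
  exact mulK_coe _ _ f

theorem isRes_DK (g : Site d × Cfg d → ℝ) (hg : Measurable g) :
    IsRes (X := K P) (DK g hg) where
  ident z w hz hw := by
    ext1 f
    change DK g hg z f - DK g hg w f = (z - w) • DK g hg z (DK g hg w f)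
    apply Lp.ext
    filter_upwards [Lp.coeFn_sub (DK g hg z f) (DK g hg w f), DK_coe hg hz f, DK_coe hg hw f,
      Lp.coeFn_smul (z - w) (DK g hg z (DK g hg w f)), DK_coe hg hz (DK g hg w f)]
      with p e1 e2 e3 e4 e5
    rw [e1, e4, Pi.sub_apply, Pi.smul_apply, e2, e3, e5, e3, smul_eq_mul]
    have h1 := real_sub_ne hz (g p)
    have h2 := real_sub_ne hw (g p)
    field_simp
    ring
  adj z hz f h := by
    rw [L2.inner_def, L2.inner_def]
    apply integral_congr_ae
    filter_upwards [DK_coe hg hz f, DK_coe hg (conj_im_ne hz) h] with p e1 e2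
    rw [e1, e2, RCLike.inner_apply, RCLike.inner_apply, map_mul, map_inv₀, map_sub,
      Complex.conj_ofReal]
    ring
  inj z hz f h := by
    apply Lp.ext
    have h0 : DK g hg z f =ᵐ[QQ P] (0 : K P) := by rw [h]
    filter_upwards [DK_coe hg hz f, h0, Lp.coeFn_zero ℂ 2 (QQ P)] with p e1 e2 e3
    rw [e3]
    rw [e2, e3] at e1
    simpa [real_sub_ne hz (g p)] using e1.symm

/-- the potential seen from `x` -/
def gL (p : Site d × Cfg d) : ℝ := p.2 p.1

/-- the potential at the origin -/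
def gR (p : Site d × Cfg d) : ℝ := p.2 0

theorem meas_gL : Measurable (gL (d := d)) := measurable_eval

theorem meas_gR : Measurable (gR (d := d)) := (measurable_pi_apply 0).comp measurable_snd

theorem cmp_symm_inner {φ ψ : Site d × Cfg d → Site d × Cfg d}
    (h : MeasurePreserving φ (QQ P) (QQ P)) (h' : MeasurePreserving ψ (QQ P) (QQ P))
    (e : φ ∘ ψ = id) (f g : K P) : ⟪cmp φ h f, g⟫_ℂ = ⟪f, cmp ψ h' g⟫_ℂ := by
  rw [← (cmp ψ h').inner_map_map (cmp φ h f) g,
    cmp_cmp ψ φ id h' h (MeasurePreserving.id _) e, cmp_id id _ rfl]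

theorem sL_sL (e : Site d) : sL e ∘ sL (-e) = id := by
  funext p; simp [sL]

theorem sR_sR (e : Site d) : sR e ∘ sR (-e) = id := by
  funext p
  simp only [sR, Function.comp_apply, tau_tau, add_neg_cancel, tau_zero, id_eq]
  ext <;> simp

theorem LapK_symm (f g : K P) : ⟪LapK f, g⟫_ℂ = ⟪f, LapK g⟫_ℂ := by
  rw [LapK_apply, LapK_apply, sum_inner, inner_sum]
  apply Finset.sum_congr rfl
  intro i _
  rw [inner_add_left, inner_add_right, cmp_symm_inner _ (mp_sL _) (sL_sL _),
    cmp_symm_inner (mp_sL (-Pi.single i 1)) (mp_sL (Pi.single i 1)) (by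
      have := sL_sL (-(Pi.single i 1 : Site d))
      rwa [neg_neg] at this)]
  ring

theorem LapR_symm (hP : ShiftInv P) (f g : K P) : ⟪LapR hP f, g⟫_ℂ = ⟪f, LapR hP g⟫_ℂ := by
  rw [LapR_apply, LapR_apply, sum_inner, inner_sum]
  apply Finset.sum_congr rfl
  intro i _
  rw [inner_add_left, inner_add_right, cmp_symm_inner _ (mp_sR hP _) (sR_sR _),
    cmp_symm_inner (mp_sR hP (-Pi.single i 1)) (mp_sR hP (Pi.single i 1)) (by
      have := sR_sR (-(Pi.single i 1 : Site d))
      rwa [neg_neg] at this)]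
  ring

/-- left multiplication by the resolvent -/
def LL (z : ℂ) : K P →L[ℂ] K P := pert (DK gL meas_gL) LapK z

/-- right multiplication by the resolvent -/
def RR (hP : ShiftInv P) (z : ℂ) : K P →L[ℂ] K P := pert (DK gR meas_gR) (LapR hP) z

theorem isRes_LL : IsRes (X := K P) LL := isRes_pert (isRes_DK _ _) LapK_symm

theorem isRes_RR (hP : ShiftInv P) : IsRes (X := K P) (RR hP) :=
  isRes_pert (isRes_DK _ _) (LapR_symm hP)

/-! ### commutation relations -/

theorem cmp_DK {g g' : Site d × Cfg d → ℝ} (hg : Measurable g) (hg' : Measurable g')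
    {φ : Site d × Cfg d → Site d × Cfg d} (h : MeasurePreserving φ (QQ P) (QQ P))
    (e : g ∘ φ = g') {z : ℂ} (hz : z.im ≠ 0) (f : K P) :
    cmp φ h (DK g hg z f) = DK g' hg' z (cmp φ h f) := by
  rw [DK_eq hg hz, DK_eq hg' hz]
  apply cmp_mulK
  funext p
  simp only [Function.comp_apply]
  rw [← e]
  rfl

theorem comm_DR_DL {z w : ℂ} (hz : z.im ≠ 0) (hw : w.im ≠ 0) (f : K P) :
    DK gR meas_gR w (DK gL meas_gL z f) = DK gL meas_gL z (DK gR meas_gR w f) := by
  rw [DK_eq meas_gR hw, DK_eq meas_gL hz, DK_eq meas_gL hz, DK_eq meas_gR hw]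
  exact mulK_mulK_comm _ _ _ _ f

theorem comm_DR_LapK {w : ℂ} (hw : w.im ≠ 0) (f : K P) :
    DK gR meas_gR w (LapK f) = LapK (DK gR meas_gR w f) := by
  rw [LapK_apply, LapK_apply, map_sum]
  apply Finset.sum_congr rfl
  intro i _
  rw [map_add, cmp_DK meas_gR meas_gR (mp_sL _) rfl hw, cmp_DK meas_gR meas_gR (mp_sL _) rfl hw]

theorem comm_LapR_DL (hP : ShiftInv P) {z : ℂ} (hz : z.im ≠ 0) (f : K P) :
    LapR hP (DK gL meas_gL z f) = DK gL meas_gL z (LapR hP f) := by
  rw [LapR_apply, LapR_apply, map_sum]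
  apply Finset.sum_congr rfl
  intro i _
  have e : ∀ a : Site d, gL ∘ sR a = gL := by
    intro a; funext p; simp [gL, sR, tau]
  rw [map_add, cmp_DK meas_gL meas_gL (mp_sR hP _) (e _) hz,
    cmp_DK meas_gL meas_gL (mp_sR hP _) (e _) hz]

theorem comm_cmp_sR_sL (hP : ShiftInv P) (a b : Site d) (f : K P) :
    cmp (sR a) (mp_sR hP a) (cmp (sL b) (mp_sL b) f) =
      cmp (sL b) (mp_sL b) (cmp (sR a) (mp_sR hP a) f) := by
  rw [cmp_cmp (sR a) (sL b) (sL b ∘ sR a) _ _ ((mp_sL b).comp (mp_sR hP a)) rfl,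
    cmp_cmp (sL b) (sR a) (sL b ∘ sR a) _ _ ((mp_sL b).comp (mp_sR hP a)) (by
      funext p; simp [sL, sR]; abel)]

theorem comm_cmp_sR_LapK (hP : ShiftInv P) (a : Site d) (f : K P) :
    cmp (sR a) (mp_sR hP a) (LapK f) = LapK (cmp (sR a) (mp_sR hP a) f) := by
  rw [LapK_apply, LapK_apply, map_sum]
  apply Finset.sum_congr rfl
  intro i _
  rw [map_add, comm_cmp_sR_sL hP, comm_cmp_sR_sL hP]

theorem comm_LapR_LapK (hP : ShiftInv P) (f : K P) :
    LapR hP (LapK f) = LapK (LapR hP f) := by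
  rw [LapR_apply, LapR_apply, map_sum]
  apply Finset.sum_congr rfl
  intro i _
  rw [map_add, comm_cmp_sR_LapK hP, comm_cmp_sR_LapK hP]

theorem comm_LapR_sL (hP : ShiftInv P) (b : Site d) (f : K P) :
    LapR hP (cmp (sL b) (mp_sL b) f) = cmp (sL b) (mp_sL b) (LapR hP f) := by
  rw [LapR_apply, LapR_apply, map_sum]
  apply Finset.sum_congr rfl
  intro i _
  rw [map_add, comm_cmp_sR_sL hP, comm_cmp_sR_sL hP]

theorem comm_DR_LL {z w : ℂ} (hz : z.im ≠ 0) (hw : w.im ≠ 0) (f : K P) :
    DK gR meas_gR w (LL z f) = LL z (DK gR meas_gR w f) :=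
  comm_pert (isRes_DK _ _) LapK_symm hz (comm_DR_DL hz hw) (comm_DR_LapK hw) f

theorem comm_LapR_LL (hP : ShiftInv P) {z : ℂ} (hz : z.im ≠ 0) (f : K P) :
    LapR hP (LL z f) = LL z (LapR hP f) :=
  comm_pert (isRes_DK _ _) LapK_symm hz (comm_LapR_DL hP hz) (comm_LapR_LapK hP) f

/-- left and right multiplications commute -/
theorem comm_LL_RR (hP : ShiftInv P) {z w : ℂ} (hz : z.im ≠ 0) (hw : w.im ≠ 0) (f : K P) :
    LL z (RR hP w f) = RR hP w (LL z f) :=
  comm_pert (isRes_DK _ _) (LapR_symm hP) hw (fun g => (comm_DR_LL hz hw g).symm)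
    (fun g => (comm_LapR_LL hP hz g).symm) f

theorem comm_DL_RR (hP : ShiftInv P) {z w : ℂ} (hz : z.im ≠ 0) (hw : w.im ≠ 0) (f : K P) :
    DK gL meas_gL z (RR hP w f) = RR hP w (DK gL meas_gL z f) :=
  comm_pert (isRes_DK _ _) (LapR_symm hP) hw (fun g => (comm_DR_DL hz hw g).symm)
    (fun g => (comm_LapR_DL hP hz g).symm) f

theorem comm_LapK_RR (hP : ShiftInv P) {w : ℂ} (hw : w.im ≠ 0) (f : K P) :
    LapK (RR hP w f) = RR hP w (LapK f) :=
  comm_pert (isRes_DK _ _) (LapR_symm hP) hw (fun g => (comm_DR_LapK hw g).symm)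
    (fun g => (comm_LapR_LapK hP g).symm) f

theorem comm_sL_RR (hP : ShiftInv P) (b : Site d) {w : ℂ} (hw : w.im ≠ 0) (f : K P) :
    cmp (sL b) (mp_sL b) (RR hP w f) = RR hP w (cmp (sL b) (mp_sL b) f) :=
  comm_pert (B := (cmp (sL b) (mp_sL b)).toContinuousLinearMap)
    (isRes_DK _ _) (LapR_symm hP) hw
    (fun g => cmp_DK meas_gR meas_gR (mp_sL b) rfl hw g)
    (fun g => (comm_LapR_sL hP b g).symm) f

/-! ### transposition -/

/-- transposition -/
def TT (hP : ShiftInv P) : K P →ₗᵢ[ℂ] K P := cmp th (mp_th hP)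

theorem TT_TT (hP : ShiftInv P) (f : K P) : TT hP (TT hP f) = f := by
  unfold TT
  rw [cmp_cmp th th id _ _ (MeasurePreserving.id _) (by
    funext p
    simp only [th, Function.comp_apply, tau_tau, neg_neg, neg_add_cancel, tau_zero, id_eq]),
    cmp_id id _ rfl]

theorem TT_inner (hP : ShiftInv P) (f g : K P) : ⟪TT hP f, g⟫_ℂ = ⟪f, TT hP g⟫_ℂ := by
  rw [← (TT hP).inner_map_map, TT_TT]

theorem TT_sL (hP : ShiftInv P) (a : Site d) (f : K P) :
    TT hP (cmp (sL a) (mp_sL a) f) = cmp (sR a) (mp_sR hP a) (TT hP f) := by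
  unfold TT
  rw [cmp_cmp th (sL a) (sL a ∘ th) _ _ ((mp_sL a).comp (mp_th hP)) rfl,
    cmp_cmp (sR a) th (sL a ∘ th) _ _ ((mp_sL a).comp (mp_th hP)) (by
      funext p
      simp only [sL, sR, th, Function.comp_apply, tau_tau]
      refine Prod.ext ?_ ?_
      · simp only [neg_sub]; abel
      · simp only [sub_add_cancel])]

theorem TT_LapK (hP : ShiftInv P) (f : K P) : TT hP (LapK f) = LapR hP (TT hP f) := by
  rw [LapK_apply, LapR_apply, map_sum]
  apply Finset.sum_congr rfl
  intro i _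
  rw [map_add, TT_sL, TT_sL]

theorem TT_DL (hP : ShiftInv P) {z : ℂ} (hz : z.im ≠ 0) (f : K P) :
    TT hP (DK gL meas_gL z f) = DK gR meas_gR z (TT hP f) := by
  unfold TT
  apply cmp_DK meas_gL meas_gR _ _ hz
  funext p
  simp [gL, gR, th, tau]

theorem TT_LL (hP : ShiftInv P) {z : ℂ} (hz : z.im ≠ 0) (f : K P) :
    TT hP (LL z f) = RR hP z (TT hP f) := by
  apply pert_unique (isRes_DK _ _) (LapR_symm hP) hz
  rw [← TT_LapK, ← TT_DL hP hz, ← TT_DL hP hz, ← map_add]
  congr 1
  exact pert_apply (isRes_DK _ _) LapK_symm hz f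

theorem TT_RR (hP : ShiftInv P) {z : ℂ} (hz : z.im ≠ 0) (f : K P) :
    TT hP (RR hP z f) = LL z (TT hP f) := by
  have h := TT_LL hP hz (TT hP f)
  rw [TT_TT] at h
  rw [← h, TT_TT]

/-! ### complex conjugation -/

theorem star_coe (f : K P) : (star f : K P) =ᵐ[QQ P] fun p => conj (f p) := Lp.coeFn_star f

theorem star_add' (f g : K P) : (star (f + g) : K P) = star f + star g := by
  apply Lp.ext
  filter_upwards [star_coe (f + g), Lp.coeFn_add f g, Lp.coeFn_add (star f : K P) (star g),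
    star_coe f, star_coe g] with p e1 e2 e3 e4 e5
  rw [e1, e2, e3, Pi.add_apply, Pi.add_apply, e4, e5, map_add]

theorem star_neg' (f : K P) : (star (-f) : K P) = -star f := by
  apply Lp.ext
  filter_upwards [star_coe (-f), Lp.coeFn_neg f, Lp.coeFn_neg (star f : K P), star_coe f]
    with p e1 e2 e3 e4
  rw [e1, e2, e3, Pi.neg_apply, Pi.neg_apply, e4, map_neg]

theorem star_sub' (f g : K P) : (star (f - g) : K P) = star f - star g := by
  rw [sub_eq_add_neg, star_add', star_neg', ← sub_eq_add_neg]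

theorem star_smul' (c : ℂ) (f : K P) : (star (c • f) : K P) = conj c • star f := by
  apply Lp.ext
  filter_upwards [star_coe (c • f), Lp.coeFn_smul c f, Lp.coeFn_smul (conj c) (star f : K P),
    star_coe f] with p e1 e2 e3 e4
  rw [e1, e2, e3, Pi.smul_apply, Pi.smul_apply, e4, smul_eq_mul, smul_eq_mul, map_mul]

theorem star_zero' : (star (0 : K P) : K P) = 0 := by
  have := star_sub' (0 : K P) 0
  simpa using this

theorem star_sum' {ι : Type*} (s : Finset ι) (F : ι → K P) :
    (star (∑ i ∈ s, F i) : K P) = ∑ i ∈ s, star (F i) := by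
  classical
  induction s using Finset.induction_on with
  | empty => simp [star_zero']
  | insert a s ha ih => rw [Finset.sum_insert ha, Finset.sum_insert ha, star_add', ih]

theorem star_inner (f g : K P) : ⟪(star f : K P), star g⟫_ℂ = conj ⟪f, g⟫_ℂ := by
  rw [L2.inner_def, L2.inner_def, ← integral_conj]
  apply integral_congr_ae
  filter_upwards [star_coe f, star_coe g] with p e1 e2
  rw [e1, e2, RCLike.inner_apply, RCLike.inner_apply, map_mul]

theorem star_norm (f : K P) : ‖(star f : K P)‖ = ‖f‖ := by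
  have h := star_inner f f
  rw [inner_self_eq_norm_sq_to_K, inner_self_eq_norm_sq_to_K] at h
  have h2 : ‖(star f : K P)‖ ^ 2 = ‖f‖ ^ 2 := by
    simp only [map_pow, Complex.coe_algebraMap, Complex.conj_ofReal] at h
    exact_mod_cast h
  have h3 := norm_nonneg (star f : K P)
  have h4 := norm_nonneg f
  nlinarith [sq_nonneg (‖(star f : K P)‖ - ‖f‖)]

theorem star_star' (f : K P) : (star (star f) : K P) = f := star_star f

theorem star_cmp {φ : Site d × Cfg d → Site d × Cfg d} (h : MeasurePreserving φ (QQ P) (QQ P))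
    (f : K P) : (star (cmp φ h f) : K P) = cmp φ h (star f) := by
  apply Lp.ext
  have h2 := h.quasiMeasurePreserving.ae_eq_comp (star_coe f)
  filter_upwards [star_coe (cmp φ h f), cmp_coe φ h f, cmp_coe φ h (star f), h2]
    with p e1 e2 e3 e4
  rw [e1, e2, e3, e4]
  rfl

theorem star_DK {g : Site d × Cfg d → ℝ} (hg : Measurable g) {z : ℂ} (hz : z.im ≠ 0) (f : K P) :
    (star (DK g hg z f) : K P) = DK g hg (conj z) (star f) := by
  apply Lp.ext
  filter_upwards [star_coe (DK g hg z f), DK_coe hg hz f, DK_coe hg (conj_im_ne hz) (star f),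
    star_coe f] with p e1 e2 e3 e4
  rw [e1, e2, e3, e4, map_mul, map_inv₀, map_sub, Complex.conj_ofReal]

theorem star_LapK (f : K P) : (star (LapK f) : K P) = LapK (star f) := by
  rw [LapK_apply, LapK_apply, star_sum']
  apply Finset.sum_congr rfl
  intro i _
  rw [star_add', star_cmp, star_cmp]

theorem star_LapR (hP : ShiftInv P) (f : K P) :
    (star (LapR hP f) : K P) = LapR hP (star f) := by
  rw [LapR_apply, LapR_apply, star_sum']
  apply Finset.sum_congr rfl
  intro i _
  rw [star_add', star_cmp, star_cmp]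

theorem star_LL {z : ℂ} (hz : z.im ≠ 0) (f : K P) :
    (star (LL z f) : K P) = LL (conj z) (star f) := by
  apply pert_unique (isRes_DK _ _) LapK_symm (conj_im_ne hz)
  rw [← star_LapK, ← star_DK meas_gL hz, ← star_DK meas_gL hz, ← star_add']
  congr 1
  exact pert_apply (isRes_DK _ _) LapK_symm hz f

theorem star_RR (hP : ShiftInv P) {z : ℂ} (hz : z.im ≠ 0) (f : K P) :
    (star (RR hP z f) : K P) = RR hP (conj z) (star f) := by
  apply pert_unique (isRes_DK _ _) (LapR_symm hP) (conj_im_ne hz)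
  rw [← star_LapR, ← star_DK meas_gR hz, ← star_DK meas_gR hz, ← star_add']
  congr 1
  exact pert_apply (isRes_DK _ _) (LapR_symm hP) hz f

/-! ### the identity and the velocity -/

/-- the indicator of `x = 0` -/
def e0 : K P := indicatorConstLp 2 (s := ({0} : Set (Site d)) ×ˢ (Set.univ : Set (Cfg d)))
  ((measurableSet_singleton 0).prod MeasurableSet.univ) (by
    rw [Measure.prod_prod, Measure.count_singleton, measure_univ, one_mul]
    exact ENNReal.one_ne_top) 1

theorem e0_coe : (e0 : K P) =ᵐ[QQ P] fun p => if p.1 = 0 then 1 else 0 := by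
  have h := indicatorConstLp_coeFn (p := 2)
    (s := ({0} : Set (Site d)) ×ˢ (Set.univ : Set (Cfg d)))
    (hs := (measurableSet_singleton 0).prod MeasurableSet.univ) (hμs := (by
    rw [Measure.prod_prod, Measure.count_singleton, measure_univ, one_mul]
    exact ENNReal.one_ne_top : (QQ P) _ ≠ ∞)) (c := (1:ℂ))
  refine h.trans (Eventually.of_forall fun p => ?_)
  simp only [Set.indicator, Set.mem_prod, Set.mem_singleton_iff, Set.mem_univ, and_true]

theorem cmp_e0 {φ ψ : Site d × Cfg d → Site d × Cfg d} (h : MeasurePreserving φ (QQ P) (QQ P))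
    (h' : MeasurePreserving ψ (QQ P) (QQ P)) (e : ∀ p, (φ p).1 = 0 ↔ (ψ p).1 = 0) :
    cmp φ h e0 = cmp ψ h' e0 := by
  apply Lp.ext
  have h1 := h.quasiMeasurePreserving.ae_eq_comp (e0_coe (P := P))
  have h2 := h'.quasiMeasurePreserving.ae_eq_comp (e0_coe (P := P))
  filter_upwards [cmp_coe φ h e0, h1, cmp_coe ψ h' e0, h2] with p e1 e2 e3 e4
  rw [e1, e2, e3, e4]
  simp only [Function.comp_apply]
  by_cases hp : (φ p).1 = 0
  · rw [if_pos hp, if_pos ((e p).1 hp)]
  · rw [if_neg hp, if_neg fun h => hp ((e p).2 h)]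

theorem TT_e0 (hP : ShiftInv P) : TT hP e0 = e0 := by
  unfold TT
  rw [cmp_e0 (mp_th hP) (MeasurePreserving.id _) (by intro p; simp [th]), cmp_id id _ rfl]

theorem star_e0 : (star (e0 : K P) : K P) = e0 := by
  apply Lp.ext
  filter_upwards [star_coe (e0 : K P), e0_coe (P := P)] with p e1 e2
  rw [e1, e2]
  split_ifs <;> simp

theorem DK_e0 {z : ℂ} (hz : z.im ≠ 0) :
    DK gL meas_gL z (e0 : K P) = DK gR meas_gR z e0 := by
  apply Lp.ext
  filter_upwards [DK_coe meas_gL hz (e0 : K P), DK_coe meas_gR hz (e0 : K P), e0_coe (P := P)]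
    with p e1 e2 e3
  rw [e1, e2, e3]
  by_cases hp : p.1 = 0
  · simp [hp, gL, gR]
  · simp [hp]

theorem LapK_e0 (hP : ShiftInv P) : LapK (e0 : K P) = LapR hP e0 := by
  rw [LapK_apply, LapR_apply]
  apply Finset.sum_congr rfl
  intro i _
  rw [add_comm]
  congr 1
  apply cmp_e0
  intro p
  simp only [sL, sR, sub_neg_eq_add]

theorem RR_e0 (hP : ShiftInv P) {z : ℂ} (hz : z.im ≠ 0) : RR hP z (e0 : K P) = LL z e0 := by
  apply pert_unique (isRes_DK _ _) LapK_symm hz
  rw [comm_LapK_RR hP hz, comm_DL_RR hP hz hz, LapK_e0 hP, ← comm_LapR_DL hP hz, DK_e0 hz]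
  have h := pert_apply'' (isRes_DK gR meas_gR) (LapR_symm hP) hz (e0 : K P)
  change RR hP z (LapR hP (DK gR meas_gR z e0)) = _ - RR hP z e0 at h
  rw [h]
  abel

/-- commutator of the Laplacian with a coordinate, acting from the left -/
def WK (i : Fin d) : K P →L[ℂ] K P :=
  (cmp (sL (Pi.single i 1)) (mp_sL _)).toContinuousLinearMap -
    (cmp (sL (-Pi.single i 1)) (mp_sL _)).toContinuousLinearMap

theorem WK_apply (i : Fin d) (f : K P) :
    WK i f = cmp (sL (Pi.single i 1)) (mp_sL _) f - cmp (sL (-Pi.single i 1)) (mp_sL _) f := rfl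

/-- the velocity -/
def ww (i : Fin d) : K P := WK i e0

theorem RR_ww (hP : ShiftInv P) (i : Fin d) {z : ℂ} (hz : z.im ≠ 0) :
    RR hP z (ww i : K P) = WK i (LL z e0) := by
  unfold ww
  rw [WK_apply, map_sub, ← comm_sL_RR hP _ hz, ← comm_sL_RR hP _ hz, RR_e0 hP hz]
  rfl

theorem TT_ww (hP : ShiftInv P) (i : Fin d) : TT hP (ww i : K P) = -ww i := by
  unfold ww
  rw [WK_apply, map_sub, TT_sL, TT_sL, TT_e0, neg_sub]
  congr 1
  apply cmp_e0
  intro p
  simp only [sL, sR, sub_neg_eq_add]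

theorem star_ww (i : Fin d) : (star (ww i : K P) : K P) = ww i := by
  unfold ww
  rw [WK_apply, star_sub', star_cmp, star_cmp, star_e0]

end Pool.Agent.Helper54.Bal
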