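import Pool.Agent.Helper54_Ballistic.Planch
import Pool.Agent.Helper17_Anderson.Ell2

/-!
# The resolvent of `Δ + V` on `ℓ²(ℤ^d)` for an arbitrary real potential `V`
-/

set_option autoImplicit false
set_option linter.unusedSectionVars false

open scoped InnerProductSpace ComplexConjugate Topology ENNReal
open MeasureTheory Filter

noncomputable section

namespace Pool.Agent.Helper54.Bal

open Pool.Agent.Anderson

variable {d : ℕ}

/-! ### multiplication operators -/

theorem mul_mem {m : Site d → ℂ} {M : ℝ} (hm : ∀ x, ‖m x‖ ≤ M) (f : L2 d) :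
    Memℓp (fun x => m x * f x) 2 := by
  rw [memℓp_iff]
  refine Summable.of_nonneg_of_le (fun x => by positivity) (fun x => ?_)
    ((L2.summable_sq f).mul_left (M ^ 2))
  rw [norm_mul, mul_pow]
  have := hm x
  gcongr

/-- multiplication by a bounded function -/
def mulOp (m : Site d → ℂ) (M : ℝ) (hm : ∀ x, ‖m x‖ ≤ M) : L2 d →L[ℂ] L2 d :=
  LinearMap.mkContinuous
    { toFun := fun f => ⟨fun x => m x * f x, mul_mem hm f⟩
      map_add' := fun f g => by
        ext x
        exact mul_add _ _ _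
      map_smul' := fun c f => by
        ext x
        simp
        ring } |M| (by
    intro f
    have h0 : ∀ a b : ℝ, 0 ≤ a → 0 ≤ b → a ^ 2 ≤ b ^ 2 → a ≤ b := fun a b ha hb h => by
      nlinarith [sq_nonneg (a - b)]
    refine h0 _ _ (norm_nonneg _) (by positivity) ?_
    rw [L2.norm_sq, mul_pow, L2.norm_sq f, ← tsum_mul_left]
    refine Summable.tsum_le_tsum (fun x => ?_) ?_ ((L2.summable_sq f).mul_left _)
    · change ‖m x * f x‖ ^ 2 ≤ _
      rw [norm_mul, mul_pow, sq_abs]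
      have h1 := hm x
      have h2 := norm_nonneg (m x)
      gcongr
    · exact (memℓp_iff _).1 (mul_mem hm f))

@[simp] theorem mulOp_apply (m : Site d → ℂ) (M : ℝ) (hm : ∀ x, ‖m x‖ ≤ M) (f : L2 d)
    (x : Site d) : mulOp m M hm f x = m x * f x := rfl

/-- dominated convergence for multiplication operators -/
theorem tendsto_mulOp {α : Type*} {l : Filter α} {m : α → Site d → ℂ} {M : ℝ}
    (hm : ∀ a x, ‖m a x‖ ≤ M) {m0 : Site d → ℂ} (hm0 : ∀ x, ‖m0 x‖ ≤ M)
    (h : ∀ x, Tendsto (fun a => m a x) l (𝓝 (m0 x))) (k : L2 d) :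
    Tendsto (fun a => mulOp (m a) M (hm a) k) l (𝓝 (mulOp m0 M hm0 k)) := by
  rw [tendsto_iff_norm_sub_tendsto_zero]
  have h1 : Tendsto (fun a => ‖mulOp (m a) M (hm a) k - mulOp m0 M hm0 k‖ ^ 2) l (𝓝 0) := by
    have e : ∀ a, ‖mulOp (m a) M (hm a) k - mulOp m0 M hm0 k‖ ^ 2 =
        ∑' x, ‖(m a x - m0 x) * k x‖ ^ 2 := by
      intro a
      rw [L2.norm_sq]
      apply tsum_congr
      intro x
      rw [lp.coeFn_sub, Pi.sub_apply, mulOp_apply, mulOp_apply, sub_mul]
    simp only [e]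
    have h0 : (0:ℝ) = ∑' _ : Site d, (0:ℝ) := by simp
    rw [h0]
    refine tendsto_tsum_of_dominated_convergence (bound := fun x => (2 * M) ^ 2 * ‖k x‖ ^ 2)
      ((L2.summable_sq k).mul_left _) ?_ ?_
    · intro x
      have h2 : Tendsto (fun a => (m a x - m0 x) * k x) l (𝓝 ((m0 x - m0 x) * k x)) :=
        ((h x).sub_const _).mul_const _
      rw [sub_self, zero_mul] at h2
      have := h2.norm.pow 2
      simpa using this
    · refine Eventually.of_forall fun a x => ?_
      rw [norm_mul, mul_pow, norm_mul, norm_pow, norm_norm, norm_pow, norm_norm]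
      have h3 : ‖m a x - m0 x‖ ≤ 2 * M := by
        refine (norm_sub_le _ _).trans ?_
        linarith [hm a x, hm0 x]
      gcongr
  have h2 := h1.sqrt
  simpa [Real.sqrt_sq (norm_nonneg _)] using h2

/-! ### the resolvent -/

theorem norm_inv_le {z : ℂ} (hz : z.im ≠ 0) (a : ℝ) : ‖((a : ℂ) - z)⁻¹‖ ≤ |z.im|⁻¹ := by
  rw [norm_inv]
  have h : |z.im| ≤ ‖(a : ℂ) - z‖ := by
    have := Complex.abs_im_le_norm ((a : ℂ) - z)
    simpa using this
  exact inv_anti₀ (abs_pos.2 hz) h

/-- multiplication by `1/(V - z)` -/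
def DV (V : Site d → ℝ) (z : ℂ) : L2 d →L[ℂ] L2 d :=
  if hz : z.im ≠ 0 then
    mulOp (fun x => ((V x : ℂ) - z)⁻¹) |z.im|⁻¹ (fun x => norm_inv_le hz (V x))
  else 0

theorem DV_apply {V : Site d → ℝ} {z : ℂ} (hz : z.im ≠ 0) (f : L2 d) (x : Site d) :
    DV V z f x = ((V x : ℂ) - z)⁻¹ * f x := by
  unfold DV
  rw [dif_pos hz, mulOp_apply]

theorem real_sub_ne {z : ℂ} (hz : z.im ≠ 0) (a : ℝ) : (a : ℂ) - z ≠ 0 := by
  intro h
  apply hz
  have := congrArg Complex.im h
  simpa using this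

theorem isRes_DV (V : Site d → ℝ) : IsRes (DV V) where
  ident z w hz hw := by
    ext f x
    change (DV V z f - DV V w f) x = ((z - w) • DV V z (DV V w f)) x
    rw [lp.coeFn_sub, Pi.sub_apply, lp.coeFn_smul, Pi.smul_apply, DV_apply hz, DV_apply hz,
      DV_apply hw, smul_eq_mul]
    have h1 := real_sub_ne hz (V x)
    have h2 := real_sub_ne hw (V x)
    field_simp
    ring
  adj z hz f g := by
    rw [lp.inner_eq_tsum, lp.inner_eq_tsum]
    apply tsum_congr
    intro x
    rw [RCLike.inner_apply, RCLike.inner_apply, DV_apply hz, DV_apply (conj_im_ne hz), map_mul,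
      map_inv₀, map_sub, Complex.conj_ofReal]
    ring
  inj z hz f h := by
    ext x
    have h1 := congrArg (fun g : L2 d => g x) h
    simp only at h1
    rw [DV_apply hz] at h1
    simpa [real_sub_ne hz (V x)] using h1

/-- the resolvent `(Δ + V - z)⁻¹` -/
def G (V : Site d → ℝ) (z : ℂ) : L2 d →L[ℂ] L2 d := pert (DV V) (Lap d) z

theorem isRes_G (V : Site d → ℝ) : IsRes (G V) := isRes_pert (isRes_DV V) inner_Lap

/-- the resolvent equation -/
theorem G_eq {V : Site d → ℝ} {z : ℂ} (hz : z.im ≠ 0) (f : L2 d) (x : Site d) :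
    lap (G V z f) x + ((V x : ℂ) - z) * G V z f x = f x := by
  have h := congrArg (fun g : L2 d => g x) (pert_apply (isRes_DV V) inner_Lap hz f)
  simp only [lp.coeFn_add, Pi.add_apply] at h
  rw [DV_apply hz, DV_apply hz, Lap_apply] at h
  have h1 := real_sub_ne hz (V x)
  change G V z f x + ((V x : ℂ) - z)⁻¹ * lap (G V z f) x = _ at h
  have h2 := congrArg (fun c => ((V x : ℂ) - z) * c) h
  simp only [mul_add] at h2
  rw [← mul_assoc, ← mul_assoc, mul_inv_cancel₀ h1, one_mul, one_mul] at h2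
  rw [← h2]
  ring

/-- uniqueness of the solution of the resolvent equation in `ℓ²` -/
theorem G_unique {V : Site d → ℝ} {z : ℂ} (hz : z.im ≠ 0) {f p : L2 d}
    (h : ∀ x, lap p x + ((V x : ℂ) - z) * p x = f x) : p = G V z f := by
  apply pert_unique (isRes_DV V) inner_Lap hz
  ext x
  rw [lp.coeFn_add, Pi.add_apply, DV_apply hz, DV_apply hz, Lap_apply, ← h x]
  have h1 := real_sub_ne hz (V x)
  field_simp
  ring

/-! ### complex conjugation -/

theorem lap_conj (f : L2 d) (x : Site d) : lap (fun y => conj (f y)) x = conj (lap f x) := by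
  unfold lap
  simp [map_sum]

theorem star_apply (f : L2 d) (x : Site d) : (star f) x = conj (f x) := rfl

theorem G_star {V : Site d → ℝ} {z : ℂ} (hz : z.im ≠ 0) (f : L2 d) :
    G V (conj z) (star f) = star (G V z f) := by
  symm
  apply G_unique (conj_im_ne hz)
  intro x
  have h := congrArg conj (G_eq (V := V) hz f x)
  rw [map_add, map_mul, map_sub, Complex.conj_ofReal, ← lap_conj] at h
  exact h

/-! ### change of the potential at the origin -/

theorem G_update {V : Site d → ℝ} {z : ℂ} (hz : z.im ≠ 0) (s : ℝ) (f : L2 d) :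
    G V z f = G (Function.update V 0 s) z f +
      (((s : ℂ) - V 0) * G (Function.update V 0 s) z f 0) • G V z (del 0) := by
  symm
  apply G_unique hz
  intro x
  set V' := Function.update V 0 s with hV'
  have h1 := G_eq (V := V') hz f x
  have h2 := G_eq (V := V) hz (del (0 : Site d)) x
  set c : ℂ := ((s : ℂ) - V 0) * G V' z f 0 with hc
  have hl : lap (⇑(G V' z f + c • G V z (del 0))) x =
      lap (G V' z f) x + c * lap (G V z (del 0)) x := by
    rw [← Lap_apply, ← Lap_apply, ← Lap_apply, map_add, map_smul, lp.coeFn_add, Pi.add_apply,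
      lp.coeFn_smul, Pi.smul_apply, smul_eq_mul]
  rw [hl, lp.coeFn_add, Pi.add_apply, lp.coeFn_smul, Pi.smul_apply, smul_eq_mul]
  have h3 : lap (G V' z f) x + c * lap (G V z (del 0)) x +
      ((V x : ℂ) - z) * (G V' z f x + c * G V z (del 0) x) =
      (lap (G V' z f) x + ((V' x : ℂ) - z) * G V' z f x) +
      ((V x : ℂ) - V' x) * G V' z f x +
      c * (lap (G V z (del 0)) x + ((V x : ℂ) - z) * G V z (del 0) x) := by ring
  rw [h3, h1, h2, del_apply]
  by_cases hx : x = 0
  · subst hx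
    rw [if_pos rfl, hV', Function.update_self, hc, ← hV']
    ring
  · rw [if_neg hx, hV', Function.update_of_ne hx]
    ring

theorem G_update_of_zero {V : Site d → ℝ} {z : ℂ} (hz : z.im ≠ 0) {s : ℝ} {f : L2 d}
    (h : G (Function.update V 0 s) z f 0 = 0) : G V z f = G (Function.update V 0 s) z f := by
  rw [G_update hz s f, h, mul_zero, zero_smul, add_zero]

/-- `m = 1 - t F'`, the factor relating the two Green functions -/
def mf (V : Site d → ℝ) (s : ℝ) (z : ℂ) : ℂ :=
  1 - ((s : ℂ) - V 0) * G (Function.update V 0 s) z (del 0) 0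

theorem G_update_del {V : Site d → ℝ} {z : ℂ} (hz : z.im ≠ 0) (s : ℝ) :
    G (Function.update V 0 s) z (del 0) = mf V s z • G V z (del 0) := by
  have h := G_update (V := V) hz s (del 0)
  unfold mf
  rw [sub_smul, one_smul, eq_sub_iff_add_eq]
  exact h.symm

theorem im_G_del {V : Site d → ℝ} {z : ℂ} (hz : z.im ≠ 0) :
    (G V z (del 0) 0).im = z.im * ‖G V z (del 0)‖ ^ 2 := by
  rw [← (isRes_G V).im_inner hz, inner_del_left]

theorem im_mf {V : Site d → ℝ} {z : ℂ} (hz : z.im ≠ 0) (s : ℝ) :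
    (mf V s z).im = -(s - V 0) * (‖mf V s z‖ ^ 2 * (z.im * ‖G V z (del 0)‖ ^ 2)) := by
  have h1 : (mf V s z).im = -((s - V 0) * (G (Function.update V 0 s) z (del 0) 0).im) := by
    unfold mf
    rw [← Complex.ofReal_sub]
    simp
  rw [h1, im_G_del hz, G_update_del hz, norm_smul, mul_pow]
  ring

/-! ### the commutator with a coordinate -/

/-- `(W_i ψ)(x) = ψ(x + e_i) - ψ(x - e_i)` -/
def Wop (i : Fin d) : L2 d →L[ℂ] L2 d :=
  (shift (Pi.single i 1)).toContinuousLinearMap - (shift (-Pi.single i 1)).toContinuousLinearMap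

theorem Wop_apply (i : Fin d) (f : L2 d) (x : Site d) :
    Wop i f x = f (x + Pi.single i 1) - f (x - Pi.single i 1) := by
  unfold Wop
  rw [_root_.sub_apply, lp.coeFn_sub, Pi.sub_apply]
  rfl

theorem norm_Wop_le (i : Fin d) (f : L2 d) : ‖Wop i f‖ ≤ 2 * ‖f‖ := by
  unfold Wop
  rw [_root_.sub_apply]
  refine (norm_sub_le _ _).trans ?_
  change ‖shift _ f‖ + ‖shift _ f‖ ≤ _
  rw [LinearIsometry.norm_map, LinearIsometry.norm_map]
  linarith

/-- truncated coordinate -/
def chi (n : ℕ) (a : ℤ) : ℝ := max (-(n : ℝ)) (min (n : ℝ) (a : ℝ))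

theorem chi_abs_le (n : ℕ) (a : ℤ) : |chi n a| ≤ n := by
  unfold chi
  rw [abs_le]
  constructor
  · exact le_max_left _ _
  · refine max_le ?_ (min_le_left _ _)
    have : (0:ℝ) ≤ n := Nat.cast_nonneg n
    linarith

theorem chi_zero (n : ℕ) : chi n 0 = 0 := by
  unfold chi
  have : (0:ℝ) ≤ n := Nat.cast_nonneg n
  simp [this]

theorem chi_sub_le (n : ℕ) (a b : ℤ) : |chi n a - chi n b| ≤ |(a : ℝ) - b| := by
  unfold chi
  have h1 := abs_max_sub_max_le_abs (min (n : ℝ) (a : ℝ)) (min (n : ℝ) (b : ℝ)) (-(n : ℝ))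
  have h2 := abs_min_sub_min_le_max (n : ℝ) (a : ℝ) (n : ℝ) (b : ℝ)
  rw [sub_self, abs_zero, max_eq_right (abs_nonneg _)] at h2
  rw [max_comm (-(n:ℝ)), max_comm (-(n:ℝ))]
  exact h1.trans h2

theorem chi_eventually (a : ℤ) : ∀ᶠ n : ℕ in atTop, chi n a = a := by
  filter_upwards [eventually_ge_atTop a.natAbs] with n hn
  unfold chi
  have h1 : |(a : ℝ)| ≤ n := by
    have : ((a.natAbs : ℕ) : ℝ) = |(a : ℝ)| := by
      rw [Nat.cast_natAbs]; simp
    rw [← this]
    exact_mod_cast hn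
  rw [abs_le] at h1
  rw [min_eq_right h1.2, max_eq_right h1.1]

theorem X_G {V : Site d → ℝ} {z : ℂ} (hz : z.im ≠ 0) (i : Fin d) (x : Site d) :
    G V z (Wop i (G V z (del 0))) x = (x i : ℂ) * G V z (del 0) x := by
  set g := G V z (del 0) with hg
  -- the truncated functions
  have hb : ∀ n : ℕ, ∀ y : Site d, ‖((chi n (y i) : ℝ) : ℂ)‖ ≤ n := fun n y => by
    rw [Complex.norm_real]; exact chi_abs_le n _
  set h : ℕ → L2 d := fun n => mulOp (fun y => ((chi n (y i) : ℝ) : ℂ)) n (hb n) g with hh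
  have hp : ∀ n : ℕ, ∀ y : Site d,
      ‖((chi n (y i + 1) - chi n (y i) : ℝ) : ℂ)‖ ≤ 1 := fun n y => by
    rw [Complex.norm_real]
    have := chi_sub_le n (y i + 1) (y i)
    simpa using this
  have hm : ∀ n : ℕ, ∀ y : Site d,
      ‖((chi n (y i - 1) - chi n (y i) : ℝ) : ℂ)‖ ≤ 1 := fun n y => by
    rw [Complex.norm_real]
    have := chi_sub_le n (y i - 1) (y i)
    simpa using this
  set r : ℕ → L2 d := fun n =>
    mulOp (fun y => ((chi n (y i + 1) - chi n (y i) : ℝ) : ℂ)) 1 (hp n)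
      (shift (Pi.single i 1) g) +
    mulOp (fun y => ((chi n (y i - 1) - chi n (y i) : ℝ) : ℂ)) 1 (hm n)
      (shift (-Pi.single i 1) g) with hr
  have hG : ∀ n, h n = G V z (r n) := by
    intro n
    apply G_unique hz
    intro y
    have e1 := G_eq (V := V) hz (del (0 : Site d)) y
    rw [← hg] at e1
    have e2 : lap (h n) y = ((chi n (y i) : ℝ) : ℂ) * lap g y + r n y := by
      unfold lap
      have e3 : ∀ j : Fin d, h n (y + Pi.single j 1) + h n (y - Pi.single j 1) =
          ((chi n (y i) : ℝ) : ℂ) * (g (y + Pi.single j 1) + g (y - Pi.single j 1)) +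
          (if j = i then r n y else 0) := by
        intro j
        rw [hh, hr]
        simp only [mulOp_apply, lp.coeFn_add, Pi.add_apply, shift_apply, Pi.sub_apply]
        by_cases hj : j = i
        · subst hj
          rw [if_pos rfl, Pi.single_eq_same, ← sub_eq_add_neg]
          push_cast
          ring
        · rw [if_neg hj, Pi.single_eq_of_ne (Ne.symm hj)]
          simp
          ring
      rw [Finset.sum_congr rfl (fun j _ => e3 j), Finset.sum_add_distrib, ← Finset.mul_sum,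
        Finset.sum_ite_eq' Finset.univ i]
      simp
    have e4 : h n y = ((chi n (y i) : ℝ) : ℂ) * g y := rfl
    rw [e2, e4]
    have e5 : ((chi n (y i) : ℝ) : ℂ) * lap g y + r n y + ((V y : ℂ) - z) *
        (((chi n (y i) : ℝ) : ℂ) * g y) =
        ((chi n (y i) : ℝ) : ℂ) * (lap g y + ((V y : ℂ) - z) * g y) + r n y := by ring
    rw [e5, e1, del_apply]
    by_cases hy : y = 0
    · subst hy
      simp [chi_zero]
    · simp [hy]
  have hlim : Tendsto r atTop (𝓝 (Wop i g)) := by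
    have h1 : Tendsto (fun n : ℕ => mulOp (fun y => ((chi n (y i + 1) - chi n (y i) : ℝ) : ℂ)) 1
        (hp n) (shift (Pi.single i 1) g)) atTop
        (𝓝 (mulOp (fun _ => (1:ℂ)) 1 (by simp) (shift (Pi.single i 1) g))) := by
      apply tendsto_mulOp
      intro y
      apply tendsto_nhds_of_eventually_eq
      filter_upwards [chi_eventually (y i + 1), chi_eventually (y i)] with n e1 e2
      rw [e1, e2]; push_cast; ring
    have h2 : Tendsto (fun n : ℕ => mulOp (fun y => ((chi n (y i - 1) - chi n (y i) : ℝ) : ℂ)) 1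
        (hm n) (shift (-Pi.single i 1) g)) atTop
        (𝓝 (mulOp (fun _ => (-1:ℂ)) 1 (by simp) (shift (-Pi.single i 1) g))) := by
      apply tendsto_mulOp
      intro y
      apply tendsto_nhds_of_eventually_eq
      filter_upwards [chi_eventually (y i - 1), chi_eventually (y i)] with n e1 e2
      rw [e1, e2]; push_cast; ring
    have h3 := h1.add h2
    have h4 : mulOp (fun _ => (1:ℂ)) 1 (by simp) (shift (Pi.single i 1) g) +
        mulOp (fun _ => (-1:ℂ)) 1 (by simp) (shift (-Pi.single i 1) g) = Wop i g := by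
      ext y
      rw [lp.coeFn_add, Pi.add_apply, mulOp_apply, mulOp_apply, Wop_apply, shift_apply,
        shift_apply, ← sub_eq_add_neg]
      ring
    rw [h4] at h3
    exact h3
  have hlim2 : Tendsto h atTop (𝓝 (G V z (Wop i g))) := by
    have := ((G V z).continuous.tendsto (Wop i g)).comp hlim
    refine this.congr fun n => (hG n).symm
  have hlim3 : Tendsto (fun n => h n x) atTop (𝓝 (G V z (Wop i g) x)) := by
    have hc : Continuous fun f : L2 d => f x := by
      have : (fun f : L2 d => f x) = fun f => ⟪del x, f⟫_ℂ := by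
        funext f; rw [inner_del_left]
      rw [this]
      exact continuous_const.inner continuous_id
    exact (hc.tendsto _).comp hlim2
  have hlim4 : Tendsto (fun n => h n x) atTop (𝓝 ((x i : ℂ) * g x)) := by
    apply tendsto_nhds_of_eventually_eq
    filter_upwards [chi_eventually (x i)] with n e
    change ((chi n (x i) : ℝ) : ℂ) * g x = _
    rw [e]; push_cast; rfl
  exact tendsto_nhds_unique hlim3 hlim4

/-! ### strong continuity -/

theorem continuous_DV {z : ℂ} (hz : z.im ≠ 0) (k : L2 d) :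
    Continuous fun V : Site d → ℝ => DV V z k := by
  rw [continuous_iff_continuousAt]
  intro V0
  have : (fun V : Site d → ℝ => DV V z k) = fun V : Site d → ℝ =>
      mulOp (d := d) (fun x : Site d => ((V x : ℂ) - z)⁻¹) |z.im|⁻¹
        (fun x : Site d => norm_inv_le hz (V x)) k := by
    funext V; unfold DV; rw [dif_pos hz]
  rw [this]
  refine tendsto_mulOp (m := fun (V : Site d → ℝ) x => ((V x : ℂ) - z)⁻¹)
    (m0 := fun x => ((V0 x : ℂ) - z)⁻¹) (M := |z.im|⁻¹) (fun V x => norm_inv_le hz (V x))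
    (fun x => norm_inv_le hz (V0 x)) (fun x => ?_) k
  refine Tendsto.inv₀ ?_ (real_sub_ne hz (V0 x))
  refine Tendsto.sub_const ?_ _
  exact (Complex.continuous_ofReal.comp (continuous_apply x)).tendsto V0

theorem tendsto_G {z : ℂ} (hz : z.im ≠ 0) (f : L2 d) (V0 : Site d → ℝ) :
    Tendsto (fun V : Site d → ℝ => G V z f) (𝓝 V0) (𝓝 (G V0 z f)) := by
  set g := G V0 z f with hg
  have hg' : g = DV V0 z (f - Lap d g) := pert_apply' (isRes_DV V0) inner_Lap hz f
  have key : ∀ V : Site d → ℝ, ‖G V z f - g‖ ≤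
      (1 + ‖Lap d‖ * |z.im|⁻¹) * ‖DV V z (f - Lap d g) - DV V0 z (f - Lap d g)‖ := by
    intro V
    apply pert_key (isRes_DV V) inner_Lap hz
    have h1 := pert_apply (isRes_DV V) inner_Lap hz f
    change G V z f + DV V z (Lap d (G V z f)) = DV V z f at h1
    rw [← hg', map_sub, map_sub, map_sub, ← h1]
    abel
  rw [tendsto_iff_norm_sub_tendsto_zero]
  refine squeeze_zero (fun _ => norm_nonneg _) key ?_
  have h2 : Tendsto (fun V : Site d → ℝ => DV V z (f - Lap d g)) (𝓝 V0)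
      (𝓝 (DV V0 z (f - Lap d g))) := (continuous_DV hz _).tendsto V0
  have h3 := (tendsto_iff_norm_sub_tendsto_zero.1 h2).const_mul (1 + ‖Lap d‖ * |z.im|⁻¹)
  rw [mul_zero] at h3
  exact h3

/-- joint continuity of `(V, E, f) ↦ G_V(E + iη) f` -/
theorem continuous_G {η : ℝ} (hη : η ≠ 0) :
    Continuous fun p : (Site d → ℝ) × ℝ × L2 d => G p.1 (zz η p.2.1) p.2.2 := by
  rw [continuous_iff_continuousAt]
  rintro ⟨V0, E0, f0⟩
  have hz : ∀ E : ℝ, (zz η E).im ≠ 0 := fun E => by simpa using hη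
  rw [ContinuousAt, tendsto_iff_norm_sub_tendsto_zero]
  have key : ∀ p : (Site d → ℝ) × ℝ × L2 d, ‖G p.1 (zz η p.2.1) p.2.2 - G V0 (zz η E0) f0‖ ≤
      |η|⁻¹ * ‖p.2.2 - f0‖ + ‖zz η p.2.1 - zz η E0‖ * (|η|⁻¹ * |η|⁻¹) * ‖f0‖ +
        ‖G p.1 (zz η E0) f0 - G V0 (zz η E0) f0‖ := by
    intro p
    have e : G p.1 (zz η p.2.1) p.2.2 - G V0 (zz η E0) f0 =
        G p.1 (zz η p.2.1) (p.2.2 - f0) + (G p.1 (zz η p.2.1) - G p.1 (zz η E0)) f0 +
        (G p.1 (zz η E0) f0 - G V0 (zz η E0) f0) := by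
      rw [map_sub, _root_.sub_apply]; abel
    rw [e]
    refine (norm_add_le _ _).trans (add_le_add ((norm_add_le _ _).trans (add_le_add ?_ ?_)) le_rfl)
    · have := (isRes_G p.1).norm_le' (hz p.2.1) (p.2.2 - f0)
      rwa [zz_im] at this
    · refine (ContinuousLinearMap.le_opNorm _ _).trans ?_
      gcongr
      have := (isRes_G p.1).sub_norm_le (hz p.2.1) (hz E0)
      rwa [zz_im, zz_im] at this
  refine squeeze_zero (fun _ => norm_nonneg _) key ?_
  have t1 : Tendsto (fun p : (Site d → ℝ) × ℝ × L2 d => |η|⁻¹ * ‖p.2.2 - f0‖)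
      (𝓝 (V0, E0, f0)) (𝓝 0) := by
    have : Continuous fun p : (Site d → ℝ) × ℝ × L2 d => |η|⁻¹ * ‖p.2.2 - f0‖ := by fun_prop
    have h : Tendsto (fun p : (Site d → ℝ) × ℝ × L2 d => |η|⁻¹ * ‖p.2.2 - f0‖)
      (𝓝 (V0, E0, f0)) (𝓝 (|η|⁻¹ * ‖f0 - f0‖)) := this.tendsto (V0, E0, f0)
    rw [sub_self, norm_zero, mul_zero] at h
    exact h
  have t2 : Tendsto (fun p : (Site d → ℝ) × ℝ × L2 d =>
      ‖zz η p.2.1 - zz η E0‖ * (|η|⁻¹ * |η|⁻¹) * ‖f0‖) (𝓝 (V0, E0, f0)) (𝓝 0) := by
    have hc := continuous_zz η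
    have : Continuous fun p : (Site d → ℝ) × ℝ × L2 d =>
      ‖zz η p.2.1 - zz η E0‖ * (|η|⁻¹ * |η|⁻¹) * ‖f0‖ := by fun_prop
    have h : Tendsto (fun p : (Site d → ℝ) × ℝ × L2 d =>
      ‖zz η p.2.1 - zz η E0‖ * (|η|⁻¹ * |η|⁻¹) * ‖f0‖) (𝓝 (V0, E0, f0))
      (𝓝 (‖zz η E0 - zz η E0‖ * (|η|⁻¹ * |η|⁻¹) * ‖f0‖)) := this.tendsto (V0, E0, f0)
    rw [sub_self, norm_zero, zero_mul, zero_mul] at h
    exact h
  have t3 : Tendsto (fun p : (Site d → ℝ) × ℝ × L2 d =>
      ‖G p.1 (zz η E0) f0 - G V0 (zz η E0) f0‖) (𝓝 (V0, E0, f0)) (𝓝 0) := by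
    have h1 : Tendsto (fun p : (Site d → ℝ) × ℝ × L2 d => p.1) (𝓝 (V0, E0, f0)) (𝓝 V0) :=
      continuous_fst.tendsto _
    have h2 := (tendsto_G (hz E0) f0 V0).comp h1
    exact tendsto_iff_norm_sub_tendsto_zero.1 h2
  have h := (t1.add t2).add t3
  rw [add_zero, add_zero] at h
  exact h

end Pool.Agent.Helper54.Bal
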