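import Pool.Agent.Helper54_Ballistic.Cov

/-!
# The ergodic decomposition of the velocity
-/

set_option autoImplicit false
set_option linter.unusedSectionVars false

open scoped InnerProductSpace ComplexConjugate Topology ENNReal
open MeasureTheory Filter

noncomputable section

namespace Pool.Agent.Helper54.Bal

open Pool.Agent.Anderson

theorem conj_zz (η E : ℝ) : conj (zz η E) = zz (-η) E := by
  unfold zz
  simp [map_add, map_mul]

section

variable {X : Type*} [NormedAddCommGroup X] [InnerProductSpace ℂ X] [CompleteSpace X]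
variable {D : ℂ → X →L[ℂ] X} (hD : IsRes D)

include hD

theorem IsRes.integrable_sq' {η : ℝ} (hη : η ≠ 0) (f : X) :
    Integrable (fun E : ℝ => ‖D (zz η E) f‖ ^ 2) := by
  rcases lt_or_gt_of_ne hη with h | h
  · have h1 := hD.integrable_sq (neg_pos.2 h) f
    refine h1.congr (Eventually.of_forall fun E => ?_)
    have := hD.norm_conj (z := zz η E) (by simpa using hη) f
    rw [conj_zz] at this
    simp only [this]
  · exact hD.integrable_sq h f

theorem IsRes.integral_sq' {η : ℝ} (hη : η ≠ 0) (f : X) :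
    ∫ E : ℝ, ‖D (zz η E) f‖ ^ 2 = Real.pi / |η| * ‖f‖ ^ 2 := by
  rcases lt_or_gt_of_ne hη with h | h
  · have h1 := hD.integral_sq (neg_pos.2 h) f
    rw [abs_of_neg h, ← h1]
    refine integral_congr_ae (Eventually.of_forall fun E => ?_)
    have := hD.norm_conj (z := zz η E) (by simpa using hη) f
    rw [conj_zz] at this
    simp only [this]
  · rw [abs_of_pos h]
    exact hD.integral_sq h f

end

variable {d : ℕ} {P : Measure (Cfg d)} [IsProbabilityMeasure P] (hP : ShiftInv P)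

theorem cont_LR {η : ℝ} (hη : η ≠ 0) (u : K P) :
    Continuous fun E : ℝ => LL (zz η E) (RR hP (zz η E) u) := by
  rw [continuous_iff_continuousAt]
  intro E
  have h1 : ContinuousAt (LL (P := P)) (zz η E) :=
    isRes_LL.continuousAt (by simpa using hη)
  have h2 : ContinuousAt (RR hP) (zz η E) := (isRes_RR hP).continuousAt (by simpa using hη)
  have h3 : ContinuousAt (fun z => LL z (RR hP z u)) (zz η E) :=
    h1.clm_apply (h2.clm_apply continuousAt_const)
  exact ContinuousAt.comp (f := zz η) (g := fun z => LL z (RR hP z u)) h3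
    (continuous_zz η).continuousAt

/-- one-sided seminorm -/
def nn (η : ℝ) (u : K P) : ℝ := |η| ^ 3 * ∫ E : ℝ, ‖LL (zz η E) (RR hP (zz η E) u)‖ ^ 2

theorem LR_le {η : ℝ} (hη : η ≠ 0) (u : K P) (E : ℝ) :
    ‖LL (zz η E) (RR hP (zz η E) u)‖ ^ 2 ≤ (|η| ^ 2)⁻¹ * ‖RR hP (zz η E) u‖ ^ 2 := by
  have h := isRes_LL.norm_le' (z := zz η E) (by simpa using hη) (RR hP (zz η E) u)
  rw [zz_im] at h
  calc _ ≤ (|η|⁻¹ * ‖RR hP (zz η E) u‖) ^ 2 := by gcongr
    _ = _ := by rw [mul_pow, inv_pow]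

theorem integrable_LR {η : ℝ} (hη : η ≠ 0) (u : K P) :
    Integrable fun E : ℝ => ‖LL (zz η E) (RR hP (zz η E) u)‖ ^ 2 := by
  refine (((isRes_RR hP).integrable_sq' hη u).const_mul (|η| ^ 2)⁻¹).mono'
    ((cont_LR hP hη u).norm.pow 2).aestronglyMeasurable (Eventually.of_forall fun E => ?_)
  rw [Real.norm_of_nonneg (by positivity)]
  exact LR_le hP hη u E

theorem nn_nonneg (η : ℝ) (u : K P) : 0 ≤ nn hP η u :=
  mul_nonneg (by positivity) (integral_nonneg fun E => by positivity)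

theorem nn_le {η : ℝ} (hη : η ≠ 0) (u : K P) : nn hP η u ≤ Real.pi * ‖u‖ ^ 2 := by
  have h1 : ∫ E : ℝ, ‖LL (zz η E) (RR hP (zz η E) u)‖ ^ 2 ≤
      (|η| ^ 2)⁻¹ * (Real.pi / |η| * ‖u‖ ^ 2) := by
    rw [← (isRes_RR hP).integral_sq' hη u, ← integral_const_mul]
    exact integral_mono (integrable_LR hP hη u)
      (((isRes_RR hP).integrable_sq' hη u).const_mul _) (LR_le hP hη u)
  have h0 : 0 < |η| := abs_pos.2 hη
  unfold nn
  calc _ ≤ |η| ^ 3 * ((|η| ^ 2)⁻¹ * (Real.pi / |η| * ‖u‖ ^ 2)) := by gcongr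
    _ = _ := by field_simp

theorem nn_add_le {η : ℝ} (hη : η ≠ 0) (u v : K P) :
    nn hP η (u + v) ≤ 2 * nn hP η u + 2 * nn hP η v := by
  unfold nn
  have h1 : ∫ E : ℝ, ‖LL (zz η E) (RR hP (zz η E) (u + v))‖ ^ 2 ≤
      2 * (∫ E : ℝ, ‖LL (zz η E) (RR hP (zz η E) u)‖ ^ 2) +
      2 * (∫ E : ℝ, ‖LL (zz η E) (RR hP (zz η E) v)‖ ^ 2) := by
    rw [← integral_const_mul, ← integral_const_mul,
      ← integral_add ((integrable_LR hP hη u).const_mul 2) ((integrable_LR hP hη v).const_mul 2)]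
    refine integral_mono (integrable_LR hP hη _)
      (((integrable_LR hP hη u).const_mul 2).add ((integrable_LR hP hη v).const_mul 2)) ?_
    intro E
    simp only [map_add]
    set a := LL (zz η E) (RR hP (zz η E) u)
    set b := LL (zz η E) (RR hP (zz η E) v)
    have := norm_add_le a b
    have h2 : ‖a + b‖ ^ 2 ≤ (‖a‖ + ‖b‖) ^ 2 := by gcongr
    nlinarith [sq_nonneg (‖a‖ - ‖b‖)]
  calc _ ≤ |η| ^ 3 * (2 * (∫ E : ℝ, ‖LL (zz η E) (RR hP (zz η E) u)‖ ^ 2) +
      2 * (∫ E : ℝ, ‖LL (zz η E) (RR hP (zz η E) v)‖ ^ 2)) := by gcongr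
    _ = _ := by ring

theorem nn_smul (η : ℝ) (c : ℂ) (u : K P) : nn hP η (c • u) = ‖c‖ ^ 2 * nn hP η u := by
  unfold nn
  simp only [map_smul, norm_smul, mul_pow]
  rw [integral_const_mul]
  ring

/-- two-sided seminorm -/
def NN (η : ℝ) (u : K P) : ℝ := nn hP η u + nn hP (-η) u

theorem NN_nonneg (η : ℝ) (u : K P) : 0 ≤ NN hP η u :=
  add_nonneg (nn_nonneg _ _ _) (nn_nonneg _ _ _)

theorem NN_le {η : ℝ} (hη : η ≠ 0) (u : K P) : NN hP η u ≤ 2 * Real.pi * ‖u‖ ^ 2 := by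
  have h1 := nn_le hP hη u
  have h2 := nn_le hP (neg_ne_zero.2 hη) u
  unfold NN
  linarith

theorem NN_add_le {η : ℝ} (hη : η ≠ 0) (u v : K P) :
    NN hP η (u + v) ≤ 2 * NN hP η u + 2 * NN hP η v := by
  have h1 := nn_add_le hP hη u v
  have h2 := nn_add_le hP (neg_ne_zero.2 hη) u v
  unfold NN
  linarith

theorem NN_smul (η : ℝ) (c : ℂ) (u : K P) : NN hP η (c • u) = ‖c‖ ^ 2 * NN hP η u := by
  unfold NN
  rw [nn_smul, nn_smul]
  ring

theorem ev_ne : ∀ᶠ η : ℝ in 𝓝[>] (0:ℝ), η ≠ 0 := by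
  filter_upwards [self_mem_nhdsWithin] with η hη
  exact ne_of_gt hη

/-- the elements with vanishing ballistic weight -/
def ZZ : Submodule ℂ (K P) where
  carrier := {u | Tendsto (fun η => NN hP η u) (𝓝[>] 0) (𝓝 0)}
  zero_mem' := by
    have : ∀ η : ℝ, NN hP η (0 : K P) = 0 := by
      intro η
      have := NN_smul hP η 0 (0 : K P)
      simpa using this
    simp only [Set.mem_ofPred_eq, this]
    exact tendsto_const_nhds
  add_mem' := by
    intro u v hu hv
    simp only [Set.mem_ofPred_eq] at *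
    have h : Tendsto (fun η => 2 * NN hP η u + 2 * NN hP η v) (𝓝[>] 0) (𝓝 0) := by
      simpa using (hu.const_mul 2).add (hv.const_mul 2)
    refine squeeze_zero' (Eventually.of_forall fun η => NN_nonneg hP η _) ?_ h
    filter_upwards [ev_ne] with η hη
    exact NN_add_le hP hη u v
  smul_mem' := by
    intro c u hu
    simp only [Set.mem_ofPred_eq] at *
    simp only [NN_smul]
    simpa using hu.const_mul (‖c‖ ^ 2)

theorem mem_ZZ {u : K P} : u ∈ ZZ hP ↔ Tendsto (fun η => NN hP η u) (𝓝[>] 0) (𝓝 0) := Iff.rfl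

theorem isClosed_ZZ : IsClosed (ZZ hP : Set (K P)) := by
  rw [← closure_subset_iff_isClosed]
  intro u hu
  change u ∈ ZZ hP
  rw [mem_ZZ, Metric.tendsto_nhds]
  intro ε hε
  obtain ⟨v, hv, hd⟩ := Metric.mem_closure_iff.1 hu (Real.sqrt (ε / (16 * Real.pi)))
    (Real.sqrt_pos.2 (by positivity))
  have h1 : Tendsto (fun η => NN hP η v) (𝓝[>] 0) (𝓝 0) := hv
  have h2 : ∀ᶠ η in 𝓝[>] (0:ℝ), NN hP η v < ε / 8 := h1.eventually_lt_const (by positivity)
  filter_upwards [h2, ev_ne] with η h3 hη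
  rw [Real.dist_eq, sub_zero, abs_of_nonneg (NN_nonneg hP η u)]
  have h4 : NN hP η u ≤ 2 * NN hP η v + 2 * NN hP η (u - v) := by
    have := NN_add_le hP hη v (u - v)
    rwa [add_sub_cancel] at this
  have h5 := NN_le hP hη (u - v)
  have h6 : ‖u - v‖ ^ 2 < ε / (16 * Real.pi) := by
    rw [dist_eq_norm] at hd
    have := pow_lt_pow_left₀ hd (norm_nonneg _) two_ne_zero
    rwa [Real.sq_sqrt (by positivity)] at this
  have h7 : 2 * Real.pi * ‖u - v‖ ^ 2 < ε / 8 := by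
    have h8 : 2 * Real.pi * ‖u - v‖ ^ 2 < 2 * Real.pi * (ε / (16 * Real.pi)) := by gcongr
    refine h8.trans_le (le_of_eq ?_)
    field_simp
    norm_num
  linarith

/-- key algebraic identity -/
theorem LR_diff {z w : ℂ} (hz : z.im ≠ 0) (hw : w.im ≠ 0) (hzw : z ≠ w) (f : K P) :
    LL z (RR hP z (LL w f - RR hP w f)) = (z - w)⁻¹ • (RR hP w (LL z f) - LL w (RR hP z f)) := by
  have hne : z - w ≠ 0 := sub_ne_zero.2 hzw
  have h1 : (z - w) • LL z (RR hP z (LL w f)) = RR hP z (LL z f) - RR hP z (LL w f) := by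
    rw [comm_LL_RR hP hz hz, ← map_smul, ← isRes_LL.ident_apply hz hw, map_sub]
  have h2 : (z - w) • LL z (RR hP z (RR hP w f)) = LL z (RR hP z f) - LL z (RR hP w f) := by
    rw [← map_smul, ← (isRes_RR hP).ident_apply hz hw, map_sub]
  have h3 : (z - w) • LL z (RR hP z (LL w f - RR hP w f)) =
      RR hP w (LL z f) - LL w (RR hP z f) := by
    rw [map_sub, map_sub, smul_sub, h1, h2, comm_LL_RR hP hz hz, comm_LL_RR hP hz hw,
      comm_LL_RR hP hw hz]
    abel
  rw [← h3, smul_smul, inv_mul_cancel₀ hne, one_smul]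

theorem nn_diff_le {w : ℂ} (hw : w.im ≠ 0) {η : ℝ} (hη : η ≠ 0) (hη2 : |η| ≤ |w.im| / 2)
    (f : K P) :
    nn hP η (LL w f - RR hP w f) ≤ 16 * Real.pi * ‖f‖ ^ 2 / |w.im| ^ 4 * |η| ^ 2 := by
  have hw0 : 0 < |w.im| := abs_pos.2 hw
  have hη0 : 0 < |η| := abs_pos.2 hη
  have hz : ∀ E : ℝ, (zz η E).im ≠ 0 := fun E => by simpa using hη
  have hdist : ∀ E : ℝ, |w.im| / 2 ≤ ‖zz η E - w‖ := by
    intro E
    have h1 := Complex.abs_im_le_norm (zz η E - w)
    rw [Complex.sub_im, zz_im] at h1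
    have h2 := abs_sub_abs_le_abs_sub w.im η
    rw [abs_sub_comm] at h2
    linarith
  have hpt : ∀ E : ℝ, ‖LL (zz η E) (RR hP (zz η E) (LL w f - RR hP w f))‖ ^ 2 ≤
      8 / |w.im| ^ 4 * (‖LL (zz η E) f‖ ^ 2 + ‖RR hP (zz η E) f‖ ^ 2) := by
    intro E
    have hne : zz η E ≠ w := by
      intro h
      have := hdist E
      rw [h, sub_self, norm_zero] at this
      linarith
    rw [LR_diff hP (hz E) hw hne, norm_smul, norm_inv, mul_pow]
    have h1 : (‖zz η E - w‖⁻¹) ^ 2 ≤ 4 / |w.im| ^ 2 := by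
      have : ‖zz η E - w‖⁻¹ ≤ (|w.im| / 2)⁻¹ := inv_anti₀ (by positivity) (hdist E)
      calc _ ≤ ((|w.im| / 2)⁻¹) ^ 2 := by gcongr
        _ = _ := by field_simp; norm_num
    have h2 : ‖RR hP w (LL (zz η E) f) - LL w (RR hP (zz η E) f)‖ ^ 2 ≤
        2 / |w.im| ^ 2 * (‖LL (zz η E) f‖ ^ 2 + ‖RR hP (zz η E) f‖ ^ 2) := by
      have h3 := (isRes_RR hP).norm_le' hw (LL (zz η E) f)
      have h4 := isRes_LL.norm_le' hw (RR hP (zz η E) f)
      have h5 := norm_sub_le (RR hP w (LL (zz η E) f)) (LL w (RR hP (zz η E) f))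
      set a := ‖LL (zz η E) f‖
      set b := ‖RR hP (zz η E) f‖
      have h6 : ‖RR hP w (LL (zz η E) f) - LL w (RR hP (zz η E) f)‖ ≤ |w.im|⁻¹ * (a + b) := by
        linarith
      calc _ ≤ (|w.im|⁻¹ * (a + b)) ^ 2 := by gcongr
        _ = (|w.im| ^ 2)⁻¹ * (a + b) ^ 2 := by rw [mul_pow, inv_pow]
        _ ≤ (|w.im| ^ 2)⁻¹ * (2 * (a ^ 2 + b ^ 2)) := by
            gcongr
            nlinarith [sq_nonneg (a - b)]
        _ = _ := by field_simp
    calc _ ≤ 4 / |w.im| ^ 2 * (2 / |w.im| ^ 2 *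
          (‖LL (zz η E) f‖ ^ 2 + ‖RR hP (zz η E) f‖ ^ 2)) := by gcongr
      _ = _ := by field_simp; ring
  have hi1 := (isRes_LL (P := P)).integrable_sq' hη f
  have hi2 := (isRes_RR hP).integrable_sq' hη f
  have hint : ∫ E : ℝ, ‖LL (zz η E) (RR hP (zz η E) (LL w f - RR hP w f))‖ ^ 2 ≤
      8 / |w.im| ^ 4 * (Real.pi / |η| * ‖f‖ ^ 2 + Real.pi / |η| * ‖f‖ ^ 2) := by
    calc _ ≤ ∫ E : ℝ, 8 / |w.im| ^ 4 * (‖LL (zz η E) f‖ ^ 2 + ‖RR hP (zz η E) f‖ ^ 2) :=
          integral_mono (integrable_LR hP hη _) ((hi1.add hi2).const_mul _) hpt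
      _ = _ := by
          rw [integral_const_mul, integral_add hi1 hi2, isRes_LL.integral_sq' hη,
            (isRes_RR hP).integral_sq' hη]
  unfold nn
  calc _ ≤ |η| ^ 3 * (8 / |w.im| ^ 4 * (Real.pi / |η| * ‖f‖ ^ 2 + Real.pi / |η| * ‖f‖ ^ 2)) := by
        gcongr
    _ = _ := by field_simp; ring

theorem range_mem_ZZ {w : ℂ} (hw : w.im ≠ 0) (f : K P) : LL w f - RR hP w f ∈ ZZ hP := by
  rw [mem_ZZ]
  have hw0 : 0 < |w.im| := abs_pos.2 hw
  have h0 : Tendsto (fun η : ℝ => 2 * (16 * Real.pi * ‖f‖ ^ 2 / |w.im| ^ 4 * |η| ^ 2)) (𝓝[>] 0)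
      (𝓝 0) := by
    have : Continuous fun η : ℝ => 2 * (16 * Real.pi * ‖f‖ ^ 2 / |w.im| ^ 4 * |η| ^ 2) := by
      fun_prop
    have h := (this.tendsto 0).mono_left (nhdsWithin_le_nhds (s := Set.Ioi 0))
    simpa using h
  refine squeeze_zero' (Eventually.of_forall fun η => NN_nonneg hP η _) ?_ h0
  have hev : ∀ᶠ η : ℝ in 𝓝[>] (0:ℝ), |η| ≤ |w.im| / 2 := by
    have : ∀ᶠ η : ℝ in 𝓝 (0:ℝ), |η| < |w.im| / 2 := by
      have hc : Tendsto (fun η : ℝ => |η|) (𝓝 0) (𝓝 0) := by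
        have := continuous_abs.tendsto (0:ℝ)
        simpa using this
      exact hc.eventually_lt_const (by positivity)
    filter_upwards [this.filter_mono nhdsWithin_le_nhds] with η h
    exact h.le
  filter_upwards [hev, ev_ne] with η h1 hη
  have h2 := nn_diff_le hP hw hη h1 f
  have h3 := nn_diff_le hP hw (neg_ne_zero.2 hη) (by rwa [abs_neg]) f
  rw [abs_neg] at h3
  unfold NN
  linarith

theorem nn_TT {η : ℝ} (hη : η ≠ 0) (u : K P) : nn hP η (TT hP u) = nn hP η u := by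
  have hz : ∀ E : ℝ, (zz η E).im ≠ 0 := fun E => by simpa using hη
  unfold nn
  congr 1
  refine integral_congr_ae (Eventually.of_forall fun E => ?_)
  simp only
  rw [← TT_LL hP (hz E), ← TT_RR hP (hz E), (TT hP).norm_map, comm_LL_RR hP (hz E) (hz E)]

theorem nn_star {η : ℝ} (hη : η ≠ 0) (u : K P) : nn hP η (star u : K P) = nn hP (-η) u := by
  have hz : ∀ E : ℝ, (zz (-η) E).im ≠ 0 := fun E => by simpa using hη
  unfold nn
  rw [abs_neg]
  congr 1
  refine integral_congr_ae (Eventually.of_forall fun E => ?_)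
  simp only
  have e : zz η E = conj (zz (-η) E) := by rw [conj_zz, neg_neg]
  rw [e, ← star_RR hP (hz E), ← star_LL (hz E), star_norm]

theorem TT_mem {u : K P} (hu : u ∈ ZZ hP) : TT hP u ∈ ZZ hP := by
  rw [mem_ZZ] at *
  refine hu.congr' ?_
  filter_upwards [ev_ne] with η hη
  unfold NN
  rw [nn_TT hP hη, nn_TT hP (neg_ne_zero.2 hη)]

theorem star_mem' {u : K P} (hu : u ∈ ZZ hP) : (star u : K P) ∈ ZZ hP := by
  rw [mem_ZZ] at *
  refine hu.congr' ?_
  filter_upwards [ev_ne] with η hη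
  unfold NN
  rw [nn_star hP hη, nn_star hP (neg_ne_zero.2 hη), neg_neg, add_comm]

/-- The ergodic decomposition of the velocity. -/
theorem decomposition (i : Fin d) : ∃ u A : K P, (ww i : K P) = u + A ∧ u ∈ ZZ hP ∧
    (∀ z : ℂ, z.im ≠ 0 → LL z A = RR hP z A) ∧ TT hP A = -A ∧ (star A : K P) = A := by
  have : CompleteSpace (ZZ hP) := (isClosed_ZZ hP).completeSpace_coe
  obtain ⟨u, hu, A, hA, he⟩ := Submodule.exists_add_mem_mem_orthogonal (K := ZZ hP) (ww i : K P)
  have hAo := (Submodule.mem_orthogonal _ _).1 hA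
  refine ⟨u, A, he, hu, ?_, ?_, ?_⟩
  · intro z hz
    have hz' := conj_im_ne hz
    rw [← sub_eq_zero, ← inner_self_eq_zero (𝕜 := ℂ)]
    set g := LL z A - RR hP z A with hg
    have h1 := hAo _ (range_mem_ZZ hP hz' g)
    rw [inner_sub_left, isRes_LL.adj _ hz', (isRes_RR hP).adj _ hz', Complex.conj_conj,
      ← inner_sub_right] at h1
    exact h1
  · have h1 : TT hP A + A ∈ ZZ hP := by
      have h2 : TT hP A + A = -(TT hP u + u) := by
        have h3 := TT_ww hP i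
        rw [he, map_add] at h3
        have : TT hP A = -(u + A) - TT hP u := by rw [← h3]; abel
        rw [this]; abel
      rw [h2]
      exact Submodule.neg_mem _ (Submodule.add_mem _ (TT_mem hP hu) hu)
    have h2 : TT hP A + A ∈ (ZZ hP)ᗮ := by
      refine Submodule.add_mem _ ?_ hA
      rw [Submodule.mem_orthogonal]
      intro v hv
      rw [← TT_inner]
      exact hAo _ (TT_mem hP hv)
    have h3 : TT hP A + A = 0 := by
      rw [← inner_self_eq_zero (𝕜 := ℂ)]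
      exact (Submodule.mem_orthogonal _ _).1 h2 _ h1
    exact eq_neg_of_add_eq_zero_left h3
  · have h1 : (star A : K P) - A ∈ ZZ hP := by
      have h2 : (star A : K P) - A = u - star u := by
        have h3 := star_ww (P := P) i
        rw [he, star_add'] at h3
        have : (star A : K P) = u + A - star u := by rw [← h3]; abel
        rw [this]; abel
      rw [h2]
      exact Submodule.sub_mem _ hu (star_mem' hP hu)
    have h2 : (star A : K P) - A ∈ (ZZ hP)ᗮ := by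
      refine Submodule.sub_mem _ ?_ hA
      rw [Submodule.mem_orthogonal]
      intro v hv
      have h3 := star_inner (star v : K P) A
      rw [star_star'] at h3
      rw [h3, hAo _ (star_mem' hP hv), map_zero]
    have h3 : (star A : K P) - A = 0 := by
      rw [← inner_self_eq_zero (𝕜 := ℂ)]
      exact (Submodule.mem_orthogonal _ _).1 h2 _ h1
    exact sub_eq_zero.1 h3

end Pool.Agent.Helper54.Bal
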