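import Pool.Agent.Helper54_Ballistic.Ell

/-!
# The Schrödinger evolution
-/

set_option autoImplicit false
set_option linter.unusedSectionVars false

open scoped InnerProductSpace ComplexConjugate Topology ENNReal
open MeasureTheory Filter

noncomputable section

namespace Pool.Agent.Helper54.Bal

open Pool.Agent.Anderson

variable {d : ℕ}

/-- `ψ(t) = e^{-itH} δ₀` for `H = Δ + V`: `ψ` is continuous with values in `ℓ²(ℤ^d)`,
`ψ(0) = δ₀`, and `i ψ' = (Δ + V) ψ` at every site. -/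
def IsEvolution (V : Site d → ℝ) (ψ : ℝ → L2 d) : Prop :=
  Continuous ψ ∧ ψ 0 = del 0 ∧
    ∀ t x, HasDerivAt (fun s => ψ s x) (-Complex.I * (lap (ψ t) x + (V x : ℂ) * ψ t x)) t

/-- the coordinate functional -/
def coord (x : Site d) : L2 d →L[ℂ] ℂ := innerSL ℂ (del x)

theorem coord_apply (x : Site d) (f : L2 d) : coord x f = f x := by
  unfold coord
  rw [innerSL_apply_apply, inner_del_left]

theorem norm_phase (t a : ℝ) : ‖Complex.exp (-Complex.I * t * a)‖ ≤ 1 := by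
  rw [Complex.norm_exp]
  simp

/-- multiplication by `exp(-itV)` -/
def U0 (V : Site d → ℝ) (t : ℝ) : L2 d →L[ℂ] L2 d :=
  mulOp (fun x => Complex.exp (-Complex.I * t * V x)) 1 (fun x => norm_phase t (V x))

theorem U0_apply (V : Site d → ℝ) (t : ℝ) (f : L2 d) (x : Site d) :
    U0 V t f x = Complex.exp (-Complex.I * t * V x) * f x := rfl

theorem U0_inner (V : Site d → ℝ) (t : ℝ) (f g : L2 d) : ⟪U0 V t f, U0 V t g⟫_ℂ = ⟪f, g⟫_ℂ := by
  rw [lp.inner_eq_tsum, lp.inner_eq_tsum]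
  apply tsum_congr
  intro x
  rw [RCLike.inner_apply, RCLike.inner_apply, U0_apply, U0_apply, map_mul, ← Complex.exp_conj]
  have : Complex.exp (-Complex.I * t * V x) * Complex.exp (conj (-Complex.I * t * V x)) = 1 := by
    rw [← Complex.exp_add]
    simp
  calc _ = (Complex.exp (-Complex.I * t * V x) * Complex.exp (conj (-Complex.I * t * V x))) *
      (g x * conj (f x)) := by ring
    _ = _ := by rw [this, one_mul]

theorem U0_norm (V : Site d → ℝ) (t : ℝ) (f : L2 d) : ‖U0 V t f‖ = ‖f‖ := by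
  have h := U0_inner V t f f
  rw [inner_self_eq_norm_sq_to_K, inner_self_eq_norm_sq_to_K] at h
  have h2 : ‖U0 V t f‖ ^ 2 = ‖f‖ ^ 2 := by exact_mod_cast h
  have h3 := norm_nonneg (U0 V t f)
  have h4 := norm_nonneg f
  nlinarith [sq_nonneg (‖U0 V t f‖ - ‖f‖)]

theorem U0_U0 (V : Site d → ℝ) (t : ℝ) (f : L2 d) : U0 V t (U0 V (-t) f) = f := by
  ext x
  rw [U0_apply, U0_apply, ← mul_assoc, ← Complex.exp_add]
  have : -Complex.I * t * V x + -Complex.I * ((-t : ℝ) : ℂ) * V x = 0 := by push_cast; ring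
  rw [this, Complex.exp_zero, one_mul]

theorem U0_U0' (V : Site d → ℝ) (t : ℝ) (f : L2 d) : U0 V (-t) (U0 V t f) = f := by
  have := U0_U0 V (-t) f
  rwa [neg_neg] at this

theorem U0_zero (V : Site d → ℝ) (f : L2 d) : U0 V 0 f = f := by
  ext x
  rw [U0_apply]
  simp

theorem continuous_U0 (V : Site d → ℝ) {f : ℝ → L2 d} (hf : Continuous f) {g : ℝ → ℝ}
    (hg : Continuous g) : Continuous fun t => U0 V (g t) (f t) := by
  rw [continuous_iff_continuousAt]
  intro t0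
  rw [ContinuousAt, tendsto_iff_norm_sub_tendsto_zero]
  have key : ∀ t, ‖U0 V (g t) (f t) - U0 V (g t0) (f t0)‖ ≤
      ‖f t - f t0‖ + ‖U0 V (g t) (f t0) - U0 V (g t0) (f t0)‖ := by
    intro t
    have e : U0 V (g t) (f t) - U0 V (g t0) (f t0) =
        U0 V (g t) (f t - f t0) + (U0 V (g t) (f t0) - U0 V (g t0) (f t0)) := by
      rw [map_sub]; abel
    rw [e]
    refine (norm_add_le _ _).trans ?_
    rw [U0_norm]
  refine squeeze_zero (fun _ => norm_nonneg _) key ?_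
  have t1 := tendsto_iff_norm_sub_tendsto_zero.1 (hf.tendsto t0)
  have t2 : Tendsto (fun t => U0 V (g t) (f t0)) (𝓝 t0) (𝓝 (U0 V (g t0) (f t0))) := by
    unfold U0
    apply tendsto_mulOp
    intro x
    have : Continuous fun t => Complex.exp (-Complex.I * (g t : ℂ) * V x) := by fun_prop
    exact this.tendsto t0
  have t3 := tendsto_iff_norm_sub_tendsto_zero.1 t2
  simpa using t1.add t3

section

variable {V : Site d → ℝ} {ψ : ℝ → L2 d}

/-- interaction picture -/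
def cc (V : Site d → ℝ) (ψ : ℝ → L2 d) (t : ℝ) : L2 d := U0 V (-t) (ψ t)

/-- its derivative -/
def bb (V : Site d → ℝ) (ψ : ℝ → L2 d) (t : ℝ) : L2 d :=
  (-Complex.I) • U0 V (-t) (Lap d (ψ t))

theorem continuous_bb (h : Continuous ψ) : Continuous (bb V ψ) := by
  have h1 : Continuous fun t => U0 V (-t) (Lap d (ψ t)) :=
    continuous_U0 V ((Lap d).continuous.comp h) continuous_neg
  have h2 : Continuous fun t => (-Complex.I) • U0 V (-t) (Lap d (ψ t)) := h1.const_smul (-Complex.I)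
  exact h2

theorem cc_coord (h : IsEvolution V ψ) (t : ℝ) (x : Site d) :
    HasDerivAt (fun s => cc V ψ s x) (bb V ψ t x) t := by
  have h1 := h.2.2 t x
  have h2 : HasDerivAt (fun s : ℝ => Complex.exp (-Complex.I * ((-s : ℝ) : ℂ) * V x))
      (Complex.exp (-Complex.I * ((-t : ℝ) : ℂ) * V x) * (Complex.I * V x)) t := by
    have h3 : HasDerivAt (fun s : ℝ => -Complex.I * ((-s : ℝ) : ℂ) * V x) (Complex.I * V x) t := by
      have h4 : HasDerivAt (fun s : ℝ => ((-s : ℝ) : ℂ)) (-1) t := by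
        have h40 := (hasDerivAt_neg t).ofReal_comp
        simpa using h40
      have h5 := (h4.const_mul (-Complex.I)).mul_const (V x : ℂ)
      simpa using h5
    exact h3.cexp
  have h6 := h2.mul h1
  have e : bb V ψ t x = Complex.exp (-Complex.I * ((-t : ℝ) : ℂ) * V x) * (Complex.I * V x) *
      ψ t x + Complex.exp (-Complex.I * ((-t : ℝ) : ℂ) * V x) *
      (-Complex.I * (lap (ψ t) x + (V x : ℂ) * ψ t x)) := by
    unfold bb
    rw [lp.coeFn_smul, Pi.smul_apply, U0_apply, Lap_apply, smul_eq_mul]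
    ring
  rw [e]
  exact h6

theorem cc_eq (h : IsEvolution V ψ) (t : ℝ) :
    cc V ψ t = cc V ψ 0 + ∫ s in (0:ℝ)..t, bb V ψ s := by
  ext x
  have hb := continuous_bb (V := V) h.1
  have e1 : (∫ s in (0:ℝ)..t, bb V ψ s) x = ∫ s in (0:ℝ)..t, bb V ψ s x := by
    rw [← coord_apply x, ← ContinuousLinearMap.intervalIntegral_comp_comm _
      (hb.intervalIntegrable 0 t)]
    simp only [coord_apply]
  have hbx : Continuous fun s => bb V ψ s x := by
    have := (coord x).continuous.comp hb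
    simpa [Function.comp_def, coord_apply] using this
  have e2 : ∫ s in (0:ℝ)..t, bb V ψ s x = cc V ψ t x - cc V ψ 0 x :=
    intervalIntegral.integral_eq_sub_of_hasDerivAt (fun s _ => cc_coord h s x)
      (hbx.intervalIntegrable 0 t)
  rw [lp.coeFn_add, Pi.add_apply, e1, e2]
  ring

theorem hasDerivAt_cc (h : IsEvolution V ψ) (t : ℝ) : HasDerivAt (cc V ψ) (bb V ψ t) t := by
  have hb := continuous_bb (V := V) h.1
  have h1 : HasDerivAt (fun t => ∫ s in (0:ℝ)..t, bb V ψ s) (bb V ψ t) t :=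
    intervalIntegral.integral_hasDerivAt_right (hb.intervalIntegrable 0 t)
      (hb.stronglyMeasurableAtFilter _ _) hb.continuousAt
  have h2 := h1.const_add (cc V ψ 0)
  refine h2.congr_of_eventuallyEq (Eventually.of_forall fun s => ?_)
  exact cc_eq h s

theorem norm_evol (h : IsEvolution V ψ) (t : ℝ) : ‖ψ t‖ = 1 := by
  have hd : ∀ t, HasDerivAt (fun t => ⟪cc V ψ t, cc V ψ t⟫_ℂ) 0 t := by
    intro t
    have h1 := (hasDerivAt_cc h t).inner ℂ (hasDerivAt_cc h t)
    have e : ⟪cc V ψ t, bb V ψ t⟫_ℂ + ⟪bb V ψ t, cc V ψ t⟫_ℂ = 0 := by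
      unfold cc bb
      rw [inner_smul_right, inner_smul_left, U0_inner, U0_inner, inner_Lap]
      simp
    rw [e] at h1
    exact h1
  have hc : ∀ s, ⟪cc V ψ s, cc V ψ s⟫_ℂ = ⟪cc V ψ 0, cc V ψ 0⟫_ℂ := by
    intro s
    exact is_const_of_deriv_eq_zero (fun t => (hd t).differentiableAt) (fun t => (hd t).deriv) s 0
  have h1 := hc t
  unfold cc at h1
  rw [U0_inner, U0_inner, h.2.1, inner_self_eq_norm_sq_to_K, inner_self_eq_norm_sq_to_K,
    norm_del] at h1
  have h2 : ‖ψ t‖ ^ 2 = 1 := by exact_mod_cast (by simpa using h1 : ((‖ψ t‖ : ℂ)) ^ 2 = 1)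
  have h3 := norm_nonneg (ψ t)
  nlinarith

/-- truncated coordinate multiplication -/
def XX (n : ℕ) (i : Fin d) : L2 d →L[ℂ] L2 d :=
  mulOp (fun y => ((chi n (y i) : ℝ) : ℂ)) n (fun y => by
    rw [Complex.norm_real]; exact chi_abs_le n _)

theorem XX_apply (n : ℕ) (i : Fin d) (f : L2 d) (x : Site d) :
    XX n i f x = ((chi n (x i) : ℝ) : ℂ) * f x := rfl

theorem XX_symm (n : ℕ) (i : Fin d) (f g : L2 d) : ⟪XX n i f, g⟫_ℂ = ⟪f, XX n i g⟫_ℂ := by
  rw [lp.inner_eq_tsum, lp.inner_eq_tsum]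
  apply tsum_congr
  intro x
  rw [RCLike.inner_apply, RCLike.inner_apply, XX_apply, XX_apply, map_mul, Complex.conj_ofReal]
  ring

theorem XX_U0 (n : ℕ) (i : Fin d) (t : ℝ) (f : L2 d) : XX n i (U0 V t f) = U0 V t (XX n i f) := by
  ext x
  rw [XX_apply, U0_apply, U0_apply, XX_apply]
  ring

/-- the commutator of the truncated coordinate with the Laplacian is bounded by `2` -/
theorem norm_comm_le (n : ℕ) (i : Fin d) (f : L2 d) :
    ‖XX n i (Lap d f) - Lap d (XX n i f)‖ ≤ 2 * ‖f‖ := by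
  have hp : ∀ y : Site d, ‖((chi n (y i) - chi n (y i + 1) : ℝ) : ℂ)‖ ≤ 1 := fun y => by
    rw [Complex.norm_real]
    have := chi_sub_le n (y i) (y i + 1)
    simpa using this
  have hm : ∀ y : Site d, ‖((chi n (y i) - chi n (y i - 1) : ℝ) : ℂ)‖ ≤ 1 := fun y => by
    rw [Complex.norm_real]
    have := chi_sub_le n (y i) (y i - 1)
    simpa using this
  have e : XX n i (Lap d f) - Lap d (XX n i f) =
      mulOp (fun y => ((chi n (y i) - chi n (y i + 1) : ℝ) : ℂ)) 1 hp (shift (Pi.single i 1) f) +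
      mulOp (fun y => ((chi n (y i) - chi n (y i - 1) : ℝ) : ℂ)) 1 hm
        (shift (-Pi.single i 1) f) := by
    ext y
    rw [lp.coeFn_sub, Pi.sub_apply, XX_apply, Lap_apply, Lap_apply, lp.coeFn_add, Pi.add_apply,
      mulOp_apply, mulOp_apply, shift_apply, shift_apply]
    unfold lap
    rw [Finset.mul_sum, ← Finset.sum_sub_distrib]
    have e3 : ∀ j : Fin d, ((chi n (y i) : ℝ) : ℂ) * (f (y + Pi.single j 1) +
        f (y - Pi.single j 1)) - (XX n i f (y + Pi.single j 1) + XX n i f (y - Pi.single j 1)) =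
        if j = i then ((chi n (y i) - chi n (y i + 1) : ℝ) : ℂ) * f (y + Pi.single i 1) +
          ((chi n (y i) - chi n (y i - 1) : ℝ) : ℂ) * f (y + -Pi.single i 1) else 0 := by
      intro j
      rw [XX_apply, XX_apply]
      simp only [Pi.add_apply, Pi.sub_apply]
      by_cases hj : j = i
      · subst hj
        rw [if_pos rfl, Pi.single_eq_same, ← sub_eq_add_neg]
        push_cast
        ring
      · rw [if_neg hj, Pi.single_eq_of_ne (Ne.symm hj)]
        simp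
        ring
    rw [Finset.sum_congr rfl (fun j _ => e3 j), Finset.sum_ite_eq' Finset.univ i]
    simp
  have nb : ∀ (m : Site d → ℂ) (hm : ∀ x, ‖m x‖ ≤ 1) (g : L2 d), ‖mulOp m 1 hm g‖ ≤ ‖g‖ := by
    intro m hm g
    have h0 : ∀ a b : ℝ, 0 ≤ a → 0 ≤ b → a ^ 2 ≤ b ^ 2 → a ≤ b := fun a b ha hb h => by
      nlinarith [sq_nonneg (a - b)]
    refine h0 _ _ (norm_nonneg _) (norm_nonneg _) ?_
    rw [L2.norm_sq, L2.norm_sq g]
    refine Summable.tsum_le_tsum (fun x => ?_) (L2.summable_sq _) (L2.summable_sq g)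
    rw [mulOp_apply, norm_mul, mul_pow]
    have h1 := hm x
    have h2 : ‖m x‖ ^ 2 ≤ 1 := by
      have := norm_nonneg (m x)
      nlinarith
    nlinarith [sq_nonneg ‖g x‖]
  rw [e]
  refine (norm_add_le _ _).trans ?_
  have h1 := nb _ hp (shift (Pi.single i 1) f)
  have h2 := nb _ hm (shift (-Pi.single i 1) f)
  rw [LinearIsometry.norm_map] at h1 h2
  linarith

/-- the truncated second moment -/
def NX (n : ℕ) (i : Fin d) (ψ : ℝ → L2 d) (t : ℝ) : ℝ := ‖XX n i (ψ t)‖ ^ 2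

theorem NX_deriv (h : IsEvolution V ψ) (n : ℕ) (i : Fin d) (t : ℝ) :
    ∃ D : ℝ, HasDerivAt (NX n i ψ) D t ∧ |D| ≤ 4 * Real.sqrt (NX n i ψ t) := by
  have hc := hasDerivAt_cc h t
  have hX : HasDerivAt (fun s => XX n i (cc V ψ s)) (XX n i (bb V ψ t)) t :=
    ((XX n i).restrictScalars ℝ).hasFDerivAt.comp_hasDerivAt t hc
  have h1 := hX.inner ℂ hX
  have h2 : HasDerivAt (fun s => (⟪XX n i (cc V ψ s), XX n i (cc V ψ s)⟫_ℂ).re)
      (⟪XX n i (cc V ψ t), XX n i (bb V ψ t)⟫_ℂ + ⟪XX n i (bb V ψ t), XX n i (cc V ψ t)⟫_ℂ).re t :=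
    (Complex.reCLM.hasFDerivAt.comp_hasDerivAt t h1)
  have e1 : (fun s => (⟪XX n i (cc V ψ s), XX n i (cc V ψ s)⟫_ℂ).re) = NX n i ψ := by
    funext s
    unfold cc NX
    rw [XX_U0, U0_inner, inner_self_eq_norm_sq_to_K]
    norm_cast
  rw [e1] at h2
  refine ⟨_, h2, ?_⟩
  set K := XX n i (Lap d (ψ t)) - Lap d (XX n i (ψ t)) with hK
  have e2 : ⟪XX n i (cc V ψ t), XX n i (bb V ψ t)⟫_ℂ =
      -Complex.I * ⟪XX n i (ψ t), XX n i (Lap d (ψ t))⟫_ℂ := by
    unfold cc bb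
    rw [map_smul, inner_smul_right, XX_U0, XX_U0, U0_inner]
  have e3 : XX n i (Lap d (ψ t)) = K + Lap d (XX n i (ψ t)) := by rw [hK]; abel
  have e4 : (⟪XX n i (bb V ψ t), XX n i (cc V ψ t)⟫_ℂ).re =
      (⟪XX n i (cc V ψ t), XX n i (bb V ψ t)⟫_ℂ).re := by
    rw [← inner_conj_symm, Complex.conj_re]
  rw [Complex.add_re, e4, e2, e3, inner_add_right, mul_add, Complex.add_re]
  have e5 : (-Complex.I * ⟪XX n i (ψ t), Lap d (XX n i (ψ t))⟫_ℂ).re = 0 := by
    have h5 : conj ⟪XX n i (ψ t), Lap d (XX n i (ψ t))⟫_ℂ =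
        ⟪XX n i (ψ t), Lap d (XX n i (ψ t))⟫_ℂ := by
      rw [inner_conj_symm, inner_Lap]
    have h6 := Complex.conj_eq_iff_im.1 h5
    simp [h6]
  rw [e5, add_zero]
  have h7 : |(-Complex.I * ⟪XX n i (ψ t), K⟫_ℂ).re| ≤ ‖XX n i (ψ t)‖ * ‖K‖ := by
    refine (Complex.abs_re_le_norm _).trans ?_
    rw [norm_mul, norm_neg, Complex.norm_I, one_mul]
    exact norm_inner_le_norm _ _
  have h8 : ‖K‖ ≤ 2 := by
    have := norm_comm_le n i (ψ t)
    rwa [norm_evol h t, mul_one] at this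
  have h9 : Real.sqrt (NX n i ψ t) = ‖XX n i (ψ t)‖ := by
    unfold NX
    exact Real.sqrt_sq (norm_nonneg _)
  rw [h9]
  have h10 : |(-Complex.I * ⟪XX n i (ψ t), K⟫_ℂ).re + (-Complex.I * ⟪XX n i (ψ t), K⟫_ℂ).re| ≤
      2 * (‖XX n i (ψ t)‖ * ‖K‖) := by
    rw [← two_mul, abs_mul, abs_two]
    linarith
  have h11 := norm_nonneg (XX n i (ψ t))
  nlinarith

/-- the truncated displacement is `2`-Lipschitz in time -/
theorem XX_lipschitz (h : IsEvolution V ψ) (n : ℕ) (i : Fin d) (s t : ℝ) :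
    |‖XX n i (ψ t)‖ - ‖XX n i (ψ s)‖| ≤ 2 * |t - s| := by
  have key : ∀ ε : ℝ, 0 < ε →
      |Real.sqrt (NX n i ψ t + ε) - Real.sqrt (NX n i ψ s + ε)| ≤ 2 * |t - s| := by
    intro ε hε
    choose D hD hDb using NX_deriv h n i
    have hN0 : ∀ r, 0 ≤ NX n i ψ r := fun r => by unfold NX; positivity
    have hd : ∀ r, HasDerivAt (fun r => Real.sqrt (NX n i ψ r + ε))
        (D r / (2 * Real.sqrt (NX n i ψ r + ε))) r := by
      intro r
      exact ((hD r).add_const ε).sqrt (by have := hN0 r; linarith)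
    have hb : ∀ r, ‖D r / (2 * Real.sqrt (NX n i ψ r + ε))‖ ≤ 2 := by
      intro r
      have h1 : 0 < Real.sqrt (NX n i ψ r + ε) := Real.sqrt_pos.2 (by have := hN0 r; linarith)
      rw [norm_div, Real.norm_eq_abs, Real.norm_of_nonneg (by positivity), div_le_iff₀ (by positivity)]
      refine (hDb r).trans ?_
      have h2 : Real.sqrt (NX n i ψ r) ≤ Real.sqrt (NX n i ψ r + ε) :=
        Real.sqrt_le_sqrt (by linarith)
      linarith
    have := Convex.norm_image_sub_le_of_norm_hasDerivWithin_le (s := Set.univ) (C := 2)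
      (f := fun r => Real.sqrt (NX n i ψ r + ε)) (fun r _ => (hd r).hasDerivWithinAt)
      (fun r _ => hb r) convex_univ (Set.mem_univ s) (Set.mem_univ t)
    simpa [Real.norm_eq_abs] using this
  have hlim : Tendsto (fun ε : ℝ => |Real.sqrt (NX n i ψ t + ε) - Real.sqrt (NX n i ψ s + ε)|)
      (𝓝[>] 0) (𝓝 |Real.sqrt (NX n i ψ t + 0) - Real.sqrt (NX n i ψ s + 0)|) := by
    have : Continuous fun ε : ℝ => |Real.sqrt (NX n i ψ t + ε) - Real.sqrt (NX n i ψ s + ε)| := by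
      fun_prop
    exact (this.tendsto 0).mono_left nhdsWithin_le_nhds
  have h1 := le_of_tendsto hlim (by
    filter_upwards [self_mem_nhdsWithin] with ε hε
    exact key ε hε)
  have h9 : ∀ r, Real.sqrt (NX n i ψ r) = ‖XX n i (ψ r)‖ := by
    intro r
    unfold NX
    exact Real.sqrt_sq (norm_nonneg _)
  rw [add_zero, add_zero, h9, h9] at h1
  exact h1

end

end Pool.Agent.Helper54.Bal
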