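import Pool.Agent.Helper54_Ballistic.Res

/-!
# Plancherel type identities for resolvent families
-/

set_option autoImplicit false
set_option linter.unusedSectionVars false

open scoped InnerProductSpace ComplexConjugate Topology
open MeasureTheory Filter

noncomputable section

namespace Pool.Agent.Helper54.Bal

/-- the point `E + i η` -/
def zz (η E : ℝ) : ℂ := (E : ℂ) + (η : ℂ) * Complex.I

@[simp] theorem zz_im (η E : ℝ) : (zz η E).im = η := by simp [zz]

@[simp] theorem zz_re (η E : ℝ) : (zz η E).re = E := by simp [zz]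

theorem continuous_zz (η : ℝ) : Continuous (zz η) := by unfold zz; fun_prop

theorem normSq_zz (η E : ℝ) : ‖zz η E‖ ^ 2 = E ^ 2 + η ^ 2 := by
  rw [← Complex.normSq_eq_norm_sq, Complex.normSq_apply]; simp; ring

theorem integrable_inv_sq {η : ℝ} (hη : 0 < η) (C : ℝ) :
    Integrable (fun E : ℝ => C * (1 + η⁻¹ ^ 2) * (1 + E ^ 2)⁻¹) :=
  integrable_inv_one_add_sq.const_mul _

theorem inv_sq_le {η y : ℝ} (hη : 0 < η) (hy : η ≤ y) {C : ℝ} (hC : 0 ≤ C) (E : ℝ) :
    C / ‖zz y E‖ ^ 2 ≤ C * (1 + η⁻¹ ^ 2) * (1 + E ^ 2)⁻¹ := by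
  rw [normSq_zz]
  have h1 : 0 < E ^ 2 + y ^ 2 := by nlinarith
  have h2 : 0 < 1 + E ^ 2 := by nlinarith
  rw [div_le_iff₀ h1]
  have h3 : 1 + E ^ 2 ≤ (1 + η⁻¹ ^ 2) * (E ^ 2 + y ^ 2) := by
    have h4 : η⁻¹ ^ 2 * y ^ 2 ≥ 1 := by
      have h5 : η⁻¹ * y ≥ 1 := by
        rw [ge_iff_le, ← inv_mul_cancel₀ hη.ne']
        exact mul_le_mul_of_nonneg_left hy (by positivity)
      nlinarith
    nlinarith [sq_nonneg (η⁻¹ * E), sq_nonneg y]
  calc C = C * (1 + E ^ 2)⁻¹ * (1 + E ^ 2) := by field_simp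
    _ ≤ C * (1 + E ^ 2)⁻¹ * ((1 + η⁻¹ ^ 2) * (E ^ 2 + y ^ 2)) := by gcongr
    _ = _ := by ring

/-- contour shift: a holomorphic function on the upper half plane with quadratic decay has
vanishing integral along horizontal lines -/
theorem integral_horizontal {R : ℂ → ℂ} {η C : ℝ} (hη : 0 < η) (hC : 0 ≤ C)
    (hd : ∀ z : ℂ, 0 < z.im → DifferentiableAt ℂ R z)
    (hb : ∀ z : ℂ, η ≤ z.im → ‖R z‖ ≤ C / ‖z‖ ^ 2) :
    Integrable (fun E : ℝ => R (zz η E)) ∧ ∫ E : ℝ, R (zz η E) = 0 := by
  have hcont : ∀ y : ℝ, η ≤ y → Continuous fun E : ℝ => R (zz y E) := by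
    intro y hy
    rw [continuous_iff_continuousAt]
    intro E
    exact ContinuousAt.comp (f := zz y) (g := R)
      (hd (zz y E) (by simpa using hη.trans_le hy)).continuousAt (continuous_zz y).continuousAt
  have hbd : ∀ y : ℝ, η ≤ y → ∀ E : ℝ, ‖R (zz y E)‖ ≤ C * (1 + η⁻¹ ^ 2) * (1 + E ^ 2)⁻¹ := by
    intro y hy E
    exact (hb (zz y E) (by simpa using hy)).trans (inv_sq_le hη hy hC E)
  have hint : ∀ y : ℝ, η ≤ y → Integrable fun E : ℝ => R (zz y E) := by
    intro y hy
    exact (integrable_inv_sq hη C).mono' (hcont y hy).aestronglyMeasurable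
      (Eventually.of_forall (hbd y hy))
  refine ⟨hint η le_rfl, ?_⟩
  -- the integral does not depend on the height
  have hshift : ∀ Y : ℝ, η ≤ Y → ∫ E : ℝ, R (zz η E) = ∫ E : ℝ, R (zz Y E) := by
    intro Y hY
    have hrect : ∀ T : ℝ, 0 < T →
        (∫ E in (-T)..T, R (zz η E)) - (∫ E in (-T)..T, R (zz Y E)) =
          Complex.I • (∫ y in η..Y, R (zz y (-T))) - Complex.I • (∫ y in η..Y, R (zz y T)) := by
      intro T hT
      have h := Complex.integral_boundary_rect_eq_zero_of_differentiableOn R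
        (zz η (-T)) (zz Y T) (by
          intro z hz
          refine (hd z ?_).differentiableWithinAt
          have := hz.2
          simp only [zz_im, Set.mem_preimage, Set.uIcc_of_le hY] at this
          exact hη.trans_le this.1)
      simp only [zz_im, zz_re] at h
      have e1 : ∀ y : ℝ, (fun x : ℝ => R ((x : ℂ) + (y : ℂ) * Complex.I)) = fun x => R (zz y x) :=
        fun y => rfl
      have e2 : ∀ x : ℝ, (fun y : ℝ => R ((x : ℂ) + (y : ℂ) * Complex.I)) = fun y => R (zz y x) :=
        fun x => rfl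
      simp only [e1, e2] at h
      have h' := sub_eq_zero.1 h
      rw [← h']
      abel
    have hL : Tendsto (fun T : ℝ => (∫ E in (-T)..T, R (zz η E)) -
        (∫ E in (-T)..T, R (zz Y E))) atTop
        (𝓝 ((∫ E : ℝ, R (zz η E)) - ∫ E : ℝ, R (zz Y E))) :=
      (intervalIntegral_tendsto_integral (hint η le_rfl) tendsto_neg_atTop_atBot tendsto_id).sub
        (intervalIntegral_tendsto_integral (hint Y hY) tendsto_neg_atTop_atBot tendsto_id)
    have hside : ∀ T : ℝ, 0 < T → ∀ s : ℝ, s ^ 2 = T ^ 2 →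
        ‖∫ y in η..Y, R (zz y s)‖ ≤ C / T ^ 2 * |Y - η| := by
      intro T hT s hs
      refine intervalIntegral.norm_integral_le_of_norm_le_const ?_
      intro y hy
      rw [Set.uIoc_of_le hY] at hy
      refine (hb (zz y s) (by simpa using hy.1.le)).trans ?_
      rw [normSq_zz, hs]
      have : 0 < T ^ 2 := by positivity
      gcongr
      nlinarith [sq_nonneg y]
    have hR : Tendsto (fun T : ℝ => Complex.I • (∫ y in η..Y, R (zz y (-T))) -
        Complex.I • (∫ y in η..Y, R (zz y T))) atTop (𝓝 0) := by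
      have h0 : Tendsto (fun T : ℝ => C / T ^ 2 * |Y - η| + C / T ^ 2 * |Y - η|) atTop (𝓝 0) := by
        have h1 : Tendsto (fun T : ℝ => C / T ^ 2) atTop (𝓝 0) :=
          tendsto_const_nhds.div_atTop (tendsto_pow_atTop two_ne_zero)
        have h2 := (h1.mul_const |Y - η|).add (h1.mul_const |Y - η|)
        simpa using h2
      refine squeeze_zero_norm' ?_ h0
      filter_upwards [eventually_gt_atTop 0] with T hT
      refine (norm_sub_le _ _).trans ?_
      rw [norm_smul, norm_smul, Complex.norm_I, one_mul, one_mul]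
      exact add_le_add (hside T hT _ (by ring)) (hside T hT _ rfl)
    have hev : (fun T : ℝ => (∫ E in (-T)..T, R (zz η E)) - (∫ E in (-T)..T, R (zz Y E)))
        =ᶠ[atTop] fun T => Complex.I • (∫ y in η..Y, R (zz y (-T))) -
          Complex.I • (∫ y in η..Y, R (zz y T)) := by
      filter_upwards [eventually_gt_atTop 0] with T hT
      exact hrect T hT
    have := tendsto_nhds_unique (hL.congr' hev) hR
    exact sub_eq_zero.1 this
  have hlim : Tendsto (fun Y : ℝ => ∫ E : ℝ, R (zz Y E)) atTop (𝓝 (∫ _ : ℝ, (0:ℂ))) := by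
    refine tendsto_integral_filter_of_dominated_convergence
      (fun E => C * (1 + η⁻¹ ^ 2) * (1 + E ^ 2)⁻¹) ?_ ?_ (integrable_inv_sq hη C) ?_
    · filter_upwards [eventually_ge_atTop η] with Y hY
      exact (hcont Y hY).aestronglyMeasurable
    · filter_upwards [eventually_ge_atTop η] with Y hY
      exact Eventually.of_forall (hbd Y hY)
    · refine Eventually.of_forall fun E => ?_
      have h0 : Tendsto (fun Y : ℝ => C / Y ^ 2) atTop (𝓝 0) :=
        tendsto_const_nhds.div_atTop (tendsto_pow_atTop two_ne_zero)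
      refine squeeze_zero_norm' ?_ h0
      filter_upwards [eventually_ge_atTop η] with Y hY
      refine (hb (zz Y E) (by simpa using hY)).trans ?_
      rw [normSq_zz]
      have : 0 < Y ^ 2 := by have := hη.trans_le hY; positivity
      gcongr
      nlinarith [sq_nonneg E]
  rw [integral_zero] at hlim
  have hconst : Tendsto (fun _ : ℝ => ∫ E : ℝ, R (zz η E)) atTop (𝓝 0) := by
    refine hlim.congr' ?_
    filter_upwards [eventually_ge_atTop η] with Y hY
    exact (hshift Y hY).symm
  exact tendsto_nhds_unique tendsto_const_nhds hconst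

theorem integral_poisson {y : ℝ} (hy : 0 < y) :
    Integrable (fun E : ℝ => y / (E ^ 2 + y ^ 2)) ∧ ∫ E : ℝ, y / (E ^ 2 + y ^ 2) = Real.pi := by
  have e : (fun E : ℝ => y / (E ^ 2 + y ^ 2)) = fun E => y⁻¹ * (1 + (E / y) ^ 2)⁻¹ := by
    funext E
    field_simp
    ring
  constructor
  · rw [e]
    exact (integrable_inv_one_add_sq.comp_div hy.ne').const_mul _
  · rw [e, integral_const_mul, Measure.integral_comp_div (fun E : ℝ => (1 + E ^ 2)⁻¹),
      integral_univ_inv_one_add_sq, abs_of_pos hy, smul_eq_mul]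
    field_simp

end Pool.Agent.Helper54.Bal
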