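import Pool.Agent.Helper54_Ballistic.Evol
import Pool.Agent.Helper95_Fourier.Plancherel

/-!
# The Laplace transform of the Schrödinger evolution is the resolvent
-/

set_option autoImplicit false
set_option linter.unusedSectionVars false

open scoped InnerProductSpace ComplexConjugate Topology ENNReal FourierTransform
open MeasureTheory Filter

noncomputable section

namespace Pool.Agent.Helper54.Bal

open Pool.Agent.Anderson

variable {d : ℕ} {V : Site d → ℝ} {ψ : ℝ → L2 d}

/-- the integrand `e^{izt} ψ(t)` of the Laplace transform -/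
def FF (η E : ℝ) (ψ : ℝ → L2 d) (t : ℝ) : L2 d := Complex.exp (Complex.I * zz η E * t) • ψ t

theorem norm_expz (η E t : ℝ) : ‖Complex.exp (Complex.I * zz η E * t)‖ = Real.exp (-η * t) := by
  rw [Complex.norm_exp]
  congr 1
  simp [zz]

theorem continuous_FF (h : IsEvolution V ψ) (η E : ℝ) : Continuous (FF η E ψ) := by
  unfold FF
  have h1 : Continuous fun t : ℝ => Complex.exp (Complex.I * zz η E * t) := by fun_prop
  exact h1.smul h.1

theorem norm_FF (h : IsEvolution V ψ) (η E t : ℝ) : ‖FF η E ψ t‖ = Real.exp (-η * t) := by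
  unfold FF
  rw [norm_smul, norm_evol h, norm_expz, mul_one]

theorem integrable_exp {η : ℝ} (hη : 0 < η) :
    IntegrableOn (fun t : ℝ => Real.exp (-η * t)) (Set.Ioi 0) :=
  integrableOn_exp_mul_Ioi (by linarith) 0

theorem integrable_FF (h : IsEvolution V ψ) {η : ℝ} (hη : 0 < η) (E : ℝ) :
    IntegrableOn (FF η E ψ) (Set.Ioi 0) := by
  refine (integrable_exp hη).mono' ((continuous_FF h η E).aestronglyMeasurable) ?_
  exact Eventually.of_forall fun t => (norm_FF h η E t).le

theorem FF_apply (η E t : ℝ) (x : Site d) :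
    FF η E ψ t x = Complex.exp (Complex.I * zz η E * t) * ψ t x := rfl

theorem integral_FF_apply (h : IsEvolution V ψ) {η : ℝ} (hη : 0 < η) (E : ℝ) (x : Site d) :
    (∫ t in Set.Ioi 0, FF η E ψ t) x = ∫ t in Set.Ioi 0, FF η E ψ t x := by
  rw [← coord_apply x, ← ContinuousLinearMap.integral_comp_comm _ (integrable_FF h hη E)]
  simp only [coord_apply]

theorem laplace_eq (h : IsEvolution V ψ) {η : ℝ} (hη : 0 < η) (E : ℝ) :
    G V (zz η E) (del 0) = Complex.I • ∫ t in Set.Ioi 0, FF η E ψ t := by
  symm
  have hz : (zz η E).im ≠ 0 := by simpa using hη.ne'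
  apply G_unique hz
  intro x
  set L := ∫ t in Set.Ioi 0, FF η E ψ t with hL
  have hi := integrable_FF h hη E
  have hd : ∀ t ∈ Set.Ici (0:ℝ), HasDerivAt (fun s => FF η E ψ s x)
      (Complex.I * (zz η E * FF η E ψ t x) -
        Complex.I * (lap (FF η E ψ t) x + (V x : ℂ) * FF η E ψ t x)) t := by
    intro t _
    have h1 := h.2.2 t x
    have h2 : HasDerivAt (fun s : ℝ => Complex.exp (Complex.I * zz η E * s))
        (Complex.exp (Complex.I * zz η E * t) * (Complex.I * zz η E)) t := by
      have h4 : HasDerivAt (fun s : ℝ => Complex.I * zz η E * (s : ℂ)) (Complex.I * zz η E) t := by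
        have := (hasDerivAt_id t).ofReal_comp.const_mul (Complex.I * zz η E)
        simpa using this
      exact h4.cexp
    have h3 := h2.mul h1
    have e : lap (FF η E ψ t) x = Complex.exp (Complex.I * zz η E * t) * lap (ψ t) x := by
      rw [← Lap_apply, ← Lap_apply]
      unfold FF
      rw [map_smul, lp.coeFn_smul, Pi.smul_apply, smul_eq_mul]
    have e2 : Complex.I * (zz η E * FF η E ψ t x) -
        Complex.I * (lap (FF η E ψ t) x + (V x : ℂ) * FF η E ψ t x) =
        Complex.exp (Complex.I * zz η E * t) * (Complex.I * zz η E) * ψ t x +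
        Complex.exp (Complex.I * zz η E * t) *
          (-Complex.I * (lap (ψ t) x + (V x : ℂ) * ψ t x)) := by
      rw [e, FF_apply]; ring
    rw [e2]
    exact h3
  have hx : IntegrableOn (fun t => FF η E ψ t x) (Set.Ioi 0) := by
    have h1 := (coord x).integrable_comp hi
    have h2 : (fun t => FF η E ψ t x) = fun t => coord x (FF η E ψ t) := by
      funext t; rw [coord_apply]
    rw [h2]
    exact h1
  have hlx : IntegrableOn (fun t => lap (FF η E ψ t) x) (Set.Ioi 0) := by
    have h1 := (coord x).integrable_comp ((Lap d).integrable_comp hi)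
    have h2 : (fun t => lap (FF η E ψ t) x) = fun t => coord x (Lap d (FF η E ψ t)) := by
      funext t; rw [coord_apply, Lap_apply]
    rw [h2]
    exact h1
  have hint : IntegrableOn (fun t => Complex.I * (zz η E * FF η E ψ t x) -
        Complex.I * (lap (FF η E ψ t) x + (V x : ℂ) * FF η E ψ t x)) (Set.Ioi 0) := by
    apply Integrable.sub
    · exact (hx.const_mul _).const_mul _
    · exact (hlx.add (hx.const_mul _)).const_mul _
  have hlim : Tendsto (fun s => FF η E ψ s x) atTop (𝓝 0) := by
    rw [tendsto_zero_iff_norm_tendsto_zero]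
    refine squeeze_zero (fun _ => norm_nonneg _) (g := fun t => Real.exp (-η * t)) ?_ ?_
    · intro t
      rw [← norm_FF h η E t, ← coord_apply x]
      unfold coord
      refine (ContinuousLinearMap.le_opNorm _ _).trans ?_
      rw [innerSL_apply_norm, norm_del, one_mul]
    · have : Tendsto (fun t : ℝ => -η * t) atTop atBot :=
        tendsto_id.const_mul_atTop_of_neg (by linarith)
      exact Real.tendsto_exp_atBot.comp this
  have key := integral_Ioi_of_hasDerivAt_of_tendsto' hd hint hlim
  have e0 : FF η E ψ 0 x = del 0 x := by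
    rw [FF_apply, h.2.1]
    simp
  rw [e0] at key
  have eL : L x = ∫ t in Set.Ioi 0, FF η E ψ t x := integral_FF_apply h hη E x
  have eLap : lap L x = ∫ t in Set.Ioi 0, lap (FF η E ψ t) x := by
    rw [← Lap_apply, hL, ← ContinuousLinearMap.integral_comp_comm _ hi, ← coord_apply x,
      ← ContinuousLinearMap.integral_comp_comm _ ((Lap d).integrable_comp hi)]
    simp only [coord_apply, Lap_apply]
  have e6 : ∫ t in Set.Ioi 0, (Complex.I * (zz η E * FF η E ψ t x) -
        Complex.I * (lap (FF η E ψ t) x + (V x : ℂ) * FF η E ψ t x)) =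
        Complex.I * (zz η E * L x) - Complex.I * (lap L x + (V x : ℂ) * L x) := by
    have i1 : Integrable (fun t => Complex.I * (zz η E * FF η E ψ t x))
        (volume.restrict (Set.Ioi 0)) := (hx.const_mul _).const_mul _
    have i2 : Integrable (fun t => (V x : ℂ) * FF η E ψ t x)
        (volume.restrict (Set.Ioi 0)) := hx.const_mul _
    have i3 : Integrable (fun t => Complex.I * (lap (FF η E ψ t) x + (V x : ℂ) * FF η E ψ t x))
        (volume.restrict (Set.Ioi 0)) := (hlx.add i2).const_mul _
    rw [integral_sub i1 i3, integral_const_mul, integral_const_mul, integral_const_mul,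
      integral_add hlx i2, integral_const_mul, ← eL, ← eLap]
  rw [e6] at key
  have e5 : lap (⇑(Complex.I • L)) x = Complex.I * lap L x := by
    rw [← Lap_apply, ← Lap_apply, map_smul, lp.coeFn_smul, Pi.smul_apply, smul_eq_mul]
  rw [e5, lp.coeFn_smul, Pi.smul_apply, smul_eq_mul]
  linear_combination (-1 : ℂ) * key

end Pool.Agent.Helper54.Bal
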