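import Pool.Agent.Helper54_Ballistic.Fib
import Pool.Agent.Helper54_Ballistic.Pair

/-!
# Vanishing of the ballistic weight
-/

set_option autoImplicit false
set_option linter.unusedSectionVars false

open scoped InnerProductSpace ComplexConjugate Topology ENNReal
open MeasureTheory Filter

noncomputable section

namespace Pool.Agent.Helper54.Bal

open Pool.Agent.Anderson

variable {d : ℕ}

theorem continuous_yv (i : Fin d) {η : ℝ} (hη : η ≠ 0) :
    Continuous fun p : Cfg d × ℝ => yv i p.1 (zz η p.2) := by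
  have h := continuous_G (d := d) hη
  have h0 : Continuous fun p : Cfg d × ℝ => (p.1, p.2, (del 0 : L2 d)) := by fun_prop
  have h1 : Continuous fun p : Cfg d × ℝ => G p.1 (zz η p.2) (del 0) := by
    have := h.comp h0
    exact this
  have h2 : Continuous fun p : Cfg d × ℝ => Wop i (G p.1 (zz η p.2) (del 0)) :=
    (Wop i).continuous.comp h1
  have h3 : Continuous fun p : Cfg d × ℝ => (p.1, p.2, Wop i (G p.1 (zz η p.2) (del 0))) := by
    fun_prop
  have := h.comp h3
  exact this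

theorem sm_G {Ω : Type*} [MeasurableSpace Ω] {η : ℝ} (hη : η ≠ 0) {V : Ω → Cfg d} {E : Ω → ℝ}
    {φ : Ω → L2 d} (hV : Measurable V) (hE : Measurable E) (hφ : StronglyMeasurable φ) :
    StronglyMeasurable fun p => G (V p) (zz η (E p)) (φ p) := by
  have h0 : StronglyMeasurable fun p => (V p, E p, φ p) :=
    hV.stronglyMeasurable.prodMk (hE.stronglyMeasurable.prodMk hφ)
  have h1 := (continuous_G (d := d) hη).comp_stronglyMeasurable h0
  exact h1

theorem sm_yv {Ω : Type*} [MeasurableSpace Ω] (i : Fin d) {η : ℝ} (hη : η ≠ 0) {V : Ω → Cfg d}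
    {E : Ω → ℝ} (hV : Measurable V) (hE : Measurable E) :
    StronglyMeasurable fun p => yv i (V p) (zz η (E p)) := by
  have h0 : StronglyMeasurable fun p => (V p, E p) :=
    hV.stronglyMeasurable.prodMk hE.stronglyMeasurable
  have h1 := (continuous_yv i hη).comp_stronglyMeasurable h0
  exact h1

theorem sm_rv {Ω : Type*} [MeasurableSpace Ω] (i : Fin d) {η : ℝ} (hη : η ≠ 0) {V : Ω → Cfg d}
    {E : Ω → ℝ} {φ : Ω → L2 d} (hV : Measurable V) (hE : Measurable E)
    (hφ : StronglyMeasurable φ) :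
    StronglyMeasurable fun p => rv i (V p) (φ p) (zz η (E p)) :=
  (sm_yv i hη hV hE).sub (sm_G hη hV hE (sm_G hη hV hE hφ))

theorem meas_sq {Ω : Type*} [MeasurableSpace Ω] {φ : Ω → L2 d} (hφ : StronglyMeasurable φ) :
    Measurable fun p => ENNReal.ofReal (‖φ p‖ ^ 2) :=
  (hφ.norm.measurable.pow_const 2).ennreal_ofReal

variable {P : Measure (Cfg d)} [IsProbabilityMeasure P]

/-- The mean square of the remainder is the seminorm of `u`. -/
theorem lintegral_rv (hP : ShiftInv P) (i : Fin d) {u A : K P} (he : (ww i : K P) = u + A)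
    (hA : ∀ z : ℂ, z.im ≠ 0 → LL z A = RR hP z A) {η : ℝ} (hη : 0 < η) :
    ENNReal.ofReal (η ^ 3) *
      ∫⁻ V, (∫⁻ E : ℝ, ENNReal.ofReal (‖rv i V (fibK A V) (zz η E)‖ ^ 2)) ∂P =
      ENNReal.ofReal (nn hP η u) := by
  have hz : ∀ E : ℝ, (zz η E).im ≠ 0 := fun E => by simpa using hη.ne'
  have hpt : ∀ E : ℝ, ∫⁻ V, ENNReal.ofReal (‖rv i V (fibK A V) (zz η E)‖ ^ 2) ∂P =
      ENNReal.ofReal (‖LL (zz η E) (RR hP (zz η E) u)‖ ^ 2) := by
    intro E
    rw [← lintegral_fibK]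
    refine lintegral_congr_ae ?_
    have h1 : LL (zz η E) (RR hP (zz η E) u) =
        LL (zz η E) (WK i (LL (zz η E) e0)) - LL (zz η E) (LL (zz η E) A) := by
      have : u = ww i - A := by rw [he]; abel
      rw [this, map_sub, map_sub, RR_ww hP i (hz E), hA _ (hz E)]
    filter_upwards [fibK_sub (LL (zz η E) (WK i (LL (zz η E) e0))) (LL (zz η E) (LL (zz η E) A)),
      fibK_LL (hz E) (WK i (LL (zz η E) (e0 : K P))), fibK_WK i (LL (zz η E) (e0 : K P)),
      fibK_LL (hz E) (e0 : K P), fibK_e0 (P := P), fibK_LL (hz E) (LL (zz η E) A),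
      fibK_LL (hz E) A] with V e1 e2 e3 e4 e5 e6 e7
    rw [h1, e1, e2, e3, e4, e5, e6, e7]
    rfl
  have hmeas : Measurable fun p : Cfg d × ℝ =>
      ENNReal.ofReal (‖rv i p.1 (fibK A p.1) (zz η p.2)‖ ^ 2) :=
    meas_sq (sm_rv i hη.ne' measurable_fst measurable_snd
      ((stronglyMeasurable_fibK A).comp_measurable measurable_fst))
  have hsw : ∫⁻ V, (∫⁻ E : ℝ, ENNReal.ofReal (‖rv i V (fibK A V) (zz η E)‖ ^ 2)) ∂P =
      ∫⁻ E : ℝ, ∫⁻ V, ENNReal.ofReal (‖rv i V (fibK A V) (zz η E)‖ ^ 2) ∂P :=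
    lintegral_lintegral_swap hmeas.aemeasurable
  rw [hsw, lintegral_congr hpt, ← ofReal_integral_eq_lintegral_ofReal (integrable_LR hP hη.ne' u)
    (Eventually.of_forall fun E => by positivity), ← ENNReal.ofReal_mul (by positivity)]
  unfold nn
  rw [abs_of_pos hη]

theorem lintegral_yv_le (i : Fin d) (V : Cfg d) {η : ℝ} (hη : 0 < η) :
    ENNReal.ofReal (η ^ 3) * ∫⁻ E : ℝ, ENNReal.ofReal (‖yv i V (zz η E)‖ ^ 2) ≤
      ENNReal.ofReal (4 * Real.pi) := by
  rw [← ofReal_integral_eq_lintegral_ofReal (integrable_yv i V hη)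
    (Eventually.of_forall fun E => by positivity), ← ENNReal.ofReal_mul (by positivity)]
  refine ENNReal.ofReal_le_ofReal ?_
  have h1 : ∫ E : ℝ, ‖yv i V (zz η E)‖ ^ 2 ≤ 4 / η ^ 2 * (Real.pi / η * ‖(del 0 : L2 d)‖ ^ 2) := by
    rw [← (isRes_G V).integral_sq hη, ← integral_const_mul]
    refine integral_mono (integrable_yv i V hη)
      (((isRes_G V).integrable_sq hη _).const_mul _) fun E => ?_
    have := norm_yv_le i (V := V) (z := zz η E) (by simpa using hη.ne')
    rwa [zz_im] at this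
  rw [norm_del] at h1
  calc _ ≤ η ^ 3 * (4 / η ^ 2 * (Real.pi / η * 1 ^ 2)) := by gcongr
    _ = _ := by field_simp

section Pairs

variable (μ : Measure ℝ) [IsProbabilityMeasure μ]

/-- resampling at the origin preserves the measure -/
def Resamp (P : Measure (Cfg d)) (μ : Measure ℝ) : Prop :=
  MeasurePreserving (fun p : Cfg d × ℝ => Function.update p.1 0 p.2) (P.prod μ) P

/-- the error density -/
def errF (i : Fin d) (φ : Cfg d → L2 d) (η : ℝ) (V : Cfg d) (s E : ℝ) : ℝ :=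
  ‖yv i V (zz η E)‖ * ‖rv i (Function.update V 0 s) (φ (Function.update V 0 s)) (zz η E)‖ +
  ‖rv i V (φ V) (zz η E)‖ * ‖yv i (Function.update V 0 s) (zz η E)‖ +
  ‖rv i V (φ V) (zz η E)‖ * ‖rv i (Function.update V 0 s) (φ (Function.update V 0 s)) (zz η E)‖

theorem errF_nonneg (i : Fin d) (φ : Cfg d → L2 d) (η : ℝ) (V : Cfg d) (s E : ℝ) :
    0 ≤ errF i φ η V s E := by
  unfold errF; positivity

theorem integrable_errF (i : Fin d) (φ : Cfg d → L2 d) {η : ℝ} (hη : 0 < η) (V : Cfg d) (s : ℝ) :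
    Integrable fun E => errF i φ η V s E := by
  have nm : ∀ {a b : ℝ → L2 d}, Continuous a → Continuous b → (Integrable fun E => ‖a E‖ ^ 2) →
      (Integrable fun E => ‖b E‖ ^ 2) → Integrable fun E => ‖a E‖ * ‖b E‖ := by
    intro a b ca cb ia ib
    exact integrable_mul_of_sq ca.norm.aestronglyMeasurable cb.norm.aestronglyMeasurable ia ib
  unfold errF
  exact ((nm (cont_yv i _ hη.ne') (cont_rv i _ _ hη.ne') (integrable_yv i _ hη)
    (integrable_rv i _ _ hη)).add (nm (cont_rv i _ _ hη.ne') (cont_yv i _ hη.ne')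
    (integrable_rv i _ _ hη) (integrable_yv i _ hη))).add (nm (cont_rv i _ _ hη.ne')
    (cont_rv i _ _ hη.ne') (integrable_rv i _ _ hη) (integrable_rv i _ _ hη))

/-- the scaled integrated error -/
def eF (i : Fin d) (φ : Cfg d → L2 d) (η : ℝ) (p : Cfg d × ℝ) : ℝ≥0∞ :=
  ENNReal.ofReal (η ^ 3) * ∫⁻ E : ℝ, ENNReal.ofReal (errF i φ η p.1 p.2 E)

variable {μ}

theorem sm_errF (i : Fin d) {φ : Cfg d → L2 d} (hφ : StronglyMeasurable φ)
    (hu : Measurable fun p : Cfg d × ℝ => Function.update p.1 0 p.2) {η : ℝ} (hη : η ≠ 0) :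
    Measurable fun q : (Cfg d × ℝ) × ℝ => errF i φ η q.1.1 q.1.2 q.2 := by
  have m1 : Measurable fun q : (Cfg d × ℝ) × ℝ => q.1.1 := measurable_fst.comp measurable_fst
  have m2 : Measurable fun q : (Cfg d × ℝ) × ℝ => Function.update q.1.1 0 q.1.2 :=
    hu.comp measurable_fst
  have m3 : Measurable fun q : (Cfg d × ℝ) × ℝ => q.2 := measurable_snd
  have a1 := (sm_yv i hη m1 m3).norm.measurable
  have a2 := (sm_yv i hη m2 m3).norm.measurable
  have a3 := (sm_rv i hη m1 m3 (hφ.comp_measurable m1)).norm.measurable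
  have a4 := (sm_rv i hη m2 m3 (hφ.comp_measurable m2)).norm.measurable
  unfold errF
  exact ((a1.mul a4).add (a3.mul a2)).add (a3.mul a4)

theorem measurable_eF (i : Fin d) {φ : Cfg d → L2 d} (hφ : StronglyMeasurable φ)
    (hu : Measurable fun p : Cfg d × ℝ => Function.update p.1 0 p.2) {η : ℝ} (hη : η ≠ 0) :
    Measurable (eF i φ η) := by
  unfold eF
  refine Measurable.const_mul ?_ _
  exact (sm_errF i hφ hu hη).ennreal_ofReal.lintegral_prod_right'

/-- expectation of the error -/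
theorem lintegral_eF_le (hR : Resamp P μ) (i : Fin d) {φ : Cfg d → L2 d}
    (hφ : StronglyMeasurable φ) {η : ℝ} (hη : 0 < η) {δ : ℝ} (hδ : 0 < δ) :
    ∫⁻ p, eF i φ η p ∂(P.prod μ) ≤ ENNReal.ofReal (4 * Real.pi * δ) +
      ENNReal.ofReal (δ⁻¹ + 1) * (ENNReal.ofReal (η ^ 3) *
        ∫⁻ V, (∫⁻ E : ℝ, ENNReal.ofReal (‖rv i V (φ V) (zz η E)‖ ^ 2)) ∂P) := by
  have hu := hR.measurable
  -- abbreviations
  set Yf : Cfg d → ℝ≥0∞ := fun V => ENNReal.ofReal (η ^ 3) *
    ∫⁻ E : ℝ, ENNReal.ofReal (‖yv i V (zz η E)‖ ^ 2) with hYf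
  set Rf : Cfg d → ℝ≥0∞ := fun V => ENNReal.ofReal (η ^ 3) *
    ∫⁻ E : ℝ, ENNReal.ofReal (‖rv i V (φ V) (zz η E)‖ ^ 2) with hRf
  have mY : Measurable Yf := by
    refine Measurable.const_mul ?_ _
    exact (meas_sq (sm_yv i hη.ne' (measurable_fst (α := Cfg d) (β := ℝ))
      measurable_snd)).lintegral_prod_right'
  have mR : Measurable Rf := by
    refine Measurable.const_mul ?_ _
    exact (meas_sq (sm_rv i hη.ne' (measurable_fst (α := Cfg d) (β := ℝ))
      measurable_snd (hφ.comp_measurable measurable_fst))).lintegral_prod_right'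
  have hpt : ∀ p : Cfg d × ℝ, eF i φ η p ≤ ENNReal.ofReal (δ / 2) *
      (Yf p.1 + Yf (Function.update p.1 0 p.2)) + ENNReal.ofReal ((δ⁻¹ + 1) / 2) *
      (Rf p.1 + Rf (Function.update p.1 0 p.2)) := by
    intro p
    set V := p.1
    set V' := Function.update p.1 0 p.2
    have h1 : ∀ E : ℝ, ENNReal.ofReal (errF i φ η p.1 p.2 E) ≤
        ENNReal.ofReal (δ / 2) * (ENNReal.ofReal (‖yv i V (zz η E)‖ ^ 2) +
          ENNReal.ofReal (‖yv i V' (zz η E)‖ ^ 2)) +
        ENNReal.ofReal ((δ⁻¹ + 1) / 2) * (ENNReal.ofReal (‖rv i V (φ V) (zz η E)‖ ^ 2) +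
          ENNReal.ofReal (‖rv i V' (φ V') (zz η E)‖ ^ 2)) := by
      intro E
      rw [← ENNReal.ofReal_add (by positivity) (by positivity),
        ← ENNReal.ofReal_add (by positivity) (by positivity),
        ← ENNReal.ofReal_mul (by positivity), ← ENNReal.ofReal_mul (by positivity),
        ← ENNReal.ofReal_add (by positivity) (by positivity)]
      refine ENNReal.ofReal_le_ofReal ?_
      unfold errF
      set a := ‖yv i V (zz η E)‖
      set a' := ‖yv i V' (zz η E)‖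
      set b := ‖rv i V (φ V) (zz η E)‖
      set b' := ‖rv i V' (φ V') (zz η E)‖
      have e1 : 0 ≤ δ⁻¹ / 2 * (δ * a - b') ^ 2 := by positivity
      have e2 : 0 ≤ δ⁻¹ / 2 * (δ * a' - b) ^ 2 := by positivity
      have e3 : δ⁻¹ / 2 * (δ * a - b') ^ 2 = δ / 2 * a ^ 2 - a * b' + δ⁻¹ / 2 * b' ^ 2 := by
        field_simp; ring
      have e4 : δ⁻¹ / 2 * (δ * a' - b) ^ 2 = δ / 2 * a' ^ 2 - b * a' + δ⁻¹ / 2 * b ^ 2 := by
        field_simp; ring
      have e5 := sq_nonneg (b - b')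
      nlinarith
    have my : ∀ W : Cfg d, Measurable fun E : ℝ => ENNReal.ofReal (‖yv i W (zz η E)‖ ^ 2) :=
      fun W => meas_sq (cont_yv i W hη.ne').stronglyMeasurable
    have mr : ∀ W : Cfg d, Measurable fun E : ℝ =>
        ENNReal.ofReal (‖rv i W (φ W) (zz η E)‖ ^ 2) :=
      fun W => meas_sq (cont_rv i W (φ W) hη.ne').stronglyMeasurable
    unfold eF
    calc ENNReal.ofReal (η ^ 3) * ∫⁻ E : ℝ, ENNReal.ofReal (errF i φ η p.1 p.2 E)
        ≤ ENNReal.ofReal (η ^ 3) * ∫⁻ E : ℝ, (ENNReal.ofReal (δ / 2) *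
          (ENNReal.ofReal (‖yv i V (zz η E)‖ ^ 2) + ENNReal.ofReal (‖yv i V' (zz η E)‖ ^ 2)) +
        ENNReal.ofReal ((δ⁻¹ + 1) / 2) * (ENNReal.ofReal (‖rv i V (φ V) (zz η E)‖ ^ 2) +
          ENNReal.ofReal (‖rv i V' (φ V') (zz η E)‖ ^ 2))) := by
          gcongr with E
          exact h1 E
      _ = _ := by
          have q1 : Measurable fun E : ℝ => ENNReal.ofReal (‖yv i V (zz η E)‖ ^ 2) +
            ENNReal.ofReal (‖yv i V' (zz η E)‖ ^ 2) := (my V).add (my V')
          have q2 : Measurable fun E : ℝ => ENNReal.ofReal (‖rv i V (φ V) (zz η E)‖ ^ 2) +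
            ENNReal.ofReal (‖rv i V' (φ V') (zz η E)‖ ^ 2) := (mr V).add (mr V')
          rw [lintegral_add_left (q1.const_mul _),
            lintegral_const_mul _ q1, lintegral_add_left (my V),
            lintegral_const_mul _ q2, lintegral_add_left (mr V)]
          simp only [hYf, hRf]
          ring
  have mYu : Measurable fun p : Cfg d × ℝ => Yf (Function.update p.1 0 p.2) := mY.comp hu
  have mRu : Measurable fun p : Cfg d × ℝ => Rf (Function.update p.1 0 p.2) := mR.comp hu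
  have mY1 : Measurable fun p : Cfg d × ℝ => Yf p.1 := mY.comp measurable_fst
  have mR1 : Measurable fun p : Cfg d × ℝ => Rf p.1 := mR.comp measurable_fst
  have f1 : ∀ {F : Cfg d → ℝ≥0∞}, Measurable F →
      ∫⁻ p : Cfg d × ℝ, F p.1 ∂(P.prod μ) = ∫⁻ V, F V ∂P := by
    intro F hF
    have hF' : Measurable fun p : Cfg d × ℝ => F p.1 := hF.comp measurable_fst
    rw [lintegral_prod _ hF'.aemeasurable]
    simp
  have f2 : ∀ {F : Cfg d → ℝ≥0∞}, Measurable F →
      ∫⁻ p : Cfg d × ℝ, F (Function.update p.1 0 p.2) ∂(P.prod μ) = ∫⁻ V, F V ∂P := by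
    intro F hF
    exact MeasurePreserving.lintegral_comp hR hF
  have hY : ∫⁻ V, Yf V ∂P ≤ ENNReal.ofReal (4 * Real.pi) := by
    calc _ ≤ ∫⁻ _, ENNReal.ofReal (4 * Real.pi) ∂P :=
          lintegral_mono fun V => lintegral_yv_le i V hη
      _ = _ := by simp
  have hRe : ∫⁻ V, Rf V ∂P = ENNReal.ofReal (η ^ 3) *
        ∫⁻ V, (∫⁻ E : ℝ, ENNReal.ofReal (‖rv i V (φ V) (zz η E)‖ ^ 2)) ∂P := by
    rw [hRf, lintegral_const_mul]
    exact (meas_sq (sm_rv i hη.ne' (measurable_fst (α := Cfg d) (β := ℝ))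
      measurable_snd (hφ.comp_measurable measurable_fst))).lintegral_prod_right'
  calc ∫⁻ p, eF i φ η p ∂(P.prod μ) ≤ ∫⁻ p : Cfg d × ℝ, (ENNReal.ofReal (δ / 2) *
      (Yf p.1 + Yf (Function.update p.1 0 p.2)) + ENNReal.ofReal ((δ⁻¹ + 1) / 2) *
      (Rf p.1 + Rf (Function.update p.1 0 p.2))) ∂(P.prod μ) := lintegral_mono hpt
    _ = ENNReal.ofReal (δ / 2) * (∫⁻ V, Yf V ∂P + ∫⁻ V, Yf V ∂P) +
        ENNReal.ofReal ((δ⁻¹ + 1) / 2) * (∫⁻ V, Rf V ∂P + ∫⁻ V, Rf V ∂P) := by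
        have q1 : Measurable fun p : Cfg d × ℝ => Yf p.1 + Yf (Function.update p.1 0 p.2) :=
          mY1.add mYu
        have q2 : Measurable fun p : Cfg d × ℝ => Rf p.1 + Rf (Function.update p.1 0 p.2) :=
          mR1.add mRu
        rw [lintegral_add_left (q1.const_mul _), lintegral_const_mul _ q1,
          lintegral_add_left mY1, lintegral_const_mul _ q2, lintegral_add_left mR1,
          f1 mY, f2 mY, f1 mR, f2 mR]
    _ ≤ ENNReal.ofReal (δ / 2) * (ENNReal.ofReal (4 * Real.pi) + ENNReal.ofReal (4 * Real.pi)) +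
        ENNReal.ofReal ((δ⁻¹ + 1) / 2) * (∫⁻ V, Rf V ∂P + ∫⁻ V, Rf V ∂P) := by
        gcongr
    _ = _ := by
        rw [hRe, ← ENNReal.ofReal_add (by positivity) (by positivity),
          ← ENNReal.ofReal_mul (by positivity)]
        congr 1
        · congr 1; ring
        · rw [← two_mul, ← mul_assoc]
          congr 1
          have : (2 : ℝ≥0∞) = ENNReal.ofReal 2 := by simp
          rw [this, ← ENNReal.ofReal_mul (by positivity)]
          congr 1; ring

end Pairs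

end Pool.Agent.Helper54.Bal
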