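import Pool.Agent.Helper54_Ballistic.Law

/-!
# Absence of ballistic transport in the Anderson model at every nonzero disorder
-/

set_option autoImplicit false

open scoped Topology ENNReal
open MeasureTheory Filter ProbabilityTheory
open Pool.Agent.Anderson Pool.Agent.Helper54.Bal

namespace Pool.Agent.Helper54_Ballistic.NoBallisticTransportOld

/-- Let `ξ(x)`, `x ∈ ℤ^d`, be independent random variables with one and the same law `μ`, which
has no atoms (for instance standard Gaussian), and let `σ ≠ 0`, `H = Δ + σ ξ`. For every `ω` the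
Schrödinger evolution `ψ(T) = e^{-iTH} δ₀` exists and is unique, and

`E ∑_x |x|² |ψ_T(x)|² = o(T²)` as `T → ∞`. -/
theorem result (d : ℕ) {Ω : Type*} [MeasurableSpace Ω] (P : Measure Ω) [IsProbabilityMeasure P]
    (ξ : Site d → Ω → ℝ) (hmeas : ∀ x, Measurable (ξ x)) (hind : iIndepFun ξ P)
    (μ : Measure ℝ) (hlaw : ∀ x, P.map (ξ x) = μ) (hatom : ∀ a : ℝ, μ {a} = 0)
    (σ : ℝ) (hσ : σ ≠ 0) :
    ∃ ψ : Ω → ℝ → L2 d,
      (∀ ω, IsEvolution (fun x => σ * ξ x ω) (ψ ω) ∧
        ∀ φ, IsEvolution (fun x => σ * ξ x ω) φ → φ = ψ ω) ∧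
      (∀ T, Measurable fun ω => secondMoment (ψ ω T)) ∧
      Tendsto (fun T : ℝ => (∫⁻ ω, secondMoment (ψ ω T) ∂P) / ENNReal.ofReal (T ^ 2))
        atTop (𝓝 0) := by
  set W : Ω → Cfg d := fun ω x => σ * ξ x ω with hW
  have hWm : Measurable W := measurable_pi_lambda _ fun x => (hmeas x).const_mul σ
  have hμ : IsProbabilityMeasure μ := by
    rw [← hlaw 0]
    exact Measure.isProbabilityMeasure_map (hmeas 0).aemeasurable
  have hσm : Measurable fun r : ℝ => σ * r := measurable_const_mul σ
  have hμ' : IsProbabilityMeasure (μ.map fun r => σ * r) :=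
    Measure.isProbabilityMeasure_map hσm.aemeasurable
  have hna : NullSingletonClass (μ.map fun r => σ * r) := by
    refine ⟨fun a => ?_⟩
    rw [Measure.map_apply hσm (measurableSet_singleton a)]
    have e : (fun r : ℝ => σ * r) ⁻¹' {a} = {a / σ} := by
      ext r
      simp only [Set.mem_preimage, Set.mem_singleton_iff]
      rw [eq_div_iff hσ, mul_comm]
    rw [e]
    exact hatom _
  have hPW : P.map W = PP d (μ.map fun r => σ * r) := by
    have h1 : iIndepFun (fun x ω => σ * ξ x ω) P :=
      hind.comp (fun _ r => σ * r) fun _ => hσm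
    have h2 := h1.map_fun_eq_infinitePi_map fun x => (hmeas x).const_mul σ
    have h3 : ∀ x : Site d, P.map (fun ω => σ * ξ x ω) = μ.map fun r => σ * r := by
      intro x
      rw [← hlaw x, Measure.map_map hσm (hmeas x)]
      rfl
    simp only [h3] at h2
    exact h2
  refine ⟨fun ω => evol (W ω), fun ω => ⟨isEvolution_evol (W ω), fun φ hφ =>
    evol_unique (isEvolution_evol (W ω)) hφ⟩, fun T => (measurable_sm_evol T).comp hWm, ?_⟩
  have h := tendsto_sm (d := d) (μ.map fun r => σ * r)
  have e : ∀ T : ℝ, ∫⁻ ω, secondMoment (evol (W ω) T) ∂P =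
      ∫⁻ V, secondMoment (evol V T) ∂(PP d (μ.map fun r => σ * r)) := by
    intro T
    rw [← hPW, lintegral_map (measurable_sm_evol T) hWm]
  simp only [e]
  exact h

end Pool.Agent.Helper54_Ballistic.NoBallisticTransportOld
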