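import Pool.Agent.Helper54_Ballistic.Int

/-!
# `∫ ⟪D f, D g⟫ = (π/η) ⟪f, g⟫` and `∫ ⟪D² f, D² g⟫ = (π/(2η³)) ⟪f, g⟫`
-/

set_option autoImplicit false
set_option linter.unusedSectionVars false

open scoped InnerProductSpace ComplexConjugate Topology
open MeasureTheory Filter

noncomputable section

namespace Pool.Agent.Helper54.Bal

variable {X : Type*} [NormedAddCommGroup X] [InnerProductSpace ℂ X] [CompleteSpace X]

namespace IsRes

variable {D : ℂ → X →L[ℂ] X} (hD : IsRes D)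

include hD

theorem cont_line {η : ℝ} (hη : η ≠ 0) (f : X) : Continuous fun E : ℝ => D (zz η E) f := by
  rw [continuous_iff_continuousAt]
  intro E
  have h1 : ContinuousAt D (zz η E) := hD.continuousAt (by simpa using hη)
  have h2 : ContinuousAt (fun z => D z f) (zz η E) :=
    (ContinuousLinearMap.apply ℂ X f).continuous.continuousAt.comp h1
  exact ContinuousAt.comp (f := zz η) (g := fun z => D z f) h2 (continuous_zz η).continuousAt

theorem cont_line2 {η : ℝ} (hη : η ≠ 0) (f : X) :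
    Continuous fun E : ℝ => D (zz η E) (D (zz η E) f) := by
  rw [continuous_iff_continuousAt]
  intro E
  have h1 : ContinuousAt D (zz η E) := hD.continuousAt (by simpa using hη)
  have h2 : ContinuousAt (fun z => D z (D z f)) (zz η E) :=
    h1.clm_apply (h1.clm_apply continuousAt_const)
  exact ContinuousAt.comp (f := zz η) (g := fun z => D z (D z f)) h2
    (continuous_zz η).continuousAt

/-- the diagonal identity on a dense set -/
theorem diag_dense {η : ℝ} (hη : 0 < η) (h : X) :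
    let f := D (-Complex.I) (D (-Complex.I) h)
    Integrable (fun E : ℝ => ‖D (zz η E) f‖ ^ 2) ∧
      ∫ E : ℝ, ‖D (zz η E) f‖ ^ 2 = Real.pi / η * ‖f‖ ^ 2 := by
  intro f
  have hI : (-Complex.I).im ≠ 0 := by simp
  set k : X := D (-Complex.I) h with hk
  have hf : f = D (-Complex.I) k := rfl
  set R : ℂ → ℂ := fun z => (-⟪f, k⟫_ℂ + ⟪f, D z h⟫_ℂ) / (z + Complex.I) ^ 2 with hR
  have hne : ∀ z : ℂ, 0 < z.im → z + Complex.I ≠ 0 := by
    intro z hz h0
    have := congrArg Complex.im h0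
    simp at this
    linarith
  have hexp : ∀ z : ℂ, 0 < z.im → ⟪f, D z f⟫_ℂ = -((‖f‖ : ℂ) ^ 2) / (z + Complex.I) + R z := by
    intro z hz
    have h1 : D z k - f = (z + Complex.I) • D z f := by
      have := hD.ident_apply hz.ne' hI k
      rw [sub_neg_eq_add] at this
      exact this
    have h2 : D z h - k = (z + Complex.I) • D z k := by
      have := hD.ident_apply hz.ne' hI h
      rw [sub_neg_eq_add] at this
      exact this
    have h3 : ⟪f, D z k⟫_ℂ - ⟪f, f⟫_ℂ = (z + Complex.I) * ⟪f, D z f⟫_ℂ := by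
      rw [← inner_sub_right, h1, inner_smul_right]
    have h4 : ⟪f, D z h⟫_ℂ - ⟪f, k⟫_ℂ = (z + Complex.I) * ⟪f, D z k⟫_ℂ := by
      rw [← inner_sub_right, h2, inner_smul_right]
    rw [inner_self_eq_norm_sq_to_K] at h3
    have hz' := hne z hz
    rw [hR]
    simp only
    have h3' : ⟪f, D z f⟫_ℂ = (⟪f, D z k⟫_ℂ - (‖f‖ : ℂ) ^ 2) / (z + Complex.I) := by
      rw [eq_div_iff hz', mul_comm, ← h3]; rfl
    have h4' : ⟪f, D z k⟫_ℂ = (⟪f, D z h⟫_ℂ - ⟪f, k⟫_ℂ) / (z + Complex.I) := by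
      rw [eq_div_iff hz', mul_comm, ← h4]
    rw [h3', h4']
    field_simp
    ring
  have hRd : ∀ z : ℂ, 0 < z.im → DifferentiableAt ℂ R z := by
    intro z hz
    refine DifferentiableAt.div ?_ ((differentiableAt_id.add_const _).pow 2)
      (pow_ne_zero 2 (hne z hz))
    exact (differentiableAt_const _).add (hD.hasDerivAt_inner hz.ne' f h).differentiableAt
  set C : ℝ := ‖f‖ * ‖k‖ + ‖f‖ * (η⁻¹ * ‖h‖) with hC
  have hC0 : 0 ≤ C := by positivity
  have hRb : ∀ z : ℂ, η ≤ z.im → ‖R z‖ ≤ C / ‖z‖ ^ 2 := by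
    intro z hz
    have hz0 : 0 < z.im := hη.trans_le hz
    have hzn : 0 < ‖z‖ := by
      refine norm_pos_iff.2 fun h0 => ?_
      rw [h0] at hz0; simp at hz0
    rw [hR]
    simp only
    rw [norm_div, norm_pow]
    have h1 : ‖z‖ ^ 2 ≤ ‖z + Complex.I‖ ^ 2 := by
      rw [← Complex.normSq_eq_norm_sq, ← Complex.normSq_eq_norm_sq, Complex.normSq_apply,
        Complex.normSq_apply]
      simp
      nlinarith
    have h2 : ‖-⟪f, k⟫_ℂ + ⟪f, D z h⟫_ℂ‖ ≤ C := by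
      refine (norm_add_le _ _).trans ?_
      rw [norm_neg]
      refine add_le_add (norm_inner_le_norm _ _) ((norm_inner_le_norm _ _).trans ?_)
      gcongr
      refine (hD.norm_le' hz0.ne' h).trans ?_
      gcongr
      rw [abs_of_pos hz0]
      exact hz
    have h3 : 0 < ‖z‖ ^ 2 := by positivity
    calc _ ≤ C / ‖z + Complex.I‖ ^ 2 := by gcongr
      _ ≤ C / ‖z‖ ^ 2 := by gcongr
  obtain ⟨hi, hint⟩ := integral_horizontal hη hC0 hRd hRb
  have hη1 : 0 < η + 1 := by linarith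
  obtain ⟨hp, hpint⟩ := integral_poisson hη1
  have hform : ∀ E : ℝ, ‖D (zz η E) f‖ ^ 2 =
      η⁻¹ * (‖f‖ ^ 2 * ((η + 1) / (E ^ 2 + (η + 1) ^ 2)) + (R (zz η E)).im) := by
    intro E
    have hz : 0 < (zz η E).im := by simpa using hη
    have h1 := hD.im_inner hz.ne' f
    rw [hexp _ hz, Complex.add_im, zz_im] at h1
    have h2 : (-((‖f‖ : ℂ) ^ 2) / (zz η E + Complex.I)).im
        = ‖f‖ ^ 2 * ((η + 1) / (E ^ 2 + (η + 1) ^ 2)) := by
      have e1 : zz η E + Complex.I = zz (η + 1) E := by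
        unfold zz; push_cast; ring
      have e2 : -((‖f‖ : ℂ) ^ 2) = ((-(‖f‖ ^ 2) : ℝ) : ℂ) := by push_cast; ring
      rw [e1, e2, Complex.div_im, Complex.ofReal_im, Complex.ofReal_re, zz_im, zz_re,
        Complex.normSq_eq_norm_sq, normSq_zz]
      ring
    rw [h2] at h1
    rw [h1]
    field_simp
  have hi' : Integrable fun E : ℝ => (R (zz η E)).im := hi.im
  have hint' : ∫ E : ℝ, (R (zz η E)).im = 0 := by
    have : ∫ E : ℝ, (R (zz η E)).im = (∫ E : ℝ, R (zz η E)).im :=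
      integral_im hi
    rw [this, hint]; simp
  constructor
  · have := ((hp.const_mul (‖f‖ ^ 2)).add hi').const_mul η⁻¹
    refine this.congr (Eventually.of_forall fun E => ?_)
    exact (hform E).symm
  · calc ∫ E : ℝ, ‖D (zz η E) f‖ ^ 2
        = ∫ E : ℝ, η⁻¹ * (‖f‖ ^ 2 * ((η + 1) / (E ^ 2 + (η + 1) ^ 2)) + (R (zz η E)).im) := by
          exact integral_congr_ae (Eventually.of_forall hform)
      _ = η⁻¹ * (‖f‖ ^ 2 * Real.pi + 0) := by
          rw [integral_const_mul, integral_add (hp.const_mul _) hi', integral_const_mul, hpint,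
            hint']
      _ = _ := by rw [add_zero]; ring

/-- the dense set of vectors `D(-i)² h` -/
theorem dense_sq : DenseRange fun h : X => D (-Complex.I) (D (-Complex.I) h) := by
  have hI : (-Complex.I).im ≠ 0 := by simp
  exact (hD.dense_range hI).comp (hD.dense_range hI) (D (-Complex.I)).continuous

theorem exists_seq (f : X) : ∃ u : ℕ → X,
    Tendsto (fun n => D (-Complex.I) (D (-Complex.I) (u n))) atTop (𝓝 f) := by
  obtain ⟨v, hv, hlim⟩ := mem_closure_iff_seq_limit.1 (hD.dense_sq f)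
  choose u hu using hv
  exact ⟨u, by simpa [hu] using hlim⟩

theorem lintegral_le {η : ℝ} (hη : 0 < η) (f : X) :
    ∫⁻ E : ℝ, ENNReal.ofReal (‖D (zz η E) f‖ ^ 2) ≤ ENNReal.ofReal (Real.pi / η * ‖f‖ ^ 2) := by
  obtain ⟨u, hu⟩ := hD.exists_seq f
  set F : ℕ → X := fun n => D (-Complex.I) (D (-Complex.I) (u n)) with hF
  have h1 : ∀ n, ∫⁻ E : ℝ, ENNReal.ofReal (‖D (zz η E) (F n)‖ ^ 2) =
      ENNReal.ofReal (Real.pi / η * ‖F n‖ ^ 2) := by
    intro n
    obtain ⟨hi, he⟩ := hD.diag_dense hη (u n)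
    rw [← ofReal_integral_eq_lintegral_ofReal hi
      (Eventually.of_forall fun E => by positivity), he]
  have h2 : ∀ E : ℝ, ENNReal.ofReal (‖D (zz η E) f‖ ^ 2) =
      liminf (fun n => ENNReal.ofReal (‖D (zz η E) (F n)‖ ^ 2)) atTop := by
    intro E
    refine (Tendsto.liminf_eq ?_).symm
    refine (ENNReal.continuous_ofReal.tendsto _).comp ?_
    exact (((D (zz η E)).continuous.tendsto f).comp hu).norm.pow 2
  have h3 : Tendsto (fun n => ENNReal.ofReal (Real.pi / η * ‖F n‖ ^ 2)) atTop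
      (𝓝 (ENNReal.ofReal (Real.pi / η * ‖f‖ ^ 2))) := by
    refine (ENNReal.continuous_ofReal.tendsto _).comp ?_
    exact (hu.norm.pow 2).const_mul _
  calc ∫⁻ E : ℝ, ENNReal.ofReal (‖D (zz η E) f‖ ^ 2)
      = ∫⁻ E : ℝ, liminf (fun n => ENNReal.ofReal (‖D (zz η E) (F n)‖ ^ 2)) atTop :=
        lintegral_congr h2
    _ ≤ liminf (fun n => ∫⁻ E : ℝ, ENNReal.ofReal (‖D (zz η E) (F n)‖ ^ 2)) atTop := by
        refine lintegral_liminf_le fun n => ?_
        refine ENNReal.measurable_ofReal.comp ?_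
        exact ((hD.cont_line hη.ne' (F n)).norm.pow 2).measurable
    _ = liminf (fun n => ENNReal.ofReal (Real.pi / η * ‖F n‖ ^ 2)) atTop := by
        congr 1; funext n; exact h1 n
    _ = _ := h3.liminf_eq

theorem integrable_sq {η : ℝ} (hη : 0 < η) (f : X) :
    Integrable (fun E : ℝ => ‖D (zz η E) f‖ ^ 2) := by
  refine ⟨((hD.cont_line hη.ne' f).norm.pow 2).aestronglyMeasurable, ?_⟩
  rw [hasFiniteIntegral_iff_ofReal (Eventually.of_forall fun E => by positivity)]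
  exact (hD.lintegral_le hη f).trans_lt ENNReal.ofReal_lt_top

theorem integral_sq_le {η : ℝ} (hη : 0 < η) (f : X) :
    ∫ E : ℝ, ‖D (zz η E) f‖ ^ 2 ≤ Real.pi / η * ‖f‖ ^ 2 := by
  have h := hD.lintegral_le hη f
  rw [← ofReal_integral_eq_lintegral_ofReal (hD.integrable_sq hη f)
      (Eventually.of_forall fun E => by positivity)] at h
  exact (ENNReal.ofReal_le_ofReal_iff (by positivity)).1 h

theorem integral_sq {η : ℝ} (hη : 0 < η) (f : X) :
    ∫ E : ℝ, ‖D (zz η E) f‖ ^ 2 = Real.pi / η * ‖f‖ ^ 2 := by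
  refine le_antisymm (hD.integral_sq_le hη f) ?_
  obtain ⟨u, hu⟩ := hD.exists_seq f
  set F : ℕ → X := fun n => D (-Complex.I) (D (-Complex.I) (u n)) with hF
  have key : ∀ ε : ℝ, 0 < ε → Real.pi / η * ‖f‖ ^ 2 ≤ (1 + ε) * ∫ E : ℝ, ‖D (zz η E) f‖ ^ 2 := by
    intro ε hε
    have h1 : ∀ n, Real.pi / η * ‖F n‖ ^ 2 ≤ (1 + ε) * (∫ E : ℝ, ‖D (zz η E) f‖ ^ 2) +
        (1 + ε⁻¹) * (Real.pi / η * ‖F n - f‖ ^ 2) := by
      intro n
      have h2 := (hD.diag_dense hη (u n)).2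
      have h3 : ∫ E : ℝ, ‖D (zz η E) (F n)‖ ^ 2 ≤
          ∫ E : ℝ, ((1 + ε) * ‖D (zz η E) f‖ ^ 2 + (1 + ε⁻¹) * ‖D (zz η E) (F n - f)‖ ^ 2) := by
        refine integral_mono (hD.integrable_sq hη _)
          (((hD.integrable_sq hη f).const_mul _).add ((hD.integrable_sq hη _).const_mul _)) ?_
        intro E
        have h4 : D (zz η E) (F n) = D (zz η E) f + D (zz η E) (F n - f) := by
          rw [← map_add]; congr 1; abel
        have h5 : ‖D (zz η E) (F n)‖ ≤ ‖D (zz η E) f‖ + ‖D (zz η E) (F n - f)‖ := by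
          rw [h4]; exact norm_add_le _ _
        simp only
        set a := ‖D (zz η E) f‖
        set b := ‖D (zz η E) (F n - f)‖
        have ha : 0 ≤ a := norm_nonneg _
        have hb : 0 ≤ b := norm_nonneg _
        have h6 : ‖D (zz η E) (F n)‖ ^ 2 ≤ (a + b) ^ 2 := by gcongr
        have h7 : 0 ≤ ε⁻¹ * (ε * a - b) ^ 2 := by positivity
        have h8 : ε⁻¹ * (ε * a - b) ^ 2 = ε * a ^ 2 - 2 * a * b + ε⁻¹ * b ^ 2 := by
          field_simp
          ring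
        nlinarith
      rw [integral_add ((hD.integrable_sq hη f).const_mul _)
        ((hD.integrable_sq hη _).const_mul _), integral_const_mul, integral_const_mul] at h3
      have h9 := hD.integral_sq_le hη (F n - f)
      have h10 : 0 ≤ 1 + ε⁻¹ := by positivity
      calc Real.pi / η * ‖F n‖ ^ 2 = ∫ E : ℝ, ‖D (zz η E) (F n)‖ ^ 2 := h2.symm
        _ ≤ _ := h3
        _ ≤ _ := by gcongr
    have h11 : Tendsto (fun n => Real.pi / η * ‖F n‖ ^ 2) atTop (𝓝 (Real.pi / η * ‖f‖ ^ 2)) :=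
      (hu.norm.pow 2).const_mul _
    have h12 : Tendsto (fun n => (1 + ε) * (∫ E : ℝ, ‖D (zz η E) f‖ ^ 2) +
        (1 + ε⁻¹) * (Real.pi / η * ‖F n - f‖ ^ 2)) atTop
        (𝓝 ((1 + ε) * (∫ E : ℝ, ‖D (zz η E) f‖ ^ 2) + (1 + ε⁻¹) * (Real.pi / η * 0 ^ 2))) := by
      refine Tendsto.const_add _ (Tendsto.const_mul _ (Tendsto.const_mul _ ?_))
      refine Tendsto.pow ?_ 2
      have : Tendsto (fun n => F n - f) atTop (𝓝 (f - f)) := hu.sub_const f
      rw [sub_self] at this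
      simpa using this.norm
    have h13 := le_of_tendsto_of_tendsto' h11 h12 h1
    simpa using h13
  have hq : 0 ≤ ∫ E : ℝ, ‖D (zz η E) f‖ ^ 2 := integral_nonneg fun E => by positivity
  refine le_of_forall_pos_le_add fun δ hδ => ?_
  have := key (δ / ((∫ E : ℝ, ‖D (zz η E) f‖ ^ 2) + 1)) (by positivity)
  refine this.trans ?_
  have h1 : δ / ((∫ E : ℝ, ‖D (zz η E) f‖ ^ 2) + 1) * (∫ E : ℝ, ‖D (zz η E) f‖ ^ 2) ≤ δ := by
    rw [div_mul_eq_mul_div, div_le_iff₀ (by positivity)]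
    nlinarith
  linarith

theorem integrable_inner {η : ℝ} (hη : 0 < η) (f g : X) :
    Integrable (fun E : ℝ => ⟪D (zz η E) f, D (zz η E) g⟫_ℂ) := by
  refine (((hD.integrable_sq hη f).add (hD.integrable_sq hη g)).mono' ?_ ?_)
  · exact ((hD.cont_line hη.ne' f).inner (hD.cont_line hη.ne' g)).aestronglyMeasurable
  · refine Eventually.of_forall fun E => (norm_inner_le_norm _ _).trans ?_
    simp only [Pi.add_apply]
    nlinarith [sq_nonneg (‖D (zz η E) f‖ - ‖D (zz η E) g‖), sq_nonneg (‖D (zz η E) f‖),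
      sq_nonneg (‖D (zz η E) g‖)]

theorem integral_inner {η : ℝ} (hη : 0 < η) (f g : X) :
    ∫ E : ℝ, ⟪D (zz η E) f, D (zz η E) g⟫_ℂ = (Real.pi / η : ℝ) * ⟪f, g⟫_ℂ := by
  have e : ∀ E : ℝ, ⟪D (zz η E) f, D (zz η E) g⟫_ℂ =
      (((‖D (zz η E) (f + g)‖ ^ 2 : ℝ) : ℂ) - ((‖D (zz η E) (f - g)‖ ^ 2 : ℝ) : ℂ) +
        (((‖D (zz η E) (f - Complex.I • g)‖ ^ 2 : ℝ) : ℂ) -
          ((‖D (zz η E) (f + Complex.I • g)‖ ^ 2 : ℝ) : ℂ)) * Complex.I) / 4 := by
    intro E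
    rw [inner_eq_sum_norm_sq_div_four]
    simp only [map_add, map_sub, map_smul]
    push_cast
    rfl
  have i1 : ∀ h : X, Integrable fun E : ℝ => ((‖D (zz η E) h‖ ^ 2 : ℝ) : ℂ) :=
    fun h => (hD.integrable_sq hη h).ofReal
  have i2 : ∀ h : X, ∫ E : ℝ, ((‖D (zz η E) h‖ ^ 2 : ℝ) : ℂ) =
      ((Real.pi / η * ‖h‖ ^ 2 : ℝ) : ℂ) := by
    intro h
    rw [← hD.integral_sq hη h]
    exact integral_ofReal
  have i3 : ∀ h h' : X, Integrable fun E : ℝ => ((‖D (zz η E) h‖ ^ 2 : ℝ) : ℂ) -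
      ((‖D (zz η E) h'‖ ^ 2 : ℝ) : ℂ) := fun h h' => (i1 h).sub (i1 h')
  rw [integral_congr_ae (Eventually.of_forall e), integral_div, integral_add
    (i3 _ _) ((i3 _ _).mul_const _), integral_mul_const,
    integral_sub (i1 _) (i1 _), integral_sub (i1 _) (i1 _), i2, i2, i2, i2,
    inner_eq_sum_norm_sq_div_four (𝕜 := ℂ) f g]
  push_cast
  simp only [Complex.coe_algebraMap, RCLike.I_to_complex]
  ring

theorem tendsto_line_zero {η : ℝ} (hη : 0 < η) (f g : X) {l : Filter ℝ}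
    (hl : Tendsto (fun E : ℝ => ‖zz η E + Complex.I‖) l atTop) :
    Tendsto (fun E : ℝ => ⟪f, D (zz η E) g⟫_ℂ) l (𝓝 0) := by
  have hI : (-Complex.I).im ≠ 0 := by simp
  have hz : ∀ E : ℝ, (zz η E).im ≠ 0 := fun E => by simpa using hη.ne'
  rw [Metric.tendsto_nhds]
  intro ε hε
  obtain ⟨g', ⟨h, hh⟩, hg'⟩ : ∃ g' ∈ Set.range (D (-Complex.I)),
      dist g g' < ε * η / (2 * (‖f‖ + 1)) := by
    have := hD.dense_range hI g
    exact Metric.mem_closure_iff.1 this _ (by positivity)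
  have hsm : Tendsto (fun E : ℝ => ‖f‖ * ((η⁻¹ * ‖h‖ + ‖g'‖) / ‖zz η E + Complex.I‖)) l
      (𝓝 (‖f‖ * 0)) := Tendsto.const_mul _ (tendsto_const_nhds.div_atTop hl)
  rw [mul_zero] at hsm
  have hev := hsm.eventually_lt_const (half_pos hε)
  filter_upwards [hev] with E hE
  rw [dist_zero_right]
  have h1 : ⟪f, D (zz η E) g⟫_ℂ = ⟪f, D (zz η E) g'⟫_ℂ + ⟪f, D (zz η E) (g - g')⟫_ℂ := by
    rw [← inner_add_right, ← map_add]; congr 2; abel
  have hne : zz η E + Complex.I ≠ 0 := by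
    intro h0
    have := congrArg Complex.im h0
    simp at this
    linarith
  have h2 : ‖D (zz η E) g'‖ ≤ (η⁻¹ * ‖h‖ + ‖g'‖) / ‖zz η E + Complex.I‖ := by
    have h3 := hD.ident_apply (hz E) hI h
    rw [sub_neg_eq_add, hh] at h3
    have h4 : ‖(zz η E + Complex.I) • D (zz η E) g'‖ ≤ η⁻¹ * ‖h‖ + ‖g'‖ := by
      rw [← h3]
      refine (norm_sub_le _ _).trans ?_
      gcongr
      have := hD.norm_le' (hz E) h
      rwa [zz_im, abs_of_pos hη] at this
    rw [norm_smul] at h4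
    rw [le_div_iff₀ (norm_pos_iff.2 hne), mul_comm]
    exact h4
  have h5 : ‖D (zz η E) (g - g')‖ ≤ η⁻¹ * ‖g - g'‖ := by
    have := hD.norm_le' (hz E) (g - g')
    rwa [zz_im, abs_of_pos hη] at this
  rw [dist_eq_norm] at hg'
  have h6 : ‖f‖ * (η⁻¹ * ‖g - g'‖) < ε / 2 := by
    have h7 : ‖f‖ * (η⁻¹ * ‖g - g'‖) ≤ (‖f‖ + 1) * (η⁻¹ * ‖g - g'‖) := by
      gcongr; linarith
    refine h7.trans_lt ?_
    have h8 : (‖f‖ + 1) * (η⁻¹ * ‖g - g'‖) < (‖f‖ + 1) * (η⁻¹ * (ε * η / (2 * (‖f‖ + 1)))) := by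
      gcongr
    refine h8.trans_le (le_of_eq ?_)
    field_simp
  calc ‖⟪f, D (zz η E) g⟫_ℂ‖ ≤ ‖⟪f, D (zz η E) g'⟫_ℂ‖ + ‖⟪f, D (zz η E) (g - g')⟫_ℂ‖ := by
        rw [h1]; exact norm_add_le _ _
    _ ≤ ‖f‖ * ((η⁻¹ * ‖h‖ + ‖g'‖) / ‖zz η E + Complex.I‖) + ‖f‖ * (η⁻¹ * ‖g - g'‖) := by
        refine add_le_add ((norm_inner_le_norm _ _).trans ?_)
          ((norm_inner_le_norm _ _).trans ?_) <;> gcongr
    _ < ε := by linarith

theorem norm_zz_tendsto_top (η : ℝ) :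
    Tendsto (fun E : ℝ => ‖zz η E + Complex.I‖) atTop atTop := by
  refine tendsto_atTop_mono (fun E => ?_) tendsto_id
  have := Complex.abs_re_le_norm (zz η E + Complex.I)
  simp at this
  exact (le_abs_self E).trans this

theorem norm_zz_tendsto_bot (η : ℝ) :
    Tendsto (fun E : ℝ => ‖zz η E + Complex.I‖) atBot atTop := by
  refine tendsto_atTop_mono (fun E => ?_) tendsto_neg_atBot_atTop
  have := Complex.abs_re_le_norm (zz η E + Complex.I)
  simp at this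
  exact (neg_le_abs E).trans this

theorem integrable_sq_inner {η : ℝ} (hη : 0 < η) (f g : X) :
    Integrable (fun E : ℝ => ⟪f, D (zz η E) (D (zz η E) g)⟫_ℂ) := by
  have hz : ∀ E : ℝ, (zz η E).im ≠ 0 := fun E => by simpa using hη.ne'
  refine (((hD.integrable_sq hη f).add (hD.integrable_sq hη g)).mono' ?_ ?_)
  · exact (continuous_const.inner (hD.cont_line2 hη.ne' g)).aestronglyMeasurable
  · refine Eventually.of_forall fun E => ?_
    have h1 : ⟪f, D (zz η E) (D (zz η E) g)⟫_ℂ = ⟪D (conj (zz η E)) f, D (zz η E) g⟫_ℂ := by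
      rw [hD.adj _ (conj_im_ne (hz E)), Complex.conj_conj]
    rw [h1]
    refine (norm_inner_le_norm _ _).trans ?_
    rw [hD.norm_conj (hz E)]
    simp only [Pi.add_apply]
    nlinarith [sq_nonneg (‖D (zz η E) f‖ - ‖D (zz η E) g‖), sq_nonneg (‖D (zz η E) f‖),
      sq_nonneg (‖D (zz η E) g‖)]

theorem integral_sq_inner {η : ℝ} (hη : 0 < η) (f g : X) :
    ∫ E : ℝ, ⟪f, D (zz η E) (D (zz η E) g)⟫_ℂ = 0 := by
  have hd : ∀ E : ℝ, HasDerivAt (fun E : ℝ => ⟪f, D (zz η E) g⟫_ℂ)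
      ⟪f, D (zz η E) (D (zz η E) g)⟫_ℂ E := by
    intro E
    have h1 := hD.hasDerivAt_inner (w := zz η E) (by simpa using hη.ne') f g
    have h2 : HasDerivAt (zz η) 1 E := by
      unfold zz
      simpa using (Complex.ofRealCLM.hasDerivAt (x := E)).add_const ((η : ℂ) * Complex.I)
    have h3 := HasDerivAt.comp_of_eq (h := zz η) (h₂ := fun z => ⟪f, D z g⟫_ℂ) E h1 h2 rfl
    simpa [Function.comp_def] using h3
  have := integral_of_hasDerivAt_of_tendsto hd (hD.integrable_sq_inner hη f g)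
    (hD.tendsto_line_zero hη f g (norm_zz_tendsto_bot hD η))
    (hD.tendsto_line_zero hη f g (norm_zz_tendsto_top hD η))
  rw [this, sub_zero]

theorem inner_sq_sq {z : ℂ} (hz : z.im ≠ 0) (f g : X) :
    ⟪D z (D z f), D z (D z g)⟫_ℂ =
      (1 / (4 * z.im ^ 2) : ℝ) * (2 * ⟪D z f, D z g⟫_ℂ - ⟪f, D z (D z g)⟫_ℂ -
        conj ⟪g, D z (D z f)⟫_ℂ) := by
  have hz' := conj_im_ne hz
  -- `D̄ D = (D - D̄)/(2 i η)`
  have hdiff : ∀ h : X, D z h - D (conj z) h = (2 * z.im * Complex.I) • D (conj z) (D z h) := by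
    intro h
    have h1 := hD.ident_apply hz' hz h
    have h2 : conj z - z = -(2 * z.im * Complex.I) := by
      apply Complex.ext <;> simp
      ring
    rw [h2, neg_smul] at h1
    rw [← neg_inj, neg_sub, h1]
  have hc : (2 * (z.im : ℂ) * Complex.I) ≠ 0 := by
    have : (z.im : ℂ) ≠ 0 := by exact_mod_cast hz
    simp [this]
  have hinv : ∀ h : X, D (conj z) (D z h) = (2 * z.im * Complex.I)⁻¹ • (D z h - D (conj z) h) := by
    intro h
    rw [hdiff, smul_smul, inv_mul_cancel₀ hc, one_smul]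
  have h1 : ⟪D z (D z f), D z (D z g)⟫_ℂ = ⟪f, D (conj z) (D z (D (conj z) (D z g)))⟫_ℂ := by
    rw [hD.adj z hz, hD.adj z hz, hD.comm_apply hz' hz (D z g)]
  rw [h1, hinv, hinv]
  simp only [map_sub, map_smul, inner_smul_right, inner_sub_right]
  have h2 : ⟪f, D z (D (conj z) g)⟫_ℂ = ⟪D z f, D z g⟫_ℂ := by
    rw [hD.adj z hz, hD.comm_apply hz hz']
  have h3 : ⟪f, D (conj z) (D z g)⟫_ℂ = ⟪D z f, D z g⟫_ℂ := by
    rw [hD.adj z hz]
  have h4 : ⟪f, D (conj z) (D (conj z) g)⟫_ℂ = conj ⟪g, D z (D z f)⟫_ℂ := by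
    rw [inner_conj_symm, hD.adj z hz, hD.adj z hz]
  rw [h2, h3, h4]
  have h5 : (2 * (z.im : ℂ) * Complex.I)⁻¹ * (2 * (z.im : ℂ) * Complex.I)⁻¹ =
      -((1 / (4 * z.im ^ 2) : ℝ) : ℂ) := by
    have : (z.im : ℂ) ≠ 0 := by exact_mod_cast hz
    push_cast
    field_simp
    rw [Complex.I_sq]
    ring
  calc _ = ((2 * (z.im : ℂ) * Complex.I)⁻¹ * (2 * (z.im : ℂ) * Complex.I)⁻¹) *
      (⟪f, D z (D z g)⟫_ℂ - ⟪D z f, D z g⟫_ℂ - (⟪D z f, D z g⟫_ℂ - conj ⟪g, D z (D z f)⟫_ℂ)) := by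
        ring
    _ = _ := by rw [h5]; ring

theorem integrable_sq_sq {η : ℝ} (hη : 0 < η) (f g : X) :
    Integrable (fun E : ℝ => ⟪D (zz η E) (D (zz η E) f), D (zz η E) (D (zz η E) g)⟫_ℂ) := by
  have e : ∀ E : ℝ, ⟪D (zz η E) (D (zz η E) f), D (zz η E) (D (zz η E) g)⟫_ℂ =
      (1 / (4 * η ^ 2) : ℝ) * (2 * ⟪D (zz η E) f, D (zz η E) g⟫_ℂ -
        ⟪f, D (zz η E) (D (zz η E) g)⟫_ℂ - conj ⟪g, D (zz η E) (D (zz η E) f)⟫_ℂ) := by
    intro E
    have := hD.inner_sq_sq (z := zz η E) (by simpa using hη.ne') f g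
    rwa [zz_im] at this
  refine Integrable.congr ?_ (Eventually.of_forall fun E => (e E).symm)
  refine Integrable.const_mul ?_ _
  refine (((hD.integrable_inner hη f g).const_mul 2).sub (hD.integrable_sq_inner hη f g)).sub ?_
  exact (LinearIsometryEquiv.integrable_comp_iff Complex.conjLIE).2
    (hD.integrable_sq_inner hη g f)

theorem integral_sq_sq {η : ℝ} (hη : 0 < η) (f g : X) :
    ∫ E : ℝ, ⟪D (zz η E) (D (zz η E) f), D (zz η E) (D (zz η E) g)⟫_ℂ =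
      (Real.pi / (2 * η ^ 3) : ℝ) * ⟪f, g⟫_ℂ := by
  have e : ∀ E : ℝ, ⟪D (zz η E) (D (zz η E) f), D (zz η E) (D (zz η E) g)⟫_ℂ =
      (1 / (4 * η ^ 2) : ℝ) * (2 * ⟪D (zz η E) f, D (zz η E) g⟫_ℂ -
        ⟪f, D (zz η E) (D (zz η E) g)⟫_ℂ - conj ⟪g, D (zz η E) (D (zz η E) f)⟫_ℂ) := by
    intro E
    have := hD.inner_sq_sq (z := zz η E) (by simpa using hη.ne') f g
    rwa [zz_im] at this
  have hconj : Integrable fun E : ℝ => conj ⟪g, D (zz η E) (D (zz η E) f)⟫_ℂ :=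
    (LinearIsometryEquiv.integrable_comp_iff Complex.conjLIE).2 (hD.integrable_sq_inner hη g f)
  have h2 : Integrable fun E : ℝ => 2 * ⟪D (zz η E) f, D (zz η E) g⟫_ℂ -
      ⟪f, D (zz η E) (D (zz η E) g)⟫_ℂ :=
    ((hD.integrable_inner hη f g).const_mul 2).sub (hD.integrable_sq_inner hη f g)
  rw [integral_congr_ae (Eventually.of_forall e), integral_const_mul, integral_sub h2 hconj,
    integral_sub ((hD.integrable_inner hη f g).const_mul 2) (hD.integrable_sq_inner hη f g),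
    integral_const_mul, hD.integral_inner hη, hD.integral_sq_inner hη, integral_conj,
    hD.integral_sq_inner hη, map_zero]
  have : (η : ℂ) ≠ 0 := by exact_mod_cast hη.ne'
  push_cast
  field_simp
  ring

/-- bound for the quadratic form of `D²` -/
theorem norm_sq_sq_le {z : ℂ} (hz : z.im ≠ 0) (f : X) :
    ‖D z (D z f)‖ ^ 2 ≤ (z.im ^ 2)⁻¹ * ‖D z f‖ ^ 2 := by
  have h := hD.norm_le' hz (D z f)
  calc ‖D z (D z f)‖ ^ 2 ≤ (|z.im|⁻¹ * ‖D z f‖) ^ 2 := by gcongr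
    _ = _ := by rw [mul_pow, inv_pow, sq_abs]

end IsRes

end Pool.Agent.Helper54.Bal
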