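import Mathlib

/-!
# Abstract resolvent families on a complex Hilbert space

`IsRes D`: `D z` (`z` non-real) is a family of bounded injective operators with the resolvent
identity and `(D z)* = D (conj z)`. Perturbation by a bounded symmetric operator.
-/

set_option autoImplicit false
set_option linter.unusedSectionVars false

open scoped InnerProductSpace ComplexConjugate Topology

noncomputable section

namespace Pool.Agent.Helper54.Bal

variable {X : Type*} [NormedAddCommGroup X] [InnerProductSpace ℂ X] [CompleteSpace X]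

/-- an abstract resolvent family -/
structure IsRes (D : ℂ → X →L[ℂ] X) : Prop where
  ident : ∀ z w : ℂ, z.im ≠ 0 → w.im ≠ 0 → D z - D w = (z - w) • (D z * D w)
  adj : ∀ z : ℂ, z.im ≠ 0 → ∀ f g : X, ⟪D z f, g⟫_ℂ = ⟪f, D (conj z) g⟫_ℂ
  inj : ∀ z : ℂ, z.im ≠ 0 → ∀ f : X, D z f = 0 → f = 0

theorem conj_im_ne {z : ℂ} (hz : z.im ≠ 0) : (conj z).im ≠ 0 := by
  simpa using hz

namespace IsRes

variable {D : ℂ → X →L[ℂ] X} (hD : IsRes D)

include hD

theorem ident_apply {z w : ℂ} (hz : z.im ≠ 0) (hw : w.im ≠ 0) (f : X) :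
    D z f - D w f = (z - w) • D z (D w f) := by
  have := congrArg (fun T : X →L[ℂ] X => T f) (hD.ident z w hz hw)
  simpa using this

theorem comm {z w : ℂ} (hz : z.im ≠ 0) (hw : w.im ≠ 0) : D z * D w = D w * D z := by
  by_cases h : z = w
  · rw [h]
  · have h1 := hD.ident z w hz hw
    have h2 := hD.ident w z hw hz
    have h3 : (z - w) • (D z * D w - D w * D z) = 0 := by
      rw [smul_sub, ← h1]
      have : (z - w) • (D w * D z) = -((w - z) • (D w * D z)) := by
        rw [← neg_smul, neg_sub]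
      rw [this, ← h2]
      abel
    rcases smul_eq_zero.1 h3 with h4 | h4
    · exact absurd (sub_eq_zero.1 h4) h
    · exact sub_eq_zero.1 h4

theorem comm_apply {z w : ℂ} (hz : z.im ≠ 0) (hw : w.im ≠ 0) (f : X) :
    D z (D w f) = D w (D z f) := by
  have := congrArg (fun T : X →L[ℂ] X => T f) (hD.comm hz hw)
  simpa using this

theorem im_inner {z : ℂ} (hz : z.im ≠ 0) (f : X) :
    (⟪f, D z f⟫_ℂ).im = z.im * ‖D z f‖ ^ 2 := by
  have hz' := conj_im_ne hz
  have h1 : ⟪D z f, D z f⟫_ℂ = ⟪f, D (conj z) (D z f)⟫_ℂ := hD.adj z hz _ _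
  have h2 : D (conj z) f - D z f = (conj z - z) • D (conj z) (D z f) :=
    hD.ident_apply hz' hz f
  have h3 : ⟪f, D (conj z) f⟫_ℂ - ⟪f, D z f⟫_ℂ = (conj z - z) * ⟪D z f, D z f⟫_ℂ := by
    rw [← inner_sub_right, h2, inner_smul_right, h1]
  have h4 : ⟪f, D (conj z) f⟫_ℂ = conj ⟪f, D z f⟫_ℂ := by
    rw [← hD.adj z hz, inner_conj_symm]
  rw [h4, inner_self_eq_norm_sq_to_K] at h3
  have h5 := congrArg Complex.im h3
  simp only [Complex.sub_im, Complex.conj_im, Complex.mul_im, Complex.sub_re, Complex.conj_re,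
    sub_self, zero_mul, zero_add] at h5
  have h6 : (((‖D z f‖ : ℝ) : ℂ) ^ 2).re = ‖D z f‖ ^ 2 := by
    rw [← Complex.ofReal_pow, Complex.ofReal_re]
  have h7 : ((‖D z f‖ : ℂ) ^ 2).re = ‖D z f‖ ^ 2 := h6
  simp only [Complex.coe_algebraMap] at h5
  rw [h7] at h5
  linarith

theorem norm_le {z : ℂ} (hz : z.im ≠ 0) (f : X) : |z.im| * ‖D z f‖ ≤ ‖f‖ := by
  have h1 := hD.im_inner hz f
  have h2 : |(⟪f, D z f⟫_ℂ).im| ≤ ‖f‖ * ‖D z f‖ :=
    (Complex.abs_im_le_norm _).trans (norm_inner_le_norm _ _)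
  rw [h1, abs_mul, abs_of_nonneg (by positivity : (0:ℝ) ≤ ‖D z f‖ ^ 2)] at h2
  rcases (norm_nonneg (D z f)).eq_or_lt with h | h
  · rw [← h]; simp
  · have : (|z.im| * ‖D z f‖) * ‖D z f‖ ≤ ‖f‖ * ‖D z f‖ := by nlinarith
    exact le_of_mul_le_mul_right this h

theorem norm_le' {z : ℂ} (hz : z.im ≠ 0) (f : X) : ‖D z f‖ ≤ |z.im|⁻¹ * ‖f‖ := by
  have h := hD.norm_le hz f
  have h0 : 0 < |z.im| := abs_pos.2 hz
  rw [inv_mul_eq_div, le_div_iff₀ h0]
  linarith

theorem opNorm_le {z : ℂ} (hz : z.im ≠ 0) : ‖D z‖ ≤ |z.im|⁻¹ :=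
  ContinuousLinearMap.opNorm_le_bound _ (by positivity) fun f => hD.norm_le' hz f

theorem norm_conj {z : ℂ} (hz : z.im ≠ 0) (f : X) : ‖D (conj z) f‖ = ‖D z f‖ := by
  have hz' := conj_im_ne hz
  have h1 := hD.im_inner hz f
  have h2 := hD.im_inner hz' f
  have h4 : ⟪f, D (conj z) f⟫_ℂ = conj ⟪f, D z f⟫_ℂ := by
    rw [← hD.adj z hz, inner_conj_symm]
  rw [h4, Complex.conj_im, h1, Complex.conj_im] at h2
  have h5 : z.im * (‖D (conj z) f‖ ^ 2 - ‖D z f‖ ^ 2) = 0 := by linarith
  rcases mul_eq_zero.1 h5 with h | h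
  · exact absurd h hz
  · have := norm_nonneg (D (conj z) f)
    have := norm_nonneg (D z f)
    nlinarith [sq_nonneg (‖D (conj z) f‖ - ‖D z f‖)]

theorem sub_norm_le {z w : ℂ} (hz : z.im ≠ 0) (hw : w.im ≠ 0) :
    ‖D z - D w‖ ≤ ‖z - w‖ * (|z.im|⁻¹ * |w.im|⁻¹) := by
  rw [hD.ident z w hz hw, norm_smul]
  gcongr
  refine (norm_mul_le _ _).trans ?_
  gcongr
  · exact hD.opNorm_le hz
  · exact hD.opNorm_le hw

theorem continuousAt {w : ℂ} (hw : w.im ≠ 0) : ContinuousAt D w := by
  have hc : ContinuousAt (fun z : ℂ => ‖z - w‖ * (|z.im|⁻¹ * |w.im|⁻¹)) w := by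
    refine ContinuousAt.mul (by fun_prop) (ContinuousAt.mul ?_ continuousAt_const)
    refine ContinuousAt.inv₀ (by fun_prop) (abs_pos.2 hw).ne'
  have h0 : Filter.Tendsto (fun z : ℂ => ‖z - w‖ * (|z.im|⁻¹ * |w.im|⁻¹)) (𝓝 w) (𝓝 0) := by
    have := hc.tendsto
    simpa using this
  rw [ContinuousAt, tendsto_iff_norm_sub_tendsto_zero]
  refine squeeze_zero' (Filter.Eventually.of_forall fun _ => norm_nonneg _) ?_ h0
  have hev : ∀ᶠ z : ℂ in 𝓝 w, z.im ≠ 0 :=
    Complex.continuous_im.continuousAt.eventually_ne hw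
  filter_upwards [hev] with z hz
  exact hD.sub_norm_le hz hw

/-- `z ↦ D z` is holomorphic off the real axis, with derivative `D z * D z`. -/
theorem hasDerivAt {w : ℂ} (hw : w.im ≠ 0) : HasDerivAt D (D w * D w) w := by
  rw [hasDerivAt_iff_tendsto_slope]
  have hc : Filter.Tendsto (fun z => D z * D w) (𝓝[≠] w) (𝓝 (D w * D w)) :=
    (((hD.continuousAt hw).tendsto.mono_left nhdsWithin_le_nhds).mul_const _)
  refine hc.congr' ?_
  have hev : ∀ᶠ z : ℂ in 𝓝[≠] w, z.im ≠ 0 :=
    (Complex.continuous_im.continuousAt.eventually_ne hw).filter_mono nhdsWithin_le_nhds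
  filter_upwards [hev, self_mem_nhdsWithin] with z hz hzw
  have hne : z - w ≠ 0 := sub_ne_zero.2 hzw
  rw [slope_def_module, hD.ident z w hz hw, smul_smul, inv_mul_cancel₀ hne, one_smul]

theorem hasDerivAt_inner {w : ℂ} (hw : w.im ≠ 0) (f g : X) :
    HasDerivAt (fun z => ⟪f, D z g⟫_ℂ) ⟪f, D w (D w g)⟫_ℂ w := by
  have h := hD.hasDerivAt hw
  have h1 : HasDerivAt (fun z => D z g) ((D w * D w) g) w := by
    exact ((ContinuousLinearMap.apply ℂ X g).hasFDerivAt.comp_hasDerivAt w h)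
  have h2 := ((innerSL ℂ f).hasFDerivAt.comp_hasDerivAt w h1)
  simpa [Function.comp_def] using h2

theorem dense_range {z : ℂ} (hz : z.im ≠ 0) : DenseRange (D z) := by
  have hz' := conj_im_ne hz
  have h : (LinearMap.range (D z : X →ₗ[ℂ] X))ᗮ = ⊥ := by
    rw [Submodule.eq_bot_iff]
    intro g hg
    rw [Submodule.mem_orthogonal] at hg
    apply hD.inj _ hz'
    rw [← inner_self_eq_zero (𝕜 := ℂ)]
    have h1 := hg (D z (D (conj z) g)) ⟨_, rfl⟩
    rw [hD.adj z hz] at h1
    exact h1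
  have h2 := Submodule.topologicalClosure_eq_top_iff.2 h
  have h3 : Dense ((LinearMap.range (D z : X →ₗ[ℂ] X)) : Set X) := by
    rw [Submodule.dense_iff_topologicalClosure_eq_top]
    exact h2
  have h4 : ((LinearMap.range (D z : X →ₗ[ℂ] X)) : Set X) = Set.range (D z) := by
    ext; simp
  rw [h4] at h3
  exact h3

end IsRes

section Pert

variable {D : ℂ → X →L[ℂ] X} (hD : IsRes D) {S : X →L[ℂ] X}
  (hS : ∀ f g : X, ⟪S f, g⟫_ℂ = ⟪f, S g⟫_ℂ)

include hS in
theorem inner_S_im (k : X) : (⟪S k, k⟫_ℂ).im = 0 := by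
  have h : conj ⟪S k, k⟫_ℂ = ⟪S k, k⟫_ℂ := by
    rw [inner_conj_symm, ← hS]
  exact Complex.conj_eq_iff_im.1 h

include hD hS

theorem pert_key {z : ℂ} (hz : z.im ≠ 0) {g h : X} (e : g + D z (S g) = h) :
    ‖g‖ ≤ (1 + ‖S‖ * |z.im|⁻¹) * ‖h‖ := by
  set k : X := g - h with hk
  have hk1 : D z (-(S g)) = k := by
    rw [map_neg, hk, ← e]; abel
  have h1 := hD.im_inner hz (-(S g))
  rw [hk1] at h1
  have hg : g = h + k := by rw [hk]; abel
  have h2 : (⟪-(S g), k⟫_ℂ).im = -(⟪S h, k⟫_ℂ).im := by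
    rw [inner_neg_left, hg, map_add, inner_add_left, Complex.neg_im, Complex.add_im,
      inner_S_im hS k, add_zero]
  rw [h2] at h1
  have h3 : |z.im| * ‖k‖ ^ 2 ≤ ‖S‖ * ‖h‖ * ‖k‖ := by
    have : |z.im * ‖k‖ ^ 2| ≤ ‖S‖ * ‖h‖ * ‖k‖ := by
      rw [← h1, abs_neg]
      refine (Complex.abs_im_le_norm _).trans ((norm_inner_le_norm _ _).trans ?_)
      gcongr
      exact S.le_opNorm h
    rwa [abs_mul, abs_of_nonneg (by positivity : (0:ℝ) ≤ ‖k‖ ^ 2)] at this
  have hp : 0 < |z.im| := abs_pos.2 hz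
  have h4 : ‖k‖ ≤ ‖S‖ * |z.im|⁻¹ * ‖h‖ := by
    rcases (norm_nonneg k).eq_or_lt with h0 | h0
    · rw [← h0]; positivity
    · have h5 : |z.im| * ‖k‖ ≤ ‖S‖ * ‖h‖ := by
        have : (|z.im| * ‖k‖) * ‖k‖ ≤ (‖S‖ * ‖h‖) * ‖k‖ := by nlinarith
        exact le_of_mul_le_mul_right this h0
      calc ‖k‖ = |z.im|⁻¹ * (|z.im| * ‖k‖) := by field_simp
        _ ≤ |z.im|⁻¹ * (‖S‖ * ‖h‖) := by gcongr
        _ = _ := by ring
  calc ‖g‖ = ‖h + k‖ := by rw [hg]
    _ ≤ ‖h‖ + ‖k‖ := norm_add_le _ _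
    _ ≤ ‖h‖ + ‖S‖ * |z.im|⁻¹ * ‖h‖ := by gcongr
    _ = _ := by ring

theorem isUnit_one_add {z : ℂ} (hz : z.im ≠ 0) : IsUnit (1 + D z * S) := by
  set T : X →L[ℂ] X := 1 + D z * S with hT
  have hTa : ∀ g, T g = g + D z (S g) := fun g => by
    rw [hT]; simp
  have hanti : AntilipschitzWith (Real.toNNReal (1 + ‖S‖ * |z.im|⁻¹)) T := by
    refine T.antilipschitz_of_bound fun g => ?_
    rw [Real.coe_toNNReal _ (by positivity)]
    exact pert_key hD hS hz (hTa g).symm
  have hinj : Function.Injective T := hanti.injective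
  have hclosed : IsClosed (Set.range T) := hanti.isClosed_range T.uniformContinuous
  have hdense : (LinearMap.range (T : X →ₗ[ℂ] X))ᗮ = ⊥ := by
    rw [Submodule.eq_bot_iff]
    intro g hg
    rw [Submodule.mem_orthogonal] at hg
    have hz' := conj_im_ne hz
    have h1 : g + S (D (conj z) g) = 0 := by
      rw [← inner_self_eq_zero (𝕜 := ℂ)]
      set u := g + S (D (conj z) g) with hu
      have h2 := hg (T u) ⟨_, rfl⟩
      rw [hTa, inner_add_left, hD.adj z hz, hS, ← inner_add_right] at h2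
      exact h2
    set k := D (conj z) g with hk
    have h2 := hD.im_inner hz' g
    rw [← hk] at h2
    have h3 : g = -(S k) := eq_neg_of_add_eq_zero_left h1
    have h4 : (⟪g, k⟫_ℂ).im = 0 := by
      rw [h3, inner_neg_left, Complex.neg_im, inner_S_im hS k, neg_zero]
    rw [h4] at h2
    have h5 : ‖k‖ ^ 2 = 0 := by
      rcases mul_eq_zero.1 h2.symm with h | h
      · exact absurd h hz'
      · exact h
    have h6 : k = 0 := by
      have : ‖k‖ = 0 := by simpa using h5
      exact norm_eq_zero.1 this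
    rw [h3, h6, map_zero, neg_zero]
  have hsurj : Function.Surjective T := by
    have h2 := Submodule.topologicalClosure_eq_top_iff.2 hdense
    have h3 : Dense ((LinearMap.range (T : X →ₗ[ℂ] X)) : Set X) := by
      rw [Submodule.dense_iff_topologicalClosure_eq_top]
      exact h2
    have h4 : ((LinearMap.range (T : X →ₗ[ℂ] X)) : Set X) = Set.range T := by
      ext; simp
    rw [h4] at h3
    rw [← Set.range_eq_univ, ← hclosed.closure_eq, h3.closure_eq]
  exact (ContinuousLinearMap.isUnit_iff_bijective).2 ⟨hinj, hsurj⟩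

end Pert

/-- the perturbed resolvent `(1 + D S)⁻¹ D` -/
def pert (D : ℂ → X →L[ℂ] X) (S : X →L[ℂ] X) (z : ℂ) : X →L[ℂ] X :=
  Ring.inverse (1 + D z * S) * D z

section Pert

variable {D : ℂ → X →L[ℂ] X} (hD : IsRes D) {S : X →L[ℂ] X}
  (hS : ∀ f g : X, ⟪S f, g⟫_ℂ = ⟪f, S g⟫_ℂ)

include hD hS

theorem pert_mul {z : ℂ} (hz : z.im ≠ 0) : (1 + D z * S) * pert D S z = D z := by
  unfold pert
  rw [← mul_assoc, Ring.mul_inverse_cancel _ (isUnit_one_add hD hS hz), one_mul]

theorem pert_apply {z : ℂ} (hz : z.im ≠ 0) (f : X) :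
    pert D S z f + D z (S (pert D S z f)) = D z f := by
  have := congrArg (fun T : X →L[ℂ] X => T f) (pert_mul hD hS hz)
  simpa using this

theorem pert_apply' {z : ℂ} (hz : z.im ≠ 0) (f : X) :
    pert D S z f = D z (f - S (pert D S z f)) := by
  rw [map_sub, ← pert_apply hD hS hz f]
  abel

theorem pert_unique {z : ℂ} (hz : z.im ≠ 0) {f g : X} (h : g + D z (S g) = D z f) :
    g = pert D S z f := by
  have h2 := pert_apply hD hS hz f
  have h3 : (g - pert D S z f) + D z (S (g - pert D S z f)) = 0 := by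
    rw [map_sub, map_sub]
    have : g - pert D S z f + (D z (S g) - D z (S (pert D S z f)))
      = (g + D z (S g)) - (pert D S z f + D z (S (pert D S z f))) := by abel
    rw [this, h, h2, sub_self]
  have h4 := pert_key hD hS hz h3
  rw [norm_zero, mul_zero] at h4
  exact sub_eq_zero.1 (norm_eq_zero.1 (le_antisymm h4 (norm_nonneg _)))

theorem isRes_pert : IsRes (pert D S) where
  ident z w hz hw := by
    ext f
    have e : ∀ T : X →L[ℂ] X, ∀ g, (T * T) g = T (T g) := fun _ _ => rfl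
    change pert D S z f - pert D S w f = (z - w) • pert D S z (pert D S w f)
    have key : pert D S w f + (z - w) • pert D S z (pert D S w f) = pert D S z f := by
      apply pert_unique hD hS hz
      set q := pert D S w f with hq
      have hq' : q = D w (f - S q) := pert_apply' hD hS hw f
      have h1 := pert_apply hD hS hz q
      have h2 : D z (f - S q) - q = (z - w) • D z q := by
        have := hD.ident_apply hz hw (f - S q)
        rw [← hq'] at this
        exact this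
      simp only [map_add, map_smul]
      have h3 : q + (z - w) • pert D S z q + (D z (S q) + (z - w) • D z (S (pert D S z q)))
        = q + D z (S q) + (z - w) • (pert D S z q + D z (S (pert D S z q))) := by
        rw [smul_add]; abel
      rw [h3, h1, ← h2, map_sub]
      abel
    rw [← key]
    abel
  adj z hz f g := by
    have hz' := conj_im_ne hz
    set p := pert D S z f with hp
    set q := pert D S (conj z) g with hq
    have hp' : p = D z (f - S p) := pert_apply' hD hS hz f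
    have hq' : q = D (conj z) (g - S q) := pert_apply' hD hS hz' g
    have h1 : ⟪p, g - S q⟫_ℂ = ⟪f - S p, q⟫_ℂ := by
      conv_lhs => rw [hp']
      rw [hD.adj z hz, ← hq']
    have h2 : ⟪p, g⟫_ℂ = ⟪p, g - S q⟫_ℂ + ⟪p, S q⟫_ℂ := by
      rw [← inner_add_right]; congr 1; abel
    rw [h2, h1, inner_sub_left, hS]
    ring
  inj z hz f h := by
    have h1 := pert_apply hD hS hz f
    rw [h, map_zero, map_zero, add_zero] at h1
    exact hD.inj z hz f h1.symm

theorem pert_apply'' {z : ℂ} (hz : z.im ≠ 0) (f : X) :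
    pert D S z (S (D z f)) = D z f - pert D S z f := by
  have h : D z f - pert D S z (S (D z f)) = pert D S z f := by
    apply pert_unique hD hS hz
    have h1 := pert_apply hD hS hz (S (D z f))
    rw [map_sub, map_sub]
    have : D z f - pert D S z (S (D z f)) +
        (D z (S (D z f)) - D z (S (pert D S z (S (D z f))))) =
        D z f + D z (S (D z f)) - (pert D S z (S (D z f)) +
          D z (S (pert D S z (S (D z f))))) := by abel
    rw [this, h1]
    abel
  rw [← h]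
  abel

/-- an operator commuting with `D z` and `S` commutes with the perturbed resolvent -/
theorem comm_pert {z : ℂ} (hz : z.im ≠ 0) {B : X →L[ℂ] X} (h1 : ∀ f, B (D z f) = D z (B f))
    (h2 : ∀ f, B (S f) = S (B f)) (f : X) : B (pert D S z f) = pert D S z (B f) := by
  apply pert_unique hD hS hz
  rw [← h2, ← h1, ← map_add, pert_apply hD hS hz, h1]

end Pert

end Pool.Agent.Helper54.Bal
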